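import Pool.Agent.MP_8a4945_al.H85.Tree

namespace Pool.Agent.MP_8a4945_al.H85

universe u v w

open PreTree Tree2

variable {E : Type u} {K : Type v} {G : Type w} [Group G] [MulAction G E]

/-- the action on words -/
def act (g : G) (s : List E) : List E := s.map (g • ·)

@[simp] lemma act_nil (g : G) : act g ([] : List E) = [] := rfl
@[simp] lemma act_cons (g : G) (e : E) (s : List E) : act g (e :: s) = g • e :: act g s := rfl
@[simp] lemma act_append (g : G) (s t : List E) : act g (s ++ t) = act g s ++ act g t :=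
  List.map_append
@[simp] lemma act_one (s : List E) : act (1 : G) s = s := by simp [act]
lemma act_mul (g h : G) (s : List E) : act (g * h) s = act g (act h s) := by
  simp [act, mul_smul]
@[simp] lemma act_inv_act (g : G) (s : List E) : act g⁻¹ (act g s) = s := by
  rw [← act_mul]; simp
@[simp] lemma act_act_inv (g : G) (s : List E) : act g (act g⁻¹ s) = s := by
  rw [← act_mul]; simp
lemma smul_mem_act {g : G} {s : List E} {e : E} : g • e ∈ act g s ↔ e ∈ s := by
  simp [act]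
lemma mem_act {g : G} {s : List E} {e : E} : e ∈ act g s ↔ g⁻¹ • e ∈ s := by
  rw [← smul_mem_act (g := g) (e := g⁻¹ • e), smul_inv_smul]
lemma act_eq_self {g : G} {s : List E} : act g s = s ↔ ∀ e ∈ s, g • e = e := by
  induction s with
  | nil => simp
  | cons e s ih => simp [ih]
@[simp] lemma length_act (g : G) (s : List E) : (act g s).length = s.length := by simp [act]

lemma zpow_fix {X : Type u} [MulAction G X] {g : G} {x : X} (h : g • x = x) (i : ℤ) :
    g ^ i • x = x :=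
  MulAction.mem_stabilizer_iff.1 ((MulAction.stabilizer G x).zpow_mem h i)

variable [MulAction G K]

/-- a free action by automorphisms which is closed under taking left parts -/
structure IsAct (T : Tree2 E K) (G : Type w) [Group G] [MulAction G E] [MulAction G K] :
    Prop where
  ins_smul : ∀ (g : G) κ, T.ins (g • κ) = act g (T.ins κ)
  flip_smul : ∀ (g : G) κ, T.flip (g • κ) = g • T.flip κ
  no_inv : ∀ (g : G) κ, g • κ ≠ T.flip κ
  cell_fix : ∀ (g : G) κ, (∀ e ∈ T.ins κ, g • e = e) → g • κ = κ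
  base_X : ∀ g : G, T.X (act g T.base)
  free : ∀ g : G, act g T.base = T.base → g = 1
  closed : ∀ (g : G) a e b, T.X (a ++ e :: b) → g • e = e →
    ∃ l : G, act l (a ++ e :: b) = act g a ++ e :: b

namespace IsAct

variable {T : Tree2 E K} (hA : IsAct T G)
include hA

lemma outs_smul (g : G) (κ : K) : T.outs (g • κ) = act g (T.outs κ) := by
  rw [outs, hA.flip_smul, hA.ins_smul]; rfl

lemma no_inv_flip (g : G) (κ : K) : κ ≠ g • T.flip κ := by
  have := hA.no_inv g (T.flip κ)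
  rw [T.flip_flip] at this
  exact this.symm

lemma reach (g : G) {s s' : List E} (h : T.Reach s s') : T.Reach (act g s) (act g s') := by
  induction h with
  | refl => exact Reach.refl _
  | tail _ h ih =>
    obtain ⟨a, κ, b, rfl, rfl⟩ := h
    simp only [act_append, ← hA.ins_smul, ← hA.outs_smul] at ih ⊢
    exact ih.step

lemma X (g : G) {s : List E} (h : T.X s) : T.X (act g s) := (hA.base_X g).reach (hA.reach g h)

lemma isOri (g : G) {s : List E} {O : Set K} (h : T.IsOri s O) :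
    T.IsOri (act g s) {κ | g⁻¹ • κ ∈ O} := by
  refine ⟨fun κ => ?_, h.nodup.map (MulAction.injective g), ?_, ?_, ?_, ?_, ?_⟩
  · simp only [Set.mem_ofPred_eq, ← hA.flip_smul, h.xor]
  · intro e he κ hκ h2
    refine h.root _ (mem_act.1 he) _ hκ ?_
    rw [hA.outs_smul]; exact smul_mem_act.2 h2
  · intro e he
    obtain ⟨κ, hκ, h2⟩ := h.par (g⁻¹ • e) (fun h => he (mem_act.2 h))
    refine ⟨g • κ, by simpa using hκ, ?_⟩
    rw [hA.outs_smul]; exact mem_act.2 h2
  · intro κ hκ μ hμ e h1 h2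
    have := h.uniq _ hκ _ hμ (g⁻¹ • e) (by rw [hA.outs_smul]; exact smul_mem_act.2 h1)
      (by rw [hA.outs_smul]; exact smul_mem_act.2 h2)
    exact MulAction.injective _ this
  · intro κ hκ
    have := h.nodup_out _ hκ
    rw [hA.outs_smul] at this
    exact List.Nodup.of_map _ this
  · obtain ⟨ht, hht⟩ := h.wf
    refine ⟨fun e => ht (g⁻¹ • e), fun κ hκ e h1 e' h2 => hht _ hκ _ ?_ _ ?_⟩
    · rw [hA.ins_smul]; exact smul_mem_act.2 h1
    · rw [hA.outs_smul]; exact smul_mem_act.2 h2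

lemma mem_ori {g : G} {s : List E} (h : T.X s) {κ : K} :
    κ ∈ T.ori (act g s) ↔ g⁻¹ • κ ∈ T.ori s := by
  rw [(hA.isOri g h.isOri).ori_eq]; rfl

lemma smul_mem_ori {g : G} {s : List E} (h : T.X s) {κ : K} :
    g • κ ∈ T.ori (act g s) ↔ κ ∈ T.ori s := by
  rw [hA.mem_ori h, inv_smul_smul]

lemma fix_reach {g : G} {l l' : List E} (h : T.Reach l l') (hl : ∀ e ∈ l, g • e = e) :
    ∀ e ∈ l', g • e = e := by
  induction h with
  | refl => exact hl
  | tail _ h ih =>
    obtain ⟨a, κ, b, rfl, rfl⟩ := h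
    have h1 := hA.cell_fix g κ (fun e he => ih e (by simp [he]))
    have h2 : act g (T.outs κ) = T.outs κ := by rw [← hA.outs_smul, h1]
    intro e he
    simp only [List.mem_append] at he
    rcases he with (he | he) | he
    · exact ih e (by simp [he])
    · exact act_eq_self.1 h2 e he
    · exact ih e (by simp [he])

lemma free' {g : G} {s : List E} (hs : T.X s) (h : ∀ e ∈ s, g • e = e) : g = 1 :=
  hA.free g (act_eq_self.2 (hA.fix_reach (Reach.symm hs) h))

lemma eq_of_act {g h : G} {s : List E} (hs : T.X s) (H : act g s = act h s) : g = h := by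
  have : h⁻¹ * g = 1 := hA.free' hs (act_eq_self.1 (by rw [act_mul, H, act_inv_act]))
  rw [inv_mul_eq_one] at this
  exact this.symm

lemma lt_smul (g : G) {e e' : E} (h : T.Lt e e') : T.Lt (g • e) (g • e') := by
  obtain ⟨a, b, h1, h2⟩ := h
  exact ⟨act g a, act g b, by simpa using hA.X g h1, smul_mem_act.2 h2⟩

lemma not_lt_periodic {g : G} {e : E} (h : T.Lt e (g • e)) {n : ℕ} (hn : 0 < n)
    (hp : g ^ n • e = e) : False := by
  have : ∀ m : ℕ, T.Lt e (g ^ (m + 1) • e) := by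
    intro m
    induction m with
    | zero => simpa using h
    | succ m ih =>
      refine h.trans ?_
      rw [pow_succ' g (m + 1), mul_smul]
      exact hA.lt_smul g ih
  obtain ⟨m, rfl⟩ : ∃ m, n = m + 1 := ⟨n - 1, by omega⟩
  have h2 := this m
  rw [hp] at h2
  exact h2.irrefl

lemma fix_of_orbit {g : G} {e : E} {s : List E} (hs : T.X s)
    (h : ∀ n : ℕ, g ^ n • e ∈ s) : g • e = e := by
  obtain ⟨i, j, hij, hE⟩ := Set.Finite.exists_lt_map_eq_of_forall_mem
    (f := fun n : ℕ => g ^ n • e) (t := {x | x ∈ s}) h (List.finite_toSet s)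
  have hp : g ^ (j - i) • e = e := by
    apply MulAction.injective (g ^ i)
    simp only [← mul_smul, ← pow_add]
    rw [Nat.add_sub_cancel' hij.le, hE]
  have h0 := h 0
  have h1 := h 1
  simp only [pow_zero, one_smul, pow_one] at h0 h1
  rcases trichotomy hs h0 h1 with h2 | h2 | h2
  · exact h2.symm
  · exact (hA.not_lt_periodic h2 (by omega) hp).elim
  · have h3 : T.Lt e (g⁻¹ • e) := by simpa using hA.lt_smul g⁻¹ h2
    refine (hA.not_lt_periodic h3 (n := j - i) (by omega) ?_).elim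
    rw [inv_pow, inv_smul_eq_iff, hp]

lemma ncard_sep (h : G) {s y : List E} (hs : T.X s) (hy : T.X y) :
    (T.ori (act h s) \ T.ori (act h y)).ncard = (T.ori s \ T.ori y).ncard := by
  rw [← Set.ncard_image_of_injective (T.ori s \ T.ori y) (MulAction.injective h)]
  congr 1
  ext κ
  simp only [Set.mem_sdiff, hA.mem_ori hs, hA.mem_ori hy, Set.mem_image]
  constructor
  · intro h1
    exact ⟨h⁻¹ • κ, h1, by simp⟩
  · rintro ⟨x, hx, rfl⟩
    simpa using hx

end IsAct

/-- the word `s` lies on an axis of `g` -/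
def Mono (T : Tree2 E K) (g : G) (s : List E) : Prop :=
  ∀ κ (i j k : ℤ), i < j → j < k → κ ∈ T.ori (act (g ^ i) s) → κ ∈ T.ori (act (g ^ k) s) →
    κ ∈ T.ori (act (g ^ j) s)

lemma descend {T : Tree2 E K} {s y z : List E} (hs : T.X s) (hy : T.X y) (hz : T.X z) {κ : K}
    (h1 : κ ∈ T.ori s) (h2 : κ ∉ T.ori y) (h3 : κ ∈ T.ori z) :
    ∃ κ, κ ∈ T.ori s ∧ κ ∉ T.ori y ∧ κ ∈ T.ori z ∧ ∀ e ∈ T.outs κ, e ∈ y := by
  obtain ⟨ht, hht⟩ := hy.isOri.wf
  have key : ∀ N, ∀ κ, κ ∈ T.ori s → κ ∉ T.ori y → κ ∈ T.ori z → (∀ e ∈ T.outs κ, ht e < N) →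
      ∃ κ, κ ∈ T.ori s ∧ κ ∉ T.ori y ∧ κ ∈ T.ori z ∧ ∀ e ∈ T.outs κ, e ∈ y := by
    intro N
    induction N with
    | zero =>
      intro κ _ _ _ h
      obtain ⟨e, he⟩ := List.exists_mem_of_ne_nil _ (T.outs_ne κ)
      exact absurd (h e he) (by omega)
    | succ N ih =>
      intro κ h1 h2 h3 h
      by_cases hall : ∀ e ∈ T.outs κ, e ∈ y
      · exact ⟨κ, h1, h2, h3, hall⟩
      · push Not at hall
        obtain ⟨e, he, hey⟩ := hall
        obtain ⟨ν, hν, heν⟩ := hy.isOri.par e hey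
        refine ih (T.flip ν) (hs.flip_mem.2 fun h' => ?_) (fun h' => hy.flip_mem.1 h' hν)
          (hz.flip_mem.2 fun h' => ?_) ?_
        · exact h2 (hs.isOri.uniq _ h1 _ h' e he heν ▸ hν)
        · exact h2 (hz.isOri.uniq _ h3 _ h' e he heν ▸ hν)
        · intro e' he'
          have a1 := hht ν hν e' (by simpa using he') e heν
          have a2 := h e he
          omega
  refine key (((T.outs κ).map ht).sum + 1) κ h1 h2 h3 fun e he => ?_
  exact Nat.lt_succ_of_le (List.le_sum_of_mem (List.mem_map_of_mem he))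

namespace IsAct

variable {T : Tree2 E K} (hA : IsAct T G)
include hA

lemma axis_step (g : G) {s : List E} (hs : T.X s) (n : ℕ) {κ : K}
    (h1 : κ ∈ T.ori s) (h2 : κ ∉ T.ori (act g s)) (h3 : κ ∈ T.ori (act (g ^ (n + 2)) s)) :
    ∃ y, T.X y ∧ (∀ e ∈ s, g • e = e → e ∈ y) ∧
      (T.ori y \ T.ori (act g y)).ncard ≤ (T.ori s \ T.ori (act g s)).ncard ∧
      (n = 0 → (T.ori y \ T.ori (act g y)).ncard < (T.ori s \ T.ori (act g s)).ncard) ∧
      ((∀ κ ∈ T.ori s, κ ∉ T.ori (act g s) → κ ∉ T.ori (act (g ^ 2) s)) →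
        ∃ κ ∈ T.ori y, κ ∉ T.ori (act g y) ∧ κ ∈ T.ori (act (g ^ (n + 1)) y)) := by
  have hgs := hA.X g hs
  obtain ⟨κ, h1, h2, h3, h4⟩ := descend hs hgs (hA.X _ hs) h1 h2 h3
  obtain ⟨a, b, hab⟩ := contiguous hs hgs h1 h2 h4
  have hy : T.X (a ++ T.ins κ ++ b) := X.unstep (hab ▸ hgs)
  have hori : T.ori (a ++ T.ins κ ++ b) = insert κ (T.ori (act g s) \ {T.flip κ}) := by
    have := X.ori_step (T := T) (a := a) (b := b) (κ := T.flip κ)
      (by rw [ins_flip, ← hab]; exact hgs)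
    rwa [T.flip_flip, ins_flip, outs_flip, ← hab] at this
  set y := a ++ T.ins κ ++ b with hydef
  have hori' : ∀ (h : G) (ν : K), ν ∈ T.ori (act h y) ↔
      ν = h • κ ∨ (ν ∈ T.ori (act (h * g) s) ∧ ν ≠ h • T.flip κ) := by
    intro h ν
    rw [hA.mem_ori hy, hori, act_mul, hA.mem_ori (g := h) hgs]
    simp [inv_smul_eq_iff]
  have hfin := sep_finite hgs (hA.X g hgs)
  have hcard := hA.ncard_sep g hs hgs
  have hgκ : g • κ ∈ T.ori (act g s) \ T.ori (act g (act g s)) :=
    ⟨(hA.smul_mem_ori hs).2 h1, fun h => h2 ((hA.smul_mem_ori hgs).1 h)⟩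
  have hsub : T.ori y \ T.ori (act g y) ⊆
      insert κ ((T.ori (act g s) \ T.ori (act g (act g s))) \ {g • κ}) := by
    rintro ν ⟨a1, a2⟩
    rw [hori] at a1
    rw [hori', act_mul] at a2
    rcases a1 with rfl | a1
    · exact Or.inl rfl
    · refine Or.inr ⟨⟨a1.1, fun a3 => a2 (Or.inr ⟨a3, ?_⟩)⟩, fun a3 => a2 (Or.inl a3)⟩
      rintro rfl
      exact hs.flip_mem.1 ((hA.smul_mem_ori hs).1 a1.1) h1
  have hc2 := Set.ncard_sdiff_singleton_add_one hgκ hfin
  refine ⟨y, hy, ?_, ?_, ?_, ?_⟩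
  · intro e he hge
    have a1 : e ∈ act g s := by rw [← hge]; exact smul_mem_act.2 he
    have a2 := hs.isOri.root e he κ h1
    rw [hab] at a1
    simp only [hydef, List.mem_append] at a1 ⊢
    tauto
  · refine (Set.ncard_le_ncard hsub (hfin.sdiff.insert _)).trans
      ((Set.ncard_insert_le _ _).trans ?_)
    omega
  · rintro rfl
    have hκ : κ ∈ T.ori (act g y) := by
      rw [hori']
      exact Or.inr ⟨by simpa [pow_two] using h3, (hA.no_inv_flip g κ)⟩
    have hsub' : T.ori y \ T.ori (act g y) ⊆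
        ((T.ori (act g s) \ T.ori (act g (act g s))) \ {g • κ}) := by
      intro ν hν
      rcases hsub hν with rfl | h
      · exact absurd hκ hν.2
      · exact h
    have := Set.ncard_le_ncard hsub' hfin.sdiff
    omega
  · intro hh
    refine ⟨κ, by rw [hori]; exact Or.inl rfl, ?_, ?_⟩
    · rw [hori']
      rintro (h | h)
      · exact h2 (by rw [h]; exact hgκ.1)
      · exact hh κ h1 h2 (by simpa [pow_two] using h.1)
    · rw [hori']
      exact Or.inr ⟨by rw [← pow_succ]; exact h3, hA.no_inv_flip _ κ⟩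

lemma axis (g : G) {y0 : List E} (hy0 : T.X y0) :
    ∃ s, T.X s ∧ Mono T g s ∧ ∀ e ∈ y0, g • e = e → e ∈ s := by
  classical
  let C : List E → Prop := fun s => T.X s ∧ ∀ e ∈ y0, g • e = e → e ∈ s
  let f : List E → ℕ := fun s => (T.ori s \ T.ori (act g s)).ncard
  have hex : ∃ n, ∃ s, C s ∧ f s = n := ⟨_, y0, ⟨hy0, fun e h _ => h⟩, rfl⟩
  have hmin : ∀ s, C s → Nat.find hex ≤ f s := fun s hs => Nat.find_min' hex ⟨s, hs, rfl⟩
  have P : ∀ n : ℕ, ∀ s, C s → f s = Nat.find hex → ∀ κ ∈ T.ori s, κ ∉ T.ori (act g s) →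
      κ ∉ T.ori (act (g ^ (n + 1)) s) := by
    intro n
    induction n using Nat.strong_induction_on with
    | _ n ih =>
    intro s hs hf κ h1 h2 h3
    rcases n with _ | n
    · exact h2 (by simpa using h3)
    obtain ⟨y, hy, a1, a2, a3, a4⟩ := hA.axis_step g hs.1 n h1 h2 h3
    have hCy : C y := ⟨hy, fun e he hge => a1 e (hs.2 e he hge) hge⟩
    have hle := hmin y hCy
    rcases n with _ | n
    · have := a3 rfl
      simp only [f] at hf hle
      omega
    · obtain ⟨ν, b1, b2, b3⟩ := a4 (ih 1 (by omega) s hs hf)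
      exact ih (n + 1) (by omega) y hCy (by simp only [f] at hf hle ⊢; omega) ν b1 b2 b3
  obtain ⟨s, hs, hf⟩ := Nat.find_spec hex
  refine ⟨s, hs.1, ?_, hs.2⟩
  have hC : ∀ i : ℤ, C (act (g ^ i) s) := fun i =>
    ⟨hA.X _ hs.1, fun e he hge => by
      rw [← zpow_fix hge i]; exact smul_mem_act.2 (hs.2 e he hge)⟩
  have hF : ∀ i : ℤ, f (act (g ^ i) s) = Nat.find hex := by
    intro i
    rw [← hf]
    simp only [f]
    rw [← hA.ncard_sep (g ^ i) hs.1 (hA.X g hs.1), ← act_mul, ← act_mul, ← zpow_add_one,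
      ← zpow_one_add, add_comm]
  intro κ i j k hij hjk hi hk
  by_contra hj
  obtain ⟨d, rfl⟩ : ∃ d : ℕ, j = i + d := ⟨(j - i).toNat, by omega⟩
  clear hij
  induction d generalizing i with
  | zero => exact hj (by simpa using hi)
  | succ d ih =>
    by_cases h : κ ∈ T.ori (act (g ^ (i + 1)) s)
    · refine ih (i + 1) h (by omega) ?_
      convert hj using 5
      push_cast; ring
    · have := P (k - i - 1).toNat _ (hC i) (hF i) κ hi
        (by rwa [← act_mul, ← zpow_one_add, add_comm])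
      apply this
      rw [← act_mul, ← zpow_natCast, ← zpow_add]
      convert hk using 4
      omega

lemma mono_comm {g h : G} (hc : Commute h g) {s : List E} (hs : T.X s) (hm : Mono T g s) :
    Mono T g (act h s) := by
  intro κ i j k hij hjk hi hk
  have : ∀ i : ℤ, κ ∈ T.ori (act (g ^ i) (act h s)) ↔ h⁻¹ • κ ∈ T.ori (act (g ^ i) s) := by
    intro i
    rw [← act_mul, ← (hc.zpow_right i).eq, act_mul, hA.mem_ori (hA.X _ hs)]
  rw [this] at hi hk ⊢
  exact hm _ i j k hij hjk hi hk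

lemma transfer {g : G} {s y : List E} (hs : T.X s) (hm : Mono T g s) (hy : T.X y) {κ : K}
    (h1 : κ ∈ T.ori s) (h2 : κ ∉ T.ori (act g s)) :
    ∃ m : ℤ, κ ∈ T.ori (act (g ^ m) y) ∧ κ ∉ T.ori (act (g ^ (m + 1)) y) := by
  have hneg : ∀ n : ℤ, n ≤ 0 → κ ∈ T.ori (act (g ^ n) s) := by
    intro n hn
    rcases hn.eq_or_lt with rfl | hn
    · simpa using h1
    · by_contra h
      have := hm (T.flip κ) n 0 1 hn one_pos ((hA.X _ hs).flip_mem.2 h)
        (by rw [zpow_one]; exact (hA.X _ hs).flip_mem.2 h2)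
      exact hs.flip_mem.1 (by simpa using this) h1
  have hpos : ∀ n : ℤ, 1 ≤ n → κ ∉ T.ori (act (g ^ n) s) := by
    intro n hn h
    rcases hn.eq_or_lt with rfl | hn
    · exact h2 (by simpa using h)
    · exact h2 (by simpa using hm κ 0 1 n one_pos hn (by simpa using h1) h)
  have hap : ∀ n : ℤ, 0 < n → g ^ n • κ ≠ κ := by
    intro n hn h
    refine hpos n hn ?_
    rw [← h]
    exact (hA.smul_mem_ori hs).2 h1
  have hinj : Function.Injective fun n : ℤ => (g ^ n)⁻¹ • κ := by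
    intro i j hij
    simp only at hij
    by_contra hne
    wlog hlt : i < j generalizing i j
    · exact this hij.symm (Ne.symm hne) (by omega)
    apply hap (j - i) (by omega)
    rw [inv_smul_eq_iff, ← mul_smul, ← zpow_neg, ← zpow_add] at hij
    conv_lhs => rw [hij]
    rw [← mul_smul, ← zpow_add, show j - i + (i + -j) = 0 by ring, zpow_zero, one_smul]
  have e1 : ∃ n : ℤ, 1 ≤ n ∧ κ ∉ T.ori (act (g ^ n) y) := by
    by_contra! h
    refine (Set.Ici_infinite (1 : ℤ)) (Set.Finite.subset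
      ((sep_finite hy hs).preimage hinj.injOn) fun n hn => ⟨?_, ?_⟩)
    · exact (hA.mem_ori hy).1 (h n hn)
    · exact fun h' => hpos n hn ((hA.mem_ori hs).2 h')
  have e2 : ∃ n : ℤ, n ≤ 0 ∧ κ ∈ T.ori (act (g ^ n) y) := by
    by_contra! h
    refine (Set.Iic_infinite (0 : ℤ)) (Set.Finite.subset
      ((sep_finite hs hy).preimage hinj.injOn) fun n hn => ⟨?_, ?_⟩)
    · exact (hA.mem_ori hs).1 (hneg n hn)
    · exact fun h' => h n hn ((hA.mem_ori hy).2 h')
  obtain ⟨n1, a1, a2⟩ := e1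
  obtain ⟨n2, b1, b2⟩ := e2
  obtain ⟨d, rfl⟩ : ∃ d : ℕ, n1 = n2 + d := ⟨(n1 - n2).toNat, by omega⟩
  clear a1 b1
  induction d with
  | zero => exact absurd b2 (by simpa using a2)
  | succ d ih =>
    by_cases h : κ ∈ T.ori (act (g ^ (n2 + d)) y)
    · exact ⟨_, h, by rw [add_assoc]; exact_mod_cast a2⟩
    · exact ih h

lemma pigeon {g h : G} (hc : Commute h g) {s : List E} (hs : T.X s) (hm : Mono T g s) {κ : K}
    (h1 : κ ∈ T.ori s) (h2 : κ ∉ T.ori (act g s)) :
    ∃ (a : ℕ) (b : ℤ), 0 < a ∧ (h ^ a * g ^ b) • κ = κ := by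
  have : ∀ i : ℕ, ∃ m : ℤ, (g ^ m)⁻¹ • h ^ i • κ ∈ T.ori s \ T.ori (act g s) := by
    intro i
    obtain ⟨m, a1, a2⟩ := hA.transfer (hA.X (h ^ i) hs) (hA.mono_comm (hc.pow_left i) hs hm) hs
      ((hA.smul_mem_ori hs).2 h1) (by
        rw [← act_mul, ← (hc.pow_left i).eq, act_mul, hA.smul_mem_ori (hA.X _ hs)]; exact h2)
    refine ⟨m, (hA.mem_ori hs).1 a1, fun h' => a2 ?_⟩
    rw [zpow_add_one, act_mul]
    exact (hA.mem_ori (hA.X _ hs)).2 h'
  choose m hm' using this
  obtain ⟨i, j, hij, hE⟩ := Set.Finite.exists_lt_map_eq_of_forall_mem hm'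
    (sep_finite hs (hA.X g hs))
  refine ⟨j - i, m i - m j, by omega, ?_⟩
  apply MulAction.injective (h ^ i)
  simp only
  rw [inv_smul_eq_iff] at hE
  conv_rhs => rw [hE]
  simp only [← mul_smul]
  congr 1
  rw [← mul_assoc, ← pow_add, Nat.add_sub_cancel' hij.le, zpow_sub,
    ((hc.pow_left j).zpow_right (m i) |>.mul_right ((hc.pow_left j).zpow_right (m j)).inv_right).eq,
    mul_assoc]

end IsAct

end Pool.Agent.MP_8a4945_al.H85
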