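import Pool.Agent.MP_8a4945_al.H85.Contra

namespace Pool.Agent.MP_8a4945_al.H85

universe u

open scoped commutatorElement

abbrev F2 := FreeGroup Bool

lemma of_not_commute {β : Type} {a b : β} (h : a ≠ b) :
    ¬ Commute (FreeGroup.of a) (FreeGroup.of b) := by
  classical
  intro hc
  have := (hc.map (FreeGroup.lift fun x => if x = a then (Equiv.swap 0 1 : Equiv.Perm (Fin 3))
    else Equiv.swap 1 2)).eq
  simp only [FreeGroup.lift_apply_of, if_true, if_neg h.symm] at this
  exact absurd this (by decide)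

lemma fg_pow {y c : F2} (hc : c ≠ 1) (h : Commute y c) :
    ∃ m n : ℤ, m ≠ 0 ∧ y ^ m = c ^ n := by
  let H : Subgroup F2 := Subgroup.closure {y, c}
  have hcomm : ∀ a b : H, Commute a b := by
    have := Subgroup.isMulCommutative_closure (k := ({y, c} : Set F2)) (by
      rintro a (rfl | rfl) b (rfl | rfl)
      · rfl
      · exact h.eq
      · exact h.symm.eq
      · rfl)
    exact fun a b => this.is_comm.comm a b
  let e := IsFreeGroup.toFreeGroup H
  have hsub : Subsingleton (IsFreeGroup.Generators H) := ⟨fun a b => by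
    by_contra hab
    apply of_not_commute hab
    simpa using (hcomm (e.symm (FreeGroup.of a)) (e.symm (FreeGroup.of b))).map e⟩
  have hcyc : IsCyclic (FreeGroup (IsFreeGroup.Generators H)) := by
    rcases isEmpty_or_nonempty (IsFreeGroup.Generators H) with h | ⟨⟨a⟩⟩
    · infer_instance
    · let _ : Unique (IsFreeGroup.Generators H) := uniqueOfSubsingleton a
      infer_instance
  have hcyc' : IsCyclic H := isCyclic_of_surjective e.symm e.symm.surjective
  obtain ⟨z, hz⟩ := hcyc'.exists_zpow_surjective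
  obtain ⟨i, hi⟩ := hz ⟨y, Subgroup.subset_closure (by simp)⟩
  obtain ⟨j, hj⟩ := hz ⟨c, Subgroup.subset_closure (by simp)⟩
  have hi' : (z : F2) ^ i = y := by simpa using congrArg Subtype.val hi
  have hj' : (z : F2) ^ j = c := by simpa using congrArg Subtype.val hj
  refine ⟨j, i, ?_, ?_⟩
  · rintro rfl
    exact hc (by simpa using hj'.symm)
  · rw [← hi', ← hj', ← zpow_mul, ← zpow_mul, mul_comm]

lemma fg_trans {y y' c : F2} (hc : c ≠ 1) (h : Commute y c) (h' : Commute y' c) :
    Commute y' y := by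
  obtain ⟨m, n, hm, h1⟩ := fg_pow hc h
  have h2 : Commute y' (y ^ m) := h1 ▸ h'.zpow_right n
  have h3 : (y' * y * y'⁻¹) ^ m = y ^ m := by
    rw [conj_zpow, h2.eq, mul_inv_cancel_right]
  exact mul_inv_eq_iff_eq_mul.1 (zpow_left_injective hm h3)

lemma fg_center {z : F2} (h : ∀ j, Commute (FreeGroup.of j) z) : z = 1 := by
  by_contra hz
  exact of_not_commute (by decide) (fg_trans hz (h true) (h false))

/-- the commutator of the two generators -/
def c0 : F2 := ⁅(FreeGroup.of true : F2), FreeGroup.of false⁆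

lemma c0_ne : c0 ≠ 1 := fun h =>
  of_not_commute (a := true) (b := false) (by decide) (commutatorElement_eq_one_iff_commute.1 h)

theorem bad_of_embedding {H : Type u} [Group H] (π : H →* (ℤ → F2))
    (hπ : Function.Injective π) (hx : ∀ i : ℤ, ∃ x, π x = Pi.mulSingle i c0)
    (hy : ∀ (i i' : ℤ) (j : Bool), ∃ y,
      π y = Pi.mulSingle i (FreeGroup.of j) * (Pi.mulSingle i' (FreeGroup.of j))⁻¹)
    (hχ : ∀ (l : H) (i i0 : ℤ) (y : F2) (m n : ℤ), m ≠ 0 → y ^ m = c0 ^ n →
      π l ≠ Pi.mulSingle i (FreeGroup.of true) * Pi.mulSingle i0 y) :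
    ∃ x : Fin 3 → H, Bad H x := by
  choose x hx using hx
  choose y hy using hy
  have hc : ∀ h h' : H, Commute h h' ↔ ∀ k, Commute (π h k) (π h' k) := by
    intro h h'
    refine ⟨fun hh k => congrFun (hh.map π).eq k, fun hh => hπ ?_⟩
    rw [map_mul, map_mul]
    exact funext fun k => (hh k).eq
  have hxi : ∀ i, π (x i) i = c0 := fun i => by simp [hx]
  have hxk : ∀ i k, k ≠ i → π (x i) k = 1 := fun i k h => by simp [hx, h]
  have hyx : ∀ i k k' j, k ≠ i → k' ≠ i → Commute (y k k' j) (x i) := by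
    intro i k k' j h1 h2
    rw [hc]
    intro t
    by_cases ht : t = i
    · subst ht
      simp [hy, h1.symm, h2.symm]
    · simp [hxk i t ht]
  have hyk : ∀ k k' j, k ≠ k' → π (y k k' j) k = FreeGroup.of j := fun k k' j h => by
    simp [hy, h]
  have hsupp : ∀ i u, (∀ k, k ≠ i → π u k = 1) → Commute u (x i) →
      ∃ m n : ℤ, m ≠ 0 ∧ u ^ m = x i ^ n := by
    intro i u h1 h2
    obtain ⟨m, n, hm, h3⟩ := fg_pow c0_ne (hxi i ▸ (hc _ _).1 h2 i)
    refine ⟨m, n, hm, hπ (funext fun k => ?_)⟩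
    by_cases hk : k = i
    · subst hk
      simp [h3, hxi]
    · simp [h1 k hk, hxk i k hk]
  refine ⟨fun i => x (i : ℕ), ?_, ?_, ?_, ?_, ?_⟩
  · intro g n hn h
    refine hπ (funext fun k => ?_)
    have := congrFun (congrArg π h) k
    simp only [map_zpow, Pi.pow_apply, map_one, Pi.one_apply] at this ⊢
    exact zpow_left_injective hn (by simpa using this)
  · intro i j
    rw [hc]
    intro k
    by_cases hk : k = ((i : ℕ) : ℤ)
    · by_cases hk' : k = ((j : ℕ) : ℤ)
      · rw [← hk, ← hk']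
      · simp [hxk _ k hk']
    · simp [hxk _ k hk]
  · intro i j hij a b ha h
    have := congrFun (congrArg π h) ((j : ℕ) : ℤ)
    have hne : ((j : ℕ) : ℤ) ≠ ((i : ℕ) : ℤ) := fun h => hij (Fin.ext (by exact_mod_cast h.symm))
    simp only [map_mul, map_pow, map_zpow, Pi.mul_apply, Pi.pow_apply, hxi, hxk _ _ hne, one_zpow,
      mul_one, map_one, Pi.one_apply] at this
    exact c0_ne ((pow_eq_one_iff_left ha.ne').1 this)
  · intro i u hu
    refine hsupp _ u (fun k hk => fg_center fun j => ?_) (hu _ (Commute.refl _)).symm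
    rw [← hyk k (max k (i : ℕ) + 1) j (by omega)]
    exact (hc _ _).1 (hu _ (hyx _ _ _ _ hk (by omega))) k
  · intro i0 L R hLR hL hR hdec
    set i : ℤ := ((i0 : ℕ) : ℤ)
    by_contra! hcon
    obtain ⟨⟨l0, hl0, hl0'⟩, ⟨r0, hr0, hr0'⟩⟩ := hcon
    have hfac : ∀ h, Commute h (x i) → ∃ l ∈ L, ∃ r ∈ R, ∀ t, t ≠ i → π h t = π l t * π r t := by
      intro h hh
      obtain ⟨l, hl, r, hr, a, b, ha, h1⟩ := hdec h hh
      refine ⟨l, hl, r, hr, fun t ht => ?_⟩
      have := congrFun (congrArg π h1) t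
      simp only [map_mul, map_pow, map_zpow, map_inv, Pi.mul_apply, Pi.pow_apply, Pi.inv_apply,
        hxk _ _ ht, one_zpow] at this
      have h2 := (pow_eq_one_iff_left ha.ne').1 this
      rwa [mul_inv_eq_one, inv_mul_eq_iff_eq_mul] at h2
    have key : ∀ k, k ≠ i → ∀ l ∈ L, ∀ r ∈ R, π l k = 1 ∨ π r k = 1 := by
      intro k hk l hl r hr
      by_contra! hne
      refine hne.2 (fg_center fun j => ?_)
      obtain ⟨l', hl', r', hr', h1⟩ := hfac _ (hyx i k (max k i + 1) j hk (by omega))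
      rw [← hyk k (max k i + 1) j (by omega), h1 k hk]
      refine ((hc _ _).1 (hLR l' hl' r hr) k).mul_left ?_
      exact fg_trans hne.1 ((hc _ _).1 (hLR l hl r hr) k).symm
        ((hc _ _).1 (hLR l hl r' hr') k).symm
    obtain ⟨k, hk, hk'⟩ : ∃ k, k ≠ i ∧ π l0 k ≠ 1 := by
      by_contra! h
      obtain ⟨m, n, hm, h1⟩ := hsupp i l0 h (hL l0 hl0)
      exact hl0' m n hm h1
    obtain ⟨k', hk2, hk2'⟩ : ∃ k, k ≠ i ∧ π r0 k ≠ 1 := by
      by_contra! h
      obtain ⟨m, n, hm, h1⟩ := hsupp i r0 h (hR r0 hr0)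
      exact hr0' m n hm h1
    have hRk : ∀ r ∈ R, π r k = 1 := fun r hr => (key k hk l0 hl0 r hr).resolve_left hk'
    have hLk : ∀ l ∈ L, π l k' = 1 := fun l hl => (key k' hk2 l hl r0 hr0).resolve_right hk2'
    have hkk : k ≠ k' := fun h => hk2' (h ▸ hRk r0 hr0)
    obtain ⟨l, hl, r, hr, h1⟩ := hfac _ (hyx i k k' true hk hk2)
    obtain ⟨m, n, hm, h2⟩ := fg_pow c0_ne (hxi i ▸ (hc _ _).1 (hL l hl) i)
    refine hχ l k i _ m n hm h2 (funext fun t => ?_)
    by_cases ht : t = i
    · subst ht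
      simp [hk.symm]
    · by_cases ht1 : t = k
      · subst ht1
        have := h1 t ht
        rw [hyk _ _ _ hkk, hRk r hr, mul_one] at this
        simp [ht, this]
      · by_cases ht2 : t = k'
        · subst ht2
          simp [ht, ht1, hLk l hl]
        · have := h1 t ht
          simp only [hy, Pi.mul_apply, Pi.inv_apply, ne_eq, ht1, not_false_eq_true,
            Pi.mulSingle_eq_of_ne, ht2, inv_one, mul_one] at this
          rcases key t ht l hl r hr with h | h
          · simp [ht, ht1, h]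
          · rw [h, mul_one] at this
            simp [ht, ht1, ← this]

end Pool.Agent.MP_8a4945_al.H85
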