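import Pool.Agent.MP_8a4945_al.H85.Official

namespace Pool.Agent.MP_8a4945_al.H85

open CategoryTheory PreTree Tree2

universe u w

variable {B : Type u} {Q : Pres B}

lemma exists_lift {Γ : Type u} [Group Γ] (g : ∀ {x y : Word Q}, (x ⟶ y) → Γ)
    (hg : ∀ {x y y' z : Word Q} (e₁ : x ⟶ y) (e₂ : y ⟶ z) (f₁ : x ⟶ y') (f₂ : y' ⟶ z)
      (a b c : List B) (r s : Q.rel),
      e₁.val = (a, r, b ++ s.val.1 ++ c) → e₂.val = (a ++ r.val.2 ++ b, s, c) →
      f₁.val = (a ++ r.val.1 ++ b, s, c) → f₂.val = (a, r, b ++ s.val.2 ++ c) →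
      g e₁ * g e₂ = g f₁ * g f₂) :
    ∃ Φ : ∀ {x y : Word Q}, (vertex Q x ⟶ vertex Q y) → Γ,
      (∀ {x y z : Word Q} (f : vertex Q x ⟶ vertex Q y) (f' : vertex Q y ⟶ vertex Q z),
        Φ (f ≫ f') = Φ f * Φ f') ∧ ∀ {x y : Word Q} (e : x ⟶ y), Φ (posE e) = g e := by
  let φ : Word Q ⥤q SingleObj Γ := { obj := fun _ => SingleObj.star Γ, map := fun e => (g e)⁻¹ }
  let F0 := Quiver.FreeGroupoid.lift φ
  have h0 : ∀ {x y : Word Q} (e : x ⟶ y),
      (F0.map ((Quiver.FreeGroupoid.of (Word Q)).map e) : Γ) = (g e)⁻¹ := by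
    intro x y e
    exact congrArg (fun (F : Word Q ⥤q SingleObj Γ) => (F.map e : Γ))
      (Quiver.FreeGroupoid.lift_spec φ)
  let F := CategoryTheory.Quotient.lift (squareRel Q) F0 (by
    rintro _ _ _ _ ⟨e₁, e₂, f₁, f₂, a, b, c, r, s, h1, h2, h3, h4⟩
    rw [F0.map_comp, F0.map_comp, SingleObj.comp_as_mul, SingleObj.comp_as_mul, h0, h0, h0, h0,
      ← mul_inv_rev, ← mul_inv_rev, hg e₁ e₂ f₁ f₂ a b c r s h1 h2 h3 h4])
  refine ⟨fun f => (show Γ from F.map f)⁻¹, fun f f' => ?_, fun e => ?_⟩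
  · simp only
    rw [F.map_comp, SingleObj.comp_as_mul, mul_inv_rev]
  · simp only
    rw [inv_eq_iff_eq_inv]
    exact h0 e

/-- an encoding of the words of a presentation -/
structure Enc (Q : Pres B) (S : Type u) where
  Y : Sys S (Q.rel × Bool)
  inv_eq : ∀ c, Y.inv c = inv0 Q c
  enc : List B → List S
  dec : List S → List B
  dec_enc : ∀ W, dec (enc W) = W
  enc_app : ∀ a c b, enc (a ++ src0 Q c ++ b) = enc a ++ Y.src c ++ enc b
  enc_split : ∀ W a' c b', enc W = a' ++ Y.src c ++ b' →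
    ∃ a b, W = a ++ src0 Q c ++ b ∧ a' = enc a ∧ b' = enc b

lemma PV_act {E : Type u} {K : Type u} {G : Type u} [Group G] [MulAction G E] [MulAction G K]
    {T : Tree2 E K} (hA : IsAct T G) {Γ : Type w} [Group Γ] {μ : List E → K → List E → Γ}
    (hμ : ∀ (g : G) a κ b, μ (act g a) (g • κ) (act g b) = μ a κ b) (g : G) {s y : List E} {γ : Γ}
    (h : T.PV μ (fun _ => True) s y γ) : T.PV μ (fun _ => True) (act g s) (act g y) γ := by
  induction h with
  | refl => exact PV.refl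
  | @step a b κ γ _ _ ih =>
    simp only [act_append, ← hA.ins_smul, ← hA.outs_smul] at ih ⊢
    rw [← hμ g]
    exact PV.step ih trivial

namespace Enc

variable {S E K : Type u} (ε : Enc Q S) {T : Tree2 E K} (τ : Typed ε.Y T)

lemma enc_inj {W W' : List B} (h : ε.enc W = ε.enc W') : W = W' := by
  rw [← ε.dec_enc W, h, ε.dec_enc]

/-- a move lying over a given oriented edge -/
def Step (s : List E) (a : List B) (c : Q.rel × Bool) (b : List B) (s' : List E) : Prop :=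
  ∃ a' κ b', s = a' ++ T.ins κ ++ b' ∧ s' = a' ++ T.outs κ ++ b' ∧ a'.map τ.sp = ε.enc a ∧
    b'.map τ.sp = ε.enc b ∧ τ.ty κ = c

variable {ε τ}

lemma Step.ex {s : List E} {a : List B} {c : Q.rel × Bool} {b : List B}
    (h : s.map τ.sp = ε.enc (a ++ src0 Q c ++ b)) : ∃ s', ε.Step τ s a c b s' := by
  rw [ε.enc_app, List.map_eq_append_iff] at h
  obtain ⟨l, b', rfl, h1, h2⟩ := h
  rw [List.map_eq_append_iff] at h1
  obtain ⟨a', t, rfl, h3, h4⟩ := h1
  obtain ⟨κ, h5, rfl⟩ := τ.ex c t h4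
  exact ⟨_, a', κ, b', rfl, rfl, h3, h2, h5⟩

lemma Step.uniq {s s1 s2 : List E} {a : List B} {c : Q.rel × Bool} {b : List B}
    (h : ε.Step τ s a c b s1) (h' : ε.Step τ s a c b s2) : s1 = s2 := by
  obtain ⟨a1, κ, b1, rfl, rfl, h1, h2, h3⟩ := h
  obtain ⟨a2, ν, b2, h4, rfl, h5, h6, h7⟩ := h'
  have l1 : a1.length = a2.length := by simpa using congrArg List.length (h1.trans h5.symm)
  have l2 : b1.length = b2.length := by simpa using congrArg List.length (h2.trans h6.symm)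
  obtain ⟨h8, rfl⟩ := List.append_inj' h4 l2
  obtain ⟨rfl, h9⟩ := List.append_inj h8 l1
  rw [τ.ext _ _ (h3.trans h7.symm) h9]

lemma Step.sp_src {s s' : List E} {a : List B} {c : Q.rel × Bool} {b : List B}
    (h : ε.Step τ s a c b s') : s.map τ.sp = ε.enc (a ++ src0 Q c ++ b) := by
  obtain ⟨a1, κ, b1, rfl, rfl, h1, h2, h3⟩ := h
  simp [ε.enc_app, h1, h2, τ.sp_ins, h3, -List.append_assoc]

lemma Step.symm {s s' : List E} {a : List B} {c : Q.rel × Bool} {b : List B}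
    (h : ε.Step τ s a c b s') : ε.Step τ s' a (inv0 Q c) b s := by
  obtain ⟨a1, κ, b1, rfl, rfl, h1, h2, h3⟩ := h
  exact ⟨a1, T.flip κ, b1, rfl, by simp, h1, h2, by rw [τ.ty_flip, h3, ε.inv_eq]⟩

lemma Step.X {s s' : List E} {a : List B} {c : Q.rel × Bool} {b : List B}
    (h : ε.Step τ s a c b s') (hs : T.X s) : T.X s' := by
  obtain ⟨a1, κ, b1, rfl, rfl, -⟩ := h
  exact hs.step

lemma Step.act {s s' : List E} {a : List B} {c : Q.rel × Bool} {b : List B}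
    (h : ε.Step τ s a c b s') (g : τ.GG) : ε.Step τ (act g s) a c b (act g s') := by
  obtain ⟨a1, κ, b1, rfl, rfl, h1, h2, h3⟩ := h
  exact ⟨H85.act g a1, g • κ, H85.act g b1, by simp [τ.isAct.ins_smul],
    by simp [τ.isAct.outs_smul], by rw [Typed.sp_act, h1], by rw [Typed.sp_act, h2],
    by rw [Typed.ty_smul, h3]⟩

lemma Step.swap {s s1 s2 : List E} {a m b : List B} {c d : Q.rel × Bool}
    (h : ε.Step τ s a c (m ++ src0 Q d ++ b) s1)
    (h' : ε.Step τ s1 (a ++ src0 Q (inv0 Q c) ++ m) d b s2) :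
    ∃ s3, ε.Step τ s (a ++ src0 Q c ++ m) d b s3 ∧
      ε.Step τ s3 a c (m ++ src0 Q (inv0 Q d) ++ b) s2 := by
  obtain ⟨a1, κ, b1, rfl, rfl, h1, h2, h3⟩ := h
  rw [ε.enc_app, List.map_eq_append_iff] at h2
  obtain ⟨l, b', rfl, h4, h5⟩ := h2
  rw [List.map_eq_append_iff] at h4
  obtain ⟨m', t, rfl, h6, h7⟩ := h4
  obtain ⟨ν, h8, rfl⟩ := τ.ex d t h7
  have h9 : ε.Step τ (a1 ++ T.outs κ ++ (m' ++ T.ins ν ++ b')) (a ++ src0 Q (inv0 Q c) ++ m) d b
      (a1 ++ T.outs κ ++ m' ++ T.outs ν ++ b') :=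
    ⟨a1 ++ T.outs κ ++ m', ν, b', by simp, rfl,
      by simp [ε.enc_app, h1, h6, τ.sp_outs, h3, ε.inv_eq, -List.append_assoc], h5, h8⟩
  obtain rfl := h9.uniq h'
  refine ⟨a1 ++ T.ins κ ++ m' ++ T.outs ν ++ b', ⟨a1 ++ T.ins κ ++ m', ν, b', by simp, rfl,
    by simp [ε.enc_app, h1, h6, τ.sp_ins, h3, -List.append_assoc], h5, h8⟩,
    ⟨a1, κ, m' ++ T.outs ν ++ b', by simp, by simp, h1,
    by simp [ε.enc_app, h5, h6, τ.sp_outs, h8, ε.inv_eq, -List.append_assoc], h3⟩⟩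

lemma step_of_move {a' b' : List E} {κ : K} {W : List B}
    (h : (a' ++ T.ins κ ++ b').map τ.sp = ε.enc W) :
    ∃ a b, W = a ++ src0 Q (τ.ty κ) ++ b ∧
      ε.Step τ (a' ++ T.ins κ ++ b') a (τ.ty κ) b (a' ++ T.outs κ ++ b') := by
  simp only [List.map_append, τ.sp_ins] at h
  obtain ⟨a, b, h1, h2, h3⟩ := ε.enc_split _ _ _ _ h.symm
  exact ⟨a, b, h1, a', κ, b', rfl, rfl, h2, h3, rfl⟩

lemma spell {v : Word Q} (hb : T.base.map τ.sp = ε.enc v.val) {s : List E} (hs : T.X s) :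
    ∃ W : Word Q, s.map τ.sp = ε.enc W.val := by
  induction hs with
  | refl => exact ⟨v, hb⟩
  | tail _ h ih =>
    obtain ⟨a', κ, b', rfl, rfl⟩ := h
    obtain ⟨W, hW⟩ := ih
    obtain ⟨a, b, -, h2⟩ := step_of_move hW
    exact ⟨⟨_, by simp [src0_ne]⟩, h2.symm.sp_src⟩

variable (ε τ)

/-- the cocycle with values in the diagram group -/
noncomputable def mu (v : Word Q) (a : List E) (κ : K) (b : List E) : DiagramGroup Q v :=
  nu v (ε.dec (a.map τ.sp)) (τ.ty κ) (ε.dec (b.map τ.sp))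

variable {ε τ}

lemma mu_cocycle {v : Word Q} (hb : T.base.map τ.sp = ε.enc v.val) : T.Cocycle (ε.mu τ v) := by
  constructor
  · intro a κ b _
    rw [mu, mu, τ.ty_flip, ε.inv_eq, nu_cancel]
  · intro a κ m ν b hX
    obtain ⟨W, hW⟩ := spell hb hX
    simp only [List.map_append, τ.sp_ins] at hW
    obtain ⟨a1, b0, -, h1, h2⟩ := ε.enc_split _ _ _ _ hW.symm
    obtain ⟨a0, m0, -, h3, h4⟩ := ε.enc_split _ _ _ _ h1.symm
    simp only [mu, List.map_append, τ.sp_ins, τ.sp_outs, h2, h3, h4, ← ε.enc_app, ε.dec_enc,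
      ε.inv_eq]
    exact nu_swap v _ _ _ _ _

lemma Step.pv (v : Word Q) {s s' : List E} {a : List B} {c : Q.rel × Bool} {b : List B}
    (h : ε.Step τ s a c b s') : T.PV (ε.mu τ v) (fun _ => True) s s' (nu v a c b) := by
  obtain ⟨a1, κ, b1, rfl, rfl, h1, h2, h3⟩ := h
  have := PV.step (T := T.toPreTree) (μ := ε.mu τ v) (ok := fun _ => True) (a := a1) (b := b1)
    (κ := κ) PV.refl trivial
  rwa [one_mul, mu, h1, h2, h3, ε.dec_enc, ε.dec_enc] at this

theorem bridge {v : Word Q} (hb : T.base.map τ.sp = ε.enc v.val) :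
    Nonempty (DiagramGroup Q v ≃* τ.GG) := by
  classical
  have hA := τ.isAct
  let Lab : Word Q → Prop := fun W => ∃ s, T.X s ∧ s.map τ.sp = ε.enc W.val
  have hσ : ∀ W, ∃ s, Lab W → T.X s ∧ s.map τ.sp = ε.enc W.val := by
    intro W
    by_cases h : Lab W
    · obtain ⟨s, hs⟩ := h
      exact ⟨s, fun _ => hs⟩
    · exact ⟨[], fun h' => absurd h' h⟩
  choose σ hσ using hσ
  have hlab : ∀ {x y : Word Q} {a c b}, x.val = a ++ src0 Q c ++ b →
      y.val = a ++ src0 Q (inv0 Q c) ++ b → Lab x →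
      Lab y ∧ ∃ g : τ.GG, ε.Step τ (σ x) a c b (act g (σ y)) := by
    intro x y a c b hx hy hL
    obtain ⟨h1, h2⟩ := hσ x hL
    obtain ⟨s', h3⟩ := Step.ex (hx ▸ h2)
    have h4 : s'.map τ.sp = ε.enc y.val := hy ▸ h3.symm.sp_src
    have hLy : Lab y := ⟨s', h3.X h1, h4⟩
    obtain ⟨g, hg⟩ := Typed.closed (hσ y hLy).1 (h3.X h1) (h4.trans (hσ y hLy).2.symm)
    exact ⟨hLy, g, hg ▸ h3⟩
  have hg : ∀ (x y : Word Q) (e : x ⟶ y), ∃ g : τ.GG,
      (Lab x → ε.Step τ (σ x) e.1.1 (e.1.2.1, true) e.1.2.2 (act g (σ y))) ∧ (¬ Lab x → g = 1) := by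
    intro x y e
    by_cases h : Lab x
    · obtain ⟨-, g, hg⟩ := hlab (c := (e.1.2.1, true)) e.2.1 e.2.2 h
      exact ⟨g, fun _ => hg, fun h' => absurd h h'⟩
    · exact ⟨1, fun h' => absurd h' h, fun _ => rfl⟩
  choose gE hgE hgE' using hg
  have hfw : ∀ {x y : Word Q} (_ : x ⟶ y), Lab x → Lab y := fun e h =>
    (hlab (c := (e.1.2.1, true)) e.2.1 e.2.2 h).1
  have hbw : ∀ {x y : Word Q} (_ : x ⟶ y), Lab y → Lab x := fun e h =>
    (hlab (c := (e.1.2.1, false)) e.2.2 e.2.1 h).1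
  obtain ⟨Φ, hΦ1, hΦ2⟩ := exists_lift (Q := Q) (fun {x y} e => gE x y e) (by
    intro x y y' z e₁ e₂ f₁ f₂ a b c r s h1 h2 h3 h4
    by_cases h : Lab x
    · have a1 := hgE _ _ e₁ h
      have a2 := (hgE _ _ e₂ (hfw e₁ h)).act (gE _ _ e₁)
      have a3 := hgE _ _ f₁ h
      have a4 := (hgE _ _ f₂ (hfw f₁ h)).act (gE _ _ f₁)
      rw [h1] at a1
      rw [h2] at a2
      rw [h3] at a3
      rw [h4] at a4
      obtain ⟨s3, b1, b2⟩ := Step.swap (c := (r, true)) (d := (s, true)) a1 a2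
      obtain rfl := b1.uniq a3
      have := b2.uniq a4
      rw [← act_mul, ← act_mul] at this
      exact hA.eq_of_act (hσ z (hfw e₂ (hfw e₁ h))).1 this
    · rw [hgE' _ _ e₁ h, hgE' _ _ f₁ h, hgE' _ _ e₂ fun h' => h (hbw e₁ h'),
        hgE' _ _ f₂ fun h' => h (hbw f₁ h')])
  have hΦid : ∀ x : Word Q, Φ (𝟙 (vertex Q x)) = 1 := fun x => by
    have := hΦ1 (𝟙 (vertex Q x)) (𝟙 (vertex Q x))
    rw [Category.id_comp] at this
    simpa using this
  have hed : ∀ (x y : Word Q) a c b hx hy, Lab x →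
      ε.Step τ (σ x) a c b (act (Φ (ed x y a c b hx hy)) (σ y)) := by
    rintro x y a ⟨r, _ | _⟩ b hx hy hL
    · let e : y ⟶ x := ⟨(a, r, b), hy, hx⟩
      have h1 : Φ (ed x y a (r, false) b hx hy) = (gE _ _ e)⁻¹ := by
        rw [← hΦ2 e]
        apply eq_inv_of_mul_eq_one_left
        rw [← hΦ1, ← hΦid x]
        congr 1
        exact IsIso.inv_hom_id _
      have h2 := (hgE _ _ e (hbw e hL)).symm.act (gE _ _ e)⁻¹
      rw [act_inv_act] at h2
      rw [h1]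
      exact h2
    · let e : x ⟶ y := ⟨(a, r, b), hx, hy⟩
      have h1 : Φ (ed x y a (r, true) b hx hy) = gE _ _ e := hΦ2 e
      rw [h1]
      exact hgE _ _ e hL
  have hLv : Lab v := ⟨T.base, X_base, hb⟩
  have hinvμ : ∀ (g : τ.GG) a κ b, ε.mu τ v (act g a) (g • κ) (act g b) = ε.mu τ v a κ b := by
    intro g a κ b
    rw [mu, mu, Typed.sp_act, Typed.sp_act, Typed.ty_smul]
  have hL : ∀ y (f : vertex Q v ⟶ vertex Q y),
      Lab y ∧ T.PV (ε.mu τ v) (fun _ => True) (σ v) (act (Φ f) (σ y)) (val v f) := by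
    refine hom_induction (fun x y f => Lab y ∧
      T.PV (ε.mu τ v) (fun _ => True) (σ x) (act (Φ f) (σ y)) (val v f)) v ?_ ?_
    · refine ⟨hLv, ?_⟩
      rw [hΦid, val_id, act_one]
      exact PV.refl
    · rintro y z f a c b hy hz ⟨h1, h2⟩
      refine ⟨(hlab hy hz h1).1, ?_⟩
      rw [hΦ1, val_comp, val_ed, act_mul]
      exact h2.trans (PV_act hA hinvμ _ ((hed y z a c b hy hz h1).pv v))
  let Ψ : DiagramGroup Q v →* τ.GG := MonoidHom.mk' (fun f => Φ f.inv) fun f g => by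
    rw [← hΦ1]; rfl
  refine ⟨MulEquiv.ofBijective Ψ ⟨(injective_iff_map_eq_one _).2 fun f hf => ?_, fun g => ?_⟩⟩
  · have h1 := (hL v f.inv).2
    have h2 : Φ f.inv = 1 := hf
    rw [h2, act_one] at h1
    have h3 := eq_id_of_val v (simply_connected (mu_cocycle hb) (hσ v hLv).1 h1)
    apply Iso.ext
    have := f.hom_inv_id
    rw [h3, Category.comp_id] at this
    exact this
  · have key : ∀ s', T.Reach (σ v) s' →
        ∃ (y : Word Q) (f : vertex Q v ⟶ vertex Q y), s' = act (Φ f) (σ y) := by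
      intro s' h
      induction h with
      | refl => exact ⟨v, 𝟙 _, by rw [hΦid, act_one]⟩
      | tail _ h ih =>
        obtain ⟨a', κ, b', rfl, rfl⟩ := h
        obtain ⟨y, f, h1⟩ := ih
        have hLy := (hL y f).1
        obtain ⟨a, b, h2, h3⟩ := step_of_move (ε := ε) (τ := τ) (a' := a') (b' := b') (κ := κ)
          (W := y.val) (by rw [h1, Typed.sp_act, (hσ y hLy).2])
        let z : Word Q := ⟨a ++ src0 Q (inv0 Q (τ.ty κ)) ++ b, by simp [src0_ne]⟩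
        refine ⟨z, f ≫ ed y z a _ b h2 rfl, ?_⟩
        rw [hΦ1, act_mul]
        refine h3.uniq ?_
        rw [h1]
        exact (hed y z a _ b h2 rfl hLy).act _
    obtain ⟨y, f, h1⟩ := key _ ((hσ v hLv).1.to (hA.X g (hσ v hLv).1))
    have h2 := congrArg (List.map τ.sp) h1
    rw [Typed.sp_act, Typed.sp_act, (hσ v hLv).2, (hσ y (hL y f).1).2] at h2
    obtain rfl : v = y := by
      cases v; cases y
      simpa using ε.enc_inj h2
    exact ⟨(asIso f).symm, (hA.eq_of_act (hσ v hLv).1 h1).symm⟩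

end Enc

end Pool.Agent.MP_8a4945_al.H85
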