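import Pool.Agent.MP_8a4945_al.H85.Sep

namespace Pool.Agent.MP_8a4945_al.H85

universe u v w

open PreTree Tree2

variable {E : Type u} {K : Type v} {G : Type w} [Group G] [MulAction G E]

/-- elements acting only to the left of `p` -/
def Lgp (T : Tree2 E K) (G : Type w) [Group G] [MulAction G E] (p : E) : Subgroup G where
  carrier := {g | g • p = p ∧ ∀ e, T.Lt p e → g • e = e}
  one_mem' := by simp
  mul_mem' := fun {a b} ha hb =>
    ⟨by rw [mul_smul, hb.1, ha.1], fun e he => by rw [mul_smul, hb.2 e he, ha.2 e he]⟩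
  inv_mem' := fun {a} ha =>
    ⟨by rw [inv_smul_eq_iff, ha.1], fun e he => by rw [inv_smul_eq_iff, ha.2 e he]⟩

/-- elements acting only to the right of `p` -/
def Rgp (T : Tree2 E K) (G : Type w) [Group G] [MulAction G E] (p : E) : Subgroup G where
  carrier := {g | g • p = p ∧ ∀ e, T.Lt e p → g • e = e}
  one_mem' := by simp
  mul_mem' := fun {a b} ha hb =>
    ⟨by rw [mul_smul, hb.1, ha.1], fun e he => by rw [mul_smul, hb.2 e he, ha.2 e he]⟩
  inv_mem' := fun {a} ha =>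
    ⟨by rw [inv_smul_eq_iff, ha.1], fun e he => by rw [inv_smul_eq_iff, ha.2 e he]⟩

variable {T : Tree2 E K}

lemma Lgp_mono {p q : E} (h : q = p ∨ T.Lt q p) : Lgp T G q ≤ Lgp T G p := by
  rcases h with rfl | h
  · exact le_rfl
  · exact fun g hg => ⟨hg.2 p h, fun e he => hg.2 e (h.trans he)⟩

lemma Rgp_mono {p q : E} (h : p = q ∨ T.Lt p q) : Rgp T G q ≤ Rgp T G p := by
  rcases h with rfl | h
  · exact le_rfl
  · exact fun g hg => ⟨hg.2 p h, fun e he => hg.2 e (he.trans h)⟩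

/-- `p` occurs in some word -/
def Occ (T : Tree2 E K) (p : E) : Prop := ∃ a b, T.X (a ++ p :: b)

lemma occ_left {p q : E} (h : T.Lt p q) : Occ T p := by
  obtain ⟨a, b, h, -⟩ := h
  exact ⟨a, b, h⟩

lemma occ_right {p q : E} (h : T.Lt p q) : Occ T q := by
  obtain ⟨a, b, h, -⟩ := h.left
  exact ⟨a, b, h⟩

lemma le_antisymm_lt {p q : E} (h : p = q ∨ T.Lt p q) (h' : q = p ∨ T.Lt q p) : p = q := by
  rcases h with h | h
  · exact h
  · rcases h' with h' | h'
    · exact h'.symm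
    · exact (h.asymm h').elim

/-- algebraic properties that no diagram group has -/
structure Bad (G : Type w) [Group G] (x : Fin 3 → G) : Prop where
  tf : ∀ (g : G) (n : ℤ), n ≠ 0 → g ^ n = 1 → g = 1
  comm : ∀ i j, Commute (x i) (x j)
  indep : ∀ i j, i ≠ j → ∀ (a : ℕ) (b : ℤ), 0 < a → x j ^ a * x i ^ b ≠ 1
  center : ∀ i u, (∀ h, Commute h (x i) → Commute h u) → ∃ m n : ℤ, m ≠ 0 ∧ u ^ m = x i ^ n
  indec : ∀ i (L R : Subgroup G), (∀ l ∈ L, ∀ r ∈ R, Commute l r) → (∀ l ∈ L, Commute l (x i)) →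
    (∀ r ∈ R, Commute r (x i)) →
    (∀ h, Commute h (x i) → ∃ l ∈ L, ∃ r ∈ R, ∃ (a : ℕ) (b : ℤ), 0 < a ∧
      (l⁻¹ * h * r⁻¹) ^ a = x i ^ b) →
    (∀ l ∈ L, ∃ m n : ℤ, m ≠ 0 ∧ l ^ m = x i ^ n) ∨ (∀ r ∈ R, ∃ m n : ℤ, m ≠ 0 ∧ r ^ m = x i ^ n)

variable [MulAction G K]

namespace IsAct

variable (hA : IsAct T G)
include hA

lemma decomp {p : E} (hp : Occ T p) {g : G} (hg : g • p = p) :
    ∃ l ∈ Lgp T G p, ∃ r ∈ Rgp T G p, g = l * r := by
  obtain ⟨a, b, hX⟩ := hp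
  obtain ⟨l, hl⟩ := hA.closed g a p b hX hg
  rw [act_append, act_cons] at hl
  obtain ⟨h1, h2⟩ := List.append_inj hl (by simp)
  obtain ⟨h2, h3⟩ := List.cons.inj h2
  refine ⟨l, ⟨h2, ?_⟩, l⁻¹ * g, ⟨by rw [mul_smul, hg, inv_smul_eq_iff, h2], ?_⟩, by simp⟩
  · rintro e ⟨a', b', h4, h5⟩
    exact hA.fix_reach (conv hX h4).2 (act_eq_self.1 h3) e h5
  · intro e he
    obtain ⟨a', b', h4, h5⟩ := he.left
    refine hA.fix_reach (conv hX h4).1 (act_eq_self.1 ?_) e h5
    rw [act_mul, ← h1, act_inv_act]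

lemma indepLR {p : E} (hp : Occ T p) {g : G} (h1 : g ∈ Lgp T G p) (h2 : g ∈ Rgp T G p) :
    g = 1 := by
  obtain ⟨a, b, hX⟩ := hp
  refine hA.free' hX fun e he => ?_
  simp only [List.mem_append, List.mem_cons] at he
  rcases he with he | rfl | he
  · exact h2.2 e (lt_of_left hX he)
  · exact h1.1
  · exact h1.2 e (lt_of_right hX he)

lemma commLR {p : E} (hp : Occ T p) {l r : G} (h1 : l ∈ Lgp T G p) (h2 : r ∈ Rgp T G p) :
    Commute l r := by
  obtain ⟨a, b, hX⟩ := hp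
  refine hA.eq_of_act hX (List.map_congr_left fun e he => ?_)
  simp only [List.mem_append, List.mem_cons] at he
  simp only [mul_smul]
  rcases he with he | rfl | he
  · have h3 := lt_of_left hX he
    rw [h2.2 e h3, h2.2 (l • e) (by simpa [h1.1] using hA.lt_smul l h3)]
  · rw [h2.1, h1.1, h2.1]
  · have h3 := lt_of_right hX he
    rw [h1.2 e h3, h1.2 (r • e) (by simpa [h2.1] using hA.lt_smul r h3)]

lemma central_parts {p : E} (hp : Occ T p) {l r : G} (h1 : l ∈ Lgp T G p) (h2 : r ∈ Rgp T G p)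
    {h : G} (hc : Commute h (l * r)) (hh : h • p = p) : Commute h l ∧ Commute h r := by
  obtain ⟨l', a1, r', a2, rfl⟩ := hA.decomp hp hh
  have c1 := hA.commLR hp h1 a2
  have c2 := hA.commLR hp a1 h2
  have e1 : (l' * l) * (r' * r) = (l * l') * (r * r') := by
    have := hc.eq
    calc (l' * l) * (r' * r) = l' * (l * r') * r := by group
      _ = l' * r' * (l * r) := by rw [c1.eq]; group
      _ = l * (r * l') * r' := by rw [this]; group
      _ = _ := by rw [← c2.eq]; group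
  have e2 : (l * l')⁻¹ * (l' * l) = (r * r') * (r' * r)⁻¹ := by
    rw [inv_mul_eq_iff_eq_mul, ← mul_assoc, eq_mul_inv_iff_mul_eq, e1]
  have e3 : (l * l')⁻¹ * (l' * l) = 1 := hA.indepLR hp
    (mul_mem (inv_mem (mul_mem h1 a1)) (mul_mem a1 h1))
    (e2 ▸ mul_mem (mul_mem h2 a2) (inv_mem (mul_mem a2 h2)))
  have e4 : Commute l' l := (inv_mul_eq_one.1 e3).symm
  have e5 : Commute r' r := (mul_inv_eq_one.1 (e2 ▸ e3)).symm
  exact ⟨e4.mul_left c1.symm, c2.mul_left e5⟩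

lemma mid_eq_one {p q : E} (hpq : T.Lt p q) {g : G} (h1 : g ∈ Rgp T G p) (h2 : g ∈ Lgp T G q)
    (h3 : ∀ e, T.Lt p e → T.Lt e q → g • e = e) : g = 1 := by
  obtain ⟨a, b, hX, hq⟩ := hpq
  obtain ⟨t, b, rfl⟩ := List.append_of_mem hq
  have hX2 : T.X ((a ++ p :: t) ++ q :: b) := by simpa using hX
  refine hA.free' hX fun e he => ?_
  simp only [List.mem_append, List.mem_cons] at he
  rcases he with he | rfl | he | rfl | he
  · exact h1.2 e (lt_of_left hX he)
  · exact h1.1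
  · exact h3 e (lt_of_right hX (by simp [he])) (lt_of_left hX2 (by simp [he]))
  · exact h2.1
  · exact h2.2 e (lt_of_right hX2 he)

variable {x : Fin 3 → G} (hB : Bad G x)
include hB

lemma comp_mem {i : Fin 3} {p q : E} (hC : Comp T (x i) p q) :
    x i ∈ Rgp T G p ∧ x i ∈ Lgp T G q := by
  obtain ⟨e, he1, he2, he3⟩ := hC.moves
  have hfix := hC.fix _ (Commute.refl _)
  constructor
  · have hp := occ_left hC.lt
    obtain ⟨l, h1, r, h2, hx⟩ := hA.decomp hp hfix.1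
    obtain ⟨m, n, hm, h3⟩ := hB.center i l fun h hc =>
      (hA.central_parts hp h1 h2 (hx ▸ hc) (hC.fix h hc).1).1
    rw [hx, (hA.commLR hp h1 h2).mul_zpow] at h3
    have h4 : r ^ n = 1 := hA.indepLR hp
      (by rw [← inv_mul_eq_iff_eq_mul.2 h3]
          exact mul_mem (inv_mem (zpow_mem h1 _)) (zpow_mem h1 _)) (zpow_mem h2 _)
    have h5 : n = 0 := by
      by_contra hn
      rw [hB.tf r n hn h4, mul_one] at hx
      exact he3 (hx ▸ h1.2 e he1)
    rw [h5, zpow_zero, zpow_zero, mul_one] at h3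
    rw [hB.tf l m hm h3, one_mul] at hx
    exact hx ▸ h2
  · have hp := occ_right hC.lt
    obtain ⟨l, h1, r, h2, hx⟩ := hA.decomp hp hfix.2
    obtain ⟨m, n, hm, h3⟩ := hB.center i r fun h hc =>
      (hA.central_parts hp h1 h2 (hx ▸ hc) (hC.fix h hc).2).2
    rw [hx, (hA.commLR hp h1 h2).mul_zpow] at h3
    have h4 : l ^ n = 1 := hA.indepLR hp (zpow_mem h1 _)
      (by rw [← mul_inv_eq_iff_eq_mul.2 h3]
          exact mul_mem (zpow_mem h2 _) (inv_mem (zpow_mem h2 _)))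
    have h5 : n = 0 := by
      by_contra hn
      rw [hB.tf l n hn h4, one_mul] at hx
      exact he3 (hx ▸ h2.2 e he2)
    rw [h5, zpow_zero, zpow_zero, mul_one] at h3
    rw [hB.tf r m hm h3, mul_one] at hx
    exact hx ▸ h1

lemma comp_side {i : Fin 3} {p q : E} (hC : Comp T (x i) p q) :
    (∀ l ∈ Lgp T G p, l = 1) ∨ (∀ r ∈ Rgp T G q, r = 1) := by
  obtain ⟨hxR, hxL⟩ := hA.comp_mem hB hC
  have hp := occ_left hC.lt
  have hq := occ_right hC.lt
  have hL : Lgp T G p ≤ Lgp T G q := Lgp_mono (Or.inr hC.lt)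
  have hR : Rgp T G q ≤ Rgp T G p := Rgp_mono (Or.inr hC.lt)
  have key : ∀ h, Commute h (x i) → ∃ l ∈ Lgp T G p, ∃ r ∈ Rgp T G q, ∃ (a : ℕ) (b : ℤ), 0 < a ∧
      (l⁻¹ * h * r⁻¹) ^ a = x i ^ b := by
    intro h hc
    obtain ⟨l, h1, h', h2, rfl⟩ := hA.decomp hp (hC.fix h hc).1
    have h3 : h' • q = q := by
      have := (hC.fix _ hc).2
      rw [mul_smul, ← eq_inv_smul_iff] at this
      rw [this]
      exact (inv_mem h1 : l⁻¹ ∈ Lgp T G p).2 q hC.lt
    obtain ⟨m, h4, r, h5, rfl⟩ := hA.decomp hq h3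
    have h6 : m ∈ Rgp T G p := by
      have := mul_mem h2 (inv_mem (hR h5))
      simpa using this
    have h7 : Commute m (x i) := by
      have := ((hA.commLR hp h1 hxR).inv_left.mul_left hc).mul_left
        (hA.commLR hq hxL h5).symm.inv_left
      simpa [mul_assoc] using this
    obtain ⟨a, b, ha, h8⟩ := hC.small m h7
    have h9 := hA.mid_eq_one hC.lt (mul_mem (pow_mem h6 a) (zpow_mem hxR b))
      (mul_mem (pow_mem h4 a) (zpow_mem hxL b)) h8
    refine ⟨l, h1, r, h5, a, -b, ha, ?_⟩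
    rw [zpow_neg, ← eq_inv_of_mul_eq_one_left h9]
    simp [mul_assoc]
  rcases hB.indec i (Lgp T G p) (Rgp T G q) (fun l hl r hr => hA.commLR hq (hL hl) hr)
    (fun l hl => hA.commLR hp hl hxR) (fun r hr => (hA.commLR hq hxL hr).symm) key with h | h
  · refine Or.inl fun l hl => ?_
    obtain ⟨m, n, hm, h1⟩ := h l hl
    exact hB.tf l m hm (hA.indepLR hp (zpow_mem hl _) (h1 ▸ zpow_mem hxR _))
  · refine Or.inr fun r hr => ?_
    obtain ⟨m, n, hm, h1⟩ := h r hr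
    exact hB.tf r m hm (hA.indepLR hq (h1 ▸ zpow_mem hxL _) (zpow_mem hr _))

lemma same_comp {i j : Fin 3} (hij : i ≠ j) {p q : E} (hi : Comp T (x i) p q)
    (hj : Comp T (x j) p q) : False := by
  obtain ⟨a, b, ha, h⟩ := hi.small _ (hB.comm j i)
  obtain ⟨h1, h2⟩ := hA.comp_mem hB hi
  obtain ⟨h3, h4⟩ := hA.comp_mem hB hj
  exact hB.indep i j hij a b ha (hA.mid_eq_one hi.lt (mul_mem (pow_mem h3 a) (zpow_mem h1 b))
    (mul_mem (pow_mem h4 a) (zpow_mem h2 b)) h)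

omit [MulAction G K] hA hB in
lemma comp_out {i j : Fin 3} {p q p' q' : E} (hi : Comp T (x i) p q)
    (hj : Comp T (x j) p' q') (hc : Commute (x i) (x j)) :
    ((p' = p ∨ T.Lt p' p) ∨ (p' = q ∨ T.Lt q p')) ∧
      ((q' = p ∨ T.Lt q' p) ∨ (q' = q ∨ T.Lt q q')) := by
  obtain ⟨a, b, h1, h2⟩ := hj.lt
  exact ⟨hi.out p' _ h1 (by simp) (hj.fix _ hc).1, hi.out q' _ h1 (by simp [h2]) (hj.fix _ hc).2⟩

lemma two_left {i j : Fin 3} (hij : i ≠ j) {p q p' q' : E} (hi : Comp T (x i) p q)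
    (hj : Comp T (x j) p' q') (h1 : ∀ l ∈ Lgp T G p, l = 1) (h2 : ∀ l ∈ Lgp T G p', l = 1) :
    False := by
  obtain ⟨a1, a2⟩ := comp_out hi hj (hB.comm i j)
  obtain ⟨b1, b2⟩ := comp_out hj hi (hB.comm j i)
  have ni : x i ≠ 1 := by simpa using hB.indep j i hij.symm 1 0 one_pos
  have nj : x j ≠ 1 := by simpa using hB.indep i j hij 1 0 one_pos
  have c1 := a1.resolve_right fun h =>
    ni (h2 _ (Lgp_mono (h.imp_left Eq.symm) (hA.comp_mem hB hi).2))
  have c2 := b1.resolve_right fun h =>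
    nj (h1 _ (Lgp_mono (h.imp_left Eq.symm) (hA.comp_mem hB hj).2))
  obtain rfl := le_antisymm_lt c1 c2
  have d1 := a2.resolve_left fun h => h.elim (fun h => (h ▸ hj.lt).irrefl) hj.lt.asymm
  have d2 := b2.resolve_left fun h => h.elim (fun h => (h ▸ hi.lt).irrefl) hi.lt.asymm
  obtain rfl := le_antisymm_lt (d1.imp_left Eq.symm) (d2.imp_left Eq.symm)
  exact hA.same_comp hB hij hi hj

lemma two_right {i j : Fin 3} (hij : i ≠ j) {p q p' q' : E} (hi : Comp T (x i) p q)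
    (hj : Comp T (x j) p' q') (h1 : ∀ l ∈ Rgp T G q, l = 1) (h2 : ∀ l ∈ Rgp T G q', l = 1) :
    False := by
  obtain ⟨a1, a2⟩ := comp_out hi hj (hB.comm i j)
  obtain ⟨b1, b2⟩ := comp_out hj hi (hB.comm j i)
  have ni : x i ≠ 1 := by simpa using hB.indep j i hij.symm 1 0 one_pos
  have nj : x j ≠ 1 := by simpa using hB.indep i j hij 1 0 one_pos
  have c1 := a2.resolve_left fun h => ni (h2 _ (Rgp_mono h (hA.comp_mem hB hi).1))
  have c2 := b2.resolve_left fun h => nj (h1 _ (Rgp_mono h (hA.comp_mem hB hj).1))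
  obtain rfl := le_antisymm_lt (c1.imp_left Eq.symm) (c2.imp_left Eq.symm)
  have d1 := a1.resolve_right fun h => h.elim (fun h => (h ▸ hj.lt).irrefl) hj.lt.asymm
  have d2 := b1.resolve_right fun h => h.elim (fun h => (h ▸ hi.lt).irrefl) hi.lt.asymm
  obtain rfl := le_antisymm_lt d1 d2
  exact hA.same_comp hB hij hi hj

theorem not_bad {sep : E → Prop} (hS : IsSep T sep) : False := by
  have hne : ∀ i, x i ≠ 1 := by
    intro i
    obtain ⟨j, hj⟩ := exists_ne i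
    simpa using hB.indep j i hj 1 0 one_pos
  choose p q hC using fun i => hA.exists_comp hS (hne i)
  rcases hA.comp_side hB (hC 0) with h0 | h0 <;> rcases hA.comp_side hB (hC 1) with h1 | h1 <;>
    rcases hA.comp_side hB (hC 2) with h2 | h2
  · exact hA.two_left hB (by decide) (hC 0) (hC 1) h0 h1
  · exact hA.two_left hB (by decide) (hC 0) (hC 1) h0 h1
  · exact hA.two_left hB (by decide) (hC 0) (hC 2) h0 h2
  · exact hA.two_right hB (by decide) (hC 1) (hC 2) h1 h2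
  · exact hA.two_left hB (by decide) (hC 1) (hC 2) h1 h2
  · exact hA.two_right hB (by decide) (hC 0) (hC 2) h0 h2
  · exact hA.two_right hB (by decide) (hC 0) (hC 1) h0 h1
  · exact hA.two_right hB (by decide) (hC 0) (hC 1) h0 h1

end IsAct

end Pool.Agent.MP_8a4945_al.H85
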