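import Mathlib

namespace Pool.Agent.MP_8a4945_al.H85

open CategoryTheory

universe u

/-- A semigroup presentation over the alphabet `A`: a set of relations `u = v`, recorded as pairs
`(u, v)` of nonempty words. -/
structure Pres (A : Type u) : Type u where
  rel : Set (List A × List A)
  ne_nil : ∀ r ∈ rel, r.1 ≠ [] ∧ r.2 ≠ []

/-- The vertices of the Squier complex of `P`: nonempty words. -/
structure Word {A : Type u} (P : Pres A) : Type u where
  val : List A
  ne_nil : val ≠ []

/-- The edges of the Squier complex: a triple `(a, u = v, b)` is an edge from `a u b` to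
`a v b`. -/
instance squierQuiver {A : Type u} (P : Pres A) : Quiver (Word P) where
  Hom x y := {e : List A × P.rel × List A //
    x.val = e.1 ++ e.2.1.val.1 ++ e.2.2 ∧ y.val = e.1 ++ e.2.1.val.2 ++ e.2.2}

/-- The squares of the Squier complex: for words `a, b, c` and relations `r : u = v`,
`s : u' = v'`, the two edge paths `a u b u' c → a v b u' c → a v b v' c` and
`a u b u' c → a u b v' c → a v b v' c` are related. -/
inductive Square {A : Type u} (P : Pres A) :
    ∀ ⦃X Y : Quiver.FreeGroupoid (Word P)⦄, (X ⟶ Y) → (X ⟶ Y) → Prop
  | mk {x y y' z : Word P} (e₁ : x ⟶ y) (e₂ : y ⟶ z) (f₁ : x ⟶ y') (f₂ : y' ⟶ z)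
      (a b c : List A) (r s : P.rel)
      (h₁ : e₁.val = (a, r, b ++ s.val.1 ++ c)) (h₂ : e₂.val = (a ++ r.val.2 ++ b, s, c))
      (h₃ : f₁.val = (a ++ r.val.1 ++ b, s, c)) (h₄ : f₂.val = (a, r, b ++ s.val.2 ++ c)) :
      Square P
        ((Quiver.FreeGroupoid.of (Word P)).map e₁ ≫ (Quiver.FreeGroupoid.of (Word P)).map e₂)
        ((Quiver.FreeGroupoid.of (Word P)).map f₁ ≫ (Quiver.FreeGroupoid.of (Word P)).map f₂)

/-- The squares, as a relation on the morphisms of the free groupoid on the edges. -/
def squareRel {A : Type u} (P : Pres A) : HomRel (Quiver.FreeGroupoid (Word P)) := Square P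

/-- The vertex `w` as an object of the edge-path (fundamental) groupoid of the Squier complex,
that is, of the free groupoid on its edges modulo its squares. -/
def vertex {A : Type u} (P : Pres A) (w : Word P) : CategoryTheory.Quotient (squareRel P) :=
  (CategoryTheory.Quotient.functor (squareRel P)).obj ((Quiver.FreeGroupoid.of (Word P)).obj w)

/-- The diagram group `D(P, w)`: the fundamental group of the Squier complex at `w`, that is, the
automorphism group of the vertex `w` in the edge-path groupoid. -/
abbrev DiagramGroup {A : Type u} (P : Pres A) (w : Word P) : Type u := Aut (vertex P w)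

end Pool.Agent.MP_8a4945_al.H85
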