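import Pool.Agent.MP_8a4945_al.H85.Alg

namespace Pool.Agent.MP_8a4945_al.H85

universe u

open scoped commutatorElement

/-- the unrestricted wreath product of the free group with the integers, times the integers -/
@[ext]
structure Wr where
  f : ℤ → F2
  n : ℤ
  k : ℤ

namespace Wr

instance : Mul Wr := ⟨fun x y => ⟨fun i => x.f i * y.f (i - x.n), x.n + y.n, x.k + y.k⟩⟩
instance : One Wr := ⟨⟨1, 0, 0⟩⟩
instance : Inv Wr := ⟨fun x => ⟨fun i => (x.f (i + x.n))⁻¹, -x.n, -x.k⟩⟩

@[simp] lemma mul_f (x y : Wr) (i : ℤ) : (x * y).f i = x.f i * y.f (i - x.n) := rfl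
@[simp] lemma mul_n (x y : Wr) : (x * y).n = x.n + y.n := rfl
@[simp] lemma mul_k (x y : Wr) : (x * y).k = x.k + y.k := rfl
@[simp] lemma one_f (i : ℤ) : (1 : Wr).f i = 1 := rfl
@[simp] lemma one_n : (1 : Wr).n = 0 := rfl
@[simp] lemma one_k : (1 : Wr).k = 0 := rfl
@[simp] lemma inv_f (x : Wr) (i : ℤ) : x⁻¹.f i = (x.f (i + x.n))⁻¹ := rfl
@[simp] lemma inv_n (x : Wr) : x⁻¹.n = -x.n := rfl
@[simp] lemma inv_k (x : Wr) : x⁻¹.k = -x.k := rfl

instance : Group Wr := Group.ofLeftAxioms
  (fun x y z => by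
    ext i
    · simp [mul_assoc, sub_sub]
    · simp [add_assoc]
    · simp [add_assoc])
  (fun x => by ext i <;> simp)
  (fun x => by ext i <;> simp)

def nHom : Wr →* Multiplicative ℤ := MonoidHom.mk' (fun x => Multiplicative.ofAdd x.n) fun _ _ => rfl

def kHom : Wr →* Multiplicative ℤ := MonoidHom.mk' (fun x => Multiplicative.ofAdd x.k) fun _ _ => rfl

/-- exponent sum of the first generator -/
def chi : F2 →* Multiplicative ℤ :=
  FreeGroup.lift fun j => Multiplicative.ofAdd (bif j then 1 else 0)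

def sing (i : ℤ) : F2 →* Wr :=
  MonoidHom.mk' (fun y => ⟨Pi.mulSingle i y, 0, (chi y).toAdd⟩) fun y z => by
    ext t
    · simp [Pi.mulSingle_mul]
    · simp
    · simp

@[simp] lemma sing_f (i : ℤ) (y : F2) : (sing i y).f = Pi.mulSingle i y := rfl
@[simp] lemma sing_n (i : ℤ) (y : F2) : (sing i y).n = 0 := rfl
@[simp] lemma sing_k (i : ℤ) (y : F2) : (sing i y).k = (chi y).toAdd := rfl

def tt : Wr := ⟨1, -1, 0⟩

lemma tt_zpow (m : ℤ) : tt ^ m = ⟨1, -m, 0⟩ := by
  induction m using Int.induction_on with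
  | zero => rfl
  | succ m ih => rw [zpow_add_one, ih]; ext i <;> simp [tt]; ring
  | pred m ih => rw [zpow_sub_one, ih]; ext i <;> simp [tt]; ring

lemma tt_conj (m i : ℤ) (y : F2) : tt ^ m * sing i y * (tt ^ m)⁻¹ = sing (i - m) y := by
  rw [tt_zpow]
  ext t
  · simp [Pi.mulSingle_apply, eq_sub_iff_add_eq]
  · simp
  · simp

lemma sing_comm {i i' : ℤ} (h : i ≠ i') (y z : F2) : Commute (sing i y) (sing i' z) := by
  ext t
  · by_cases ht : t = i
    · subst ht; simp [h]
    · simp [ht]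
  · simp
  · simp [add_comm]

end Wr

open Wr

theorem bad_commutator {G : Type u} [Group G] (Ψ : G →* Wr)
    (hinj : ∀ g, (Ψ g).f = 1 → (Ψ g).n = 0 → g = 1) (hT : ∃ T, Ψ T = tt)
    (hU : ∀ j, ∃ U, Ψ U = sing 1 (FreeGroup.of j)) : ∃ x : Fin 3 → commutator G, Bad _ x := by
  obtain ⟨T, hT⟩ := hT
  choose U hU using hU
  have hΨ : Function.Injective Ψ := (injective_iff_map_eq_one _).2 fun g h =>
    hinj g (by rw [h]; rfl) (by rw [h]; rfl)
  obtain ⟨V, hV⟩ : ∃ V : ℤ → Bool → G, ∀ i j, Ψ (V i j) = sing i (FreeGroup.of j) :=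
    ⟨fun i j => T ^ (1 - i) * U j * (T ^ (1 - i))⁻¹, fun i j => by
      simp only [map_mul, map_inv, map_zpow, hT, hU, tt_conj, sub_sub_cancel]⟩
  have hι : ∀ i y, Ψ (FreeGroup.lift (V i) y) = sing i y := by
    intro i y
    have : Ψ.comp (FreeGroup.lift (V i)) = sing i := by
      ext1 j
      simp [hV]
    exact DFunLike.congr_fun this y
  have hn : ∀ h : commutator G, (Ψ h).n = 0 := fun h =>
    Abelianization.commutator_subset_ker (nHom.comp Ψ) h.2
  have hk : ∀ h : commutator G, (Ψ h).k = 0 := fun h =>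
    Abelianization.commutator_subset_ker (kHom.comp Ψ) h.2
  let π : commutator G →* (ℤ → F2) := MonoidHom.mk' (fun h => (Ψ h).f) fun a b => by
    ext i
    simp [hn]
  refine bad_of_embedding π ((injective_iff_map_eq_one _).2 fun h hh =>
    Subtype.ext (hinj _ hh (hn h))) (fun i => ?_) (fun i i' j => ?_) ?_
  · refine ⟨⟨⁅V i true, V i false⁆, Subgroup.commutator_mem_commutator trivial trivial⟩, ?_⟩
    change (Ψ ⁅V i true, V i false⁆).f = _
    rw [map_commutatorElement, hV, hV, ← map_commutatorElement]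
    rfl
  · have : V i j * (V i' j)⁻¹ = ⁅V i j, T ^ (i - i')⁆ := by
      apply hΨ
      rw [commutatorElement_def, mul_assoc, mul_assoc, map_mul, map_mul Ψ (V i j)]
      congr 1
      rw [← mul_assoc, map_inv, map_mul, map_mul, map_inv, map_inv, map_zpow, hT, hV, hV,
        ← map_inv, ← map_inv, tt_conj, sub_sub_cancel]
    refine ⟨⟨V i j * (V i' j)⁻¹, this ▸ Subgroup.commutator_mem_commutator trivial trivial⟩, ?_⟩
    change (Ψ (V i j * (V i' j)⁻¹)).f = _
    rw [map_mul, map_inv, hV, hV]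
    ext t
    simp
  · intro l i i0 y m n hm h1 h2
    have h3 : (Ψ l).f = _ := h2
    have h4 := hinj ((l : G)⁻¹ * (V i true * FreeGroup.lift (V i0) y)) (by
      ext t
      simp [hn, hV, hι, h3]) (by simp [hn, hV, hι])
    rw [inv_mul_eq_one] at h4
    have h5 := hk l
    rw [h4] at h5
    simp only [map_mul, hV, hι, mul_k, sing_k] at h5
    have h6 : chi c0 = 1 := by
      rw [c0, map_commutatorElement]
      exact commutatorElement_eq_one_iff_commute.2 (Commute.all _ _)
    have h7 := congrArg (fun z => (chi z).toAdd) h1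
    simp only [map_zpow, h6, one_zpow, toAdd_zpow, toAdd_one, zsmul_eq_mul, Int.cast_id,
      mul_eq_zero, hm, false_or] at h7
    rw [h7] at h5
    simp [chi] at h5

end Pool.Agent.MP_8a4945_al.H85
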