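import Pool.Agent.MP_8a4945_al.H85.NotBad
import Pool.Agent.MP_8a4945_al.H85.Wr

namespace Pool.Agent.MP_8a4945_al.H85

open PreTree Tree2

universe u

lemma exists_seq {α : Type u} (R : α → α → Prop) (h1 : ∀ x, ∃ y, R x y) (h2 : ∀ y, ∃ x, R x y)
    (x0 : α) : ∃ u : ℤ → α, u 0 = x0 ∧ ∀ n, R (u n) (u (n + 1)) := by
  choose F hF using h1
  choose B hB using h2
  refine ⟨fun n => Int.rec (fun k => F^[k] x0) (fun k => B^[k + 1] x0) n, rfl, fun n => ?_⟩
  rcases n with k | _ | k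
  · change R (F^[k] x0) (F^[k + 1] x0)
    rw [Function.iterate_succ_apply']
    exact hF _
  · exact hB x0
  · change R (B^[k + 1 + 1] x0) (B^[k + 1] x0)
    rw [Function.iterate_succ_apply' B (k + 1)]
    exact hB _

section fire

variable {S C E K : Type u} {Y : Sys S C} {T : Tree2 E K}

/-- a cell of a given type with given boundary -/
def Fire (τ : Typed Y T) (c : C) (t t' : List E) : Prop :=
  ∃ κ, τ.ty κ = c ∧ T.ins κ = t ∧ T.outs κ = t'

variable {τ : Typed Y T}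

lemma Fire.sp {c : C} {t t' : List E} (h : Fire τ c t t') : t.map τ.sp = Y.src c := by
  obtain ⟨κ, rfl, rfl, -⟩ := h
  exact τ.sp_ins κ

lemma Fire.symm {c : C} {t t' : List E} (h : Fire τ c t t') : Fire τ (Y.inv c) t' t := by
  obtain ⟨κ, rfl, rfl, rfl⟩ := h
  exact ⟨T.flip κ, τ.ty_flip κ, rfl, by simp⟩

lemma Fire.uniq {c : C} {t t1 t2 : List E} (h : Fire τ c t t1) (h' : Fire τ c t t2) : t1 = t2 := by
  obtain ⟨κ, rfl, rfl, rfl⟩ := h
  obtain ⟨ν, h1, h2, rfl⟩ := h'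
  rw [τ.ext _ _ h1 h2]

lemma Fire.ex (c : C) {t : List E} (h : t.map τ.sp = Y.src c) :
    ∃ t', Fire τ c t t' ∧ t'.map τ.sp = Y.src (Y.inv c) := by
  obtain ⟨κ, h1, h2⟩ := τ.ex c t h
  exact ⟨_, ⟨κ, h1, h2, rfl⟩, by rw [τ.sp_outs, h1]⟩

lemma fire_equiv (c : C) {x y : S} (h1 : Y.src c = [x]) (h2 : Y.src (Y.inv c) = [y]) :
    ∃ φ : {e // τ.sp e = x} ≃ {e // τ.sp e = y}, ∀ e, Fire τ c [e.1] [(φ e).1] := by
  have key : ∀ (c : C) (x y : S), Y.src c = [x] → Y.src (Y.inv c) = [y] →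
      ∀ e : {e // τ.sp e = x}, ∃ e' : {e // τ.sp e = y}, Fire τ c [e.1] [e'.1] := by
    intro c x y h1 h2 e
    obtain ⟨t', h3, h4⟩ := Fire.ex (τ := τ) c (t := [e.1]) (by simp [h1, e.2])
    rw [h2, List.map_eq_singleton_iff] at h4
    obtain ⟨e', rfl, h5⟩ := h4
    exact ⟨⟨e', h5⟩, h3⟩
  choose f hf using key c x y h1 h2
  choose g hg using key (Y.inv c) y x h2 (by rw [Y.inv_inv, h1])
  refine ⟨⟨f, g, fun e => ?_, fun e => ?_⟩, hf⟩
  · exact Subtype.ext (List.singleton_injective ((hg (f e)).uniq (hf e).symm))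
  · have := (hg e).symm
    rw [Y.inv_inv] at this
    exact Subtype.ext (List.singleton_injective ((hf (g e)).uniq this))

end fire

/-- the letters of the example -/
inductive Le : Type
  | a : Le
  | c : Le
  | s (x : Fin 4) : Le

/-- the relations of the example -/
inductive R7 : Type
  | le : R7
  | re : R7
  | star (y : Fin 3) : R7
  | chord (j : Bool) : R7

def csrc (j : Bool) : Fin 3 := bif j then 0 else 1

def ctgt (j : Bool) : Fin 3 := bif j then 1 else 2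

def rel0 : R7 → List Le × List Le
  | .le => ([.a], [.a, .s 0])
  | .re => ([.c], [.s 0, .c])
  | .star y => ([.s 0], [.s y.succ])
  | .chord j => ([.s (csrc j).succ], [.s (ctgt j).succ])

lemma rel0_inj : Function.Injective rel0 := by
  rintro (_ | _ | y | (_ | _)) (_ | _ | y' | (_ | _)) h <;>
    simp [rel0, csrc, ctgt] at h ⊢
  exact h

def P0 : Pres Le where
  rel := Set.range rel0
  ne_nil := by rintro _ ⟨_ | _ | _ | _, rfl⟩ <;> simp [rel0]

def w0 : Word P0 := ⟨[.a, .c], by simp⟩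

def cc (r : R7) : P0.rel := ⟨rel0 r, r, rfl⟩

noncomputable def idx (r : P0.rel) : R7 := r.2.choose

lemma cc_idx (r : P0.rel) : cc (idx r) = r := Subtype.ext r.2.choose_spec

@[simp] lemma idx_cc (r : R7) : idx (cc r) = r := rel0_inj (cc r).2.choose_spec

def wt : R7 → ℤ → Wr
  | .le, _ => Wr.tt
  | .chord j, p => Wr.sing p (FreeGroup.of j)
  | _, _ => 1

noncomputable def wt2 (c : P0.rel × Bool) (p : ℤ) : Wr :=
  bif c.2 then wt (idx c.1) p else (wt (idx c.1) p)⁻¹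

abbrev Y0 := (idEnc P0).Y

@[simp] lemma src_true (r : R7) : Y0.src (cc r, true) = (rel0 r).1 := rfl
@[simp] lemma src_false (r : R7) : Y0.src (cc r, false) = (rel0 r).2 := rfl
@[simp] lemma inv_true (r : R7) : Y0.inv (cc r, true) = (cc r, false) := rfl
@[simp] lemma inv_false (r : R7) : Y0.inv (cc r, false) = (cc r, true) := rfl

variable {E K : Type} {T : Tree2 E K}

/-- standard edges -/
structure Data (τ : Typed Y0 T) where
  S : ℤ → F2 → Fin 4 → E
  a : ℤ → E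
  c : ℤ → E
  base : T.base = [a 0, c 0]
  star : ∀ i y z, Fire τ (cc (.star z), true) [S i y 0] [S i y z.succ]
  chord : ∀ i y j, Fire τ (cc (.chord j), true) [S i y (csrc j).succ]
    [S i (y * FreeGroup.of j) (ctgt j).succ]
  ha : ∀ n, Fire τ (cc .le, false) [a n, S (n + 1) 1 0] [a (n + 1)]
  hc : ∀ n, Fire τ (cc .re, false) [S (n + 1) 1 0, c (n + 1)] [c n]

lemma exists_data (τ : Typed Y0 T) (hb : T.base.map τ.sp = [.a, .c]) : Nonempty (Data τ) := by
  obtain ⟨a0, c0, h0, ha0, hc0⟩ : ∃ a0 c0, T.base = [a0, c0] ∧ τ.sp a0 = .a ∧ τ.sp c0 = .c := by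
    simpa [List.map_eq_cons_iff] using hb
  obtain ⟨u, hu0, hu⟩ := exists_seq (α := {e // τ.sp e = .a} × {e // τ.sp e = .c})
    (fun x y => ∃ β : {e // τ.sp e = .s 0}, Fire τ (cc .le, false) [x.1.1, β.1] [y.1.1] ∧
      Fire τ (cc .re, false) [β.1, y.2.1] [x.2.1]) (by
      rintro ⟨x, x'⟩
      obtain ⟨t, h1, h2⟩ := Fire.ex (τ := τ) (cc .re, true) (t := [x'.1]) (by simp [rel0, x'.2])
      obtain ⟨β, y', rfl, h3, h4⟩ : ∃ β y', t = [β, y'] ∧ τ.sp β = .s 0 ∧ τ.sp y' = .c := by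
        simpa [rel0, List.map_eq_cons_iff] using h2
      obtain ⟨t, h5, h6⟩ := Fire.ex (τ := τ) (cc .le, false) (t := [x.1, β])
        (by simp [rel0, x.2, h3])
      obtain ⟨y, rfl, h7⟩ : ∃ y, t = [y] ∧ τ.sp y = .a := by simpa [rel0] using h6
      exact ⟨(⟨y, h7⟩, ⟨y', h4⟩), ⟨β, h3⟩, h5, h1.symm⟩) (by
      rintro ⟨y, y'⟩
      obtain ⟨t, h1, h2⟩ := Fire.ex (τ := τ) (cc .le, true) (t := [y.1]) (by simp [rel0, y.2])
      obtain ⟨x, β, rfl, h3, h4⟩ : ∃ x β, t = [x, β] ∧ τ.sp x = .a ∧ τ.sp β = .s 0 := by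
        simpa [rel0, List.map_eq_cons_iff] using h2
      obtain ⟨t, h5, h6⟩ := Fire.ex (τ := τ) (cc .re, false) (t := [β, y'.1])
        (by simp [rel0, y'.2, h4])
      obtain ⟨x', rfl, h7⟩ : ∃ y, t = [y] ∧ τ.sp y = .c := by simpa [rel0] using h6
      exact ⟨(⟨x, h3⟩, ⟨x', h7⟩), ⟨β, h4⟩, h1.symm, h5⟩) (⟨a0, ha0⟩, ⟨c0, hc0⟩)
  choose β hβ1 hβ2 using hu
  have h1 := fun z : Fin 3 => fire_equiv (τ := τ) (cc (.star z), true) rfl rfl
  choose st hst using h1
  have h2 := fun j : Bool => fire_equiv (τ := τ) (cc (.chord j), true) rfl rfl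
  choose ch hch using h2
  let loop : Bool → Equiv.Perm {e // τ.sp e = .s 0} := fun j =>
    (st (csrc j)).trans ((ch j).trans (st (ctgt j)).symm)
  let ρ : F2 →* Equiv.Perm {e // τ.sp e = .s 0} := FreeGroup.lift fun j => (loop j)⁻¹
  refine ⟨⟨fun i y x => Fin.cases ((ρ y)⁻¹ (β (i - 1))).1
    (fun z => (st z ((ρ y)⁻¹ (β (i - 1)))).1) x, fun n => (u n).1.1, fun n => (u n).2.1,
    by rw [h0, hu0], fun i y z => hst z _, fun i y j => ?_, fun n => ?_, fun n => ?_⟩⟩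
  · have := hch j (st (csrc j) ((ρ y)⁻¹ (β (i - 1))))
    simpa [ρ, loop] using this
  · simpa using hβ1 n
  · simpa using hβ2 n

namespace Data

variable {τ : Typed Y0 T} (D : Data τ)

lemma sp_S (i : ℤ) (y : F2) (x : Fin 4) : τ.sp (D.S i y x) = .s x := by
  refine Fin.cases ?_ (fun z => ?_) x
  · simpa [rel0] using (D.star i y 0).sp
  · simpa [rel0] using (D.star i y z).symm.sp

inductive IsA (f : ℤ → F2) : ℤ → E → Prop
  | base (n : ℤ) : (∀ i ≤ n, f i = 1) → IsA f n (D.a n)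
  | step (n : ℤ) (e e' : E) : IsA f n e →
      Fire τ (cc .le, false) [e, D.S (n + 1) (f (n + 1)) 0] [e'] → IsA f (n + 1) e'

inductive IsC (f : ℤ → F2) : ℤ → E → Prop
  | base (n : ℤ) : (∀ i, n < i → f i = 1) → IsC f n (D.c n)
  | step (n m : ℤ) (e e' : E) : m = n + 1 → IsC f m e →
      Fire τ (cc .re, false) [D.S m (f m) 0, e] [e'] → IsC f n e'

inductive Body (f : ℤ → F2) : ℤ → List E → Prop
  | last (n : ℤ) (e : E) : D.IsC f n e → Body f n [e]
  | cons (n m : ℤ) (x : Fin 4) (t : List E) : m = n + 1 → Body f m t →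
      Body f n (D.S m (f m) x :: t)

def Inv (s : List E) (γ : Wr) : Prop :=
  ∃ e t, D.IsA γ.f γ.n e ∧ D.Body γ.f γ.n t ∧ s = e :: t

variable {D}

lemma IsA.sp {f : ℤ → F2} {n : ℤ} {e : E} (h : D.IsA f n e) : τ.sp e = .a := by
  cases h with
  | base n _ => simpa [rel0] using (D.ha n).sp.trans rfl |>.trans rfl |> List.cons.inj |>.1
  | step n e e' _ h => simpa [rel0] using h.symm.sp

lemma IsC.sp {f : ℤ → F2} {n : ℤ} {e : E} (h : D.IsC f n e) : τ.sp e = .c := by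
  cases h with
  | base n _ => simpa [rel0] using (D.hc n).symm.sp
  | step n m e e' _ _ h => simpa [rel0] using h.symm.sp

lemma IsA.congr {f g : ℤ → F2} {n : ℤ} {e : E} (h : D.IsA f n e) (hfg : ∀ i ≤ n, f i = g i) :
    D.IsA g n e := by
  induction h with
  | base n h => exact .base n fun i hi => hfg i hi ▸ h i hi
  | step n e e' _ h ih =>
    exact .step n e e' (ih fun i hi => hfg i (by omega)) (hfg (n + 1) le_rfl ▸ h)

lemma IsC.congr {f g : ℤ → F2} {n : ℤ} {e : E} (h : D.IsC f n e) (hfg : ∀ i, n < i → f i = g i) :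
    D.IsC g n e := by
  induction h with
  | base n h => exact .base n fun i hi => hfg i hi ▸ h i hi
  | step n m e e' hm _ h ih =>
    exact .step n m e e' hm (ih fun i hi => hfg i (by omega)) (hfg m (by omega) ▸ h)

lemma Body.congr {f g : ℤ → F2} {n : ℤ} {t : List E} (h : D.Body f n t)
    (hfg : ∀ i, n < i → f i = g i) : D.Body g n t := by
  induction h with
  | last n e h => exact .last n e (h.congr hfg)
  | cons n m x t hm _ ih =>
    rw [hfg m (by omega)]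
    exact .cons n m x t hm (ih fun i hi => hfg i (by omega))

lemma IsA.one {n : ℤ} {e : E} (h : D.IsA 1 n e) : e = D.a n := by
  induction h with
  | base n h => rfl
  | step n e e' _ h ih =>
    subst ih
    exact List.singleton_injective (h.uniq (D.ha n))

lemma IsC.one {n : ℤ} {e : E} (h : D.IsC 1 n e) : e = D.c n := by
  induction h with
  | base n h => rfl
  | step n m e e' hm _ h ih =>
    subst ih hm
    exact List.singleton_injective (h.uniq (D.hc n))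

lemma IsA.down {f : ℤ → F2} {n : ℤ} {e : E} (h : D.IsA f n e) :
    ∃ e', D.IsA f (n - 1) e' ∧ Fire τ (cc .le, false) [e', D.S n (f n) 0] [e] := by
  cases h with
  | base n h =>
    refine ⟨_, .base _ fun i hi => h i (by omega), ?_⟩
    simpa [h n le_rfl] using D.ha (n - 1)
  | step n e e' h1 h2 => exact ⟨e, by simpa using h1, h2⟩

lemma IsC.down {f : ℤ → F2} {n : ℤ} {e : E} (h : D.IsC f n e) :
    ∃ e', D.IsC f (n + 1) e' ∧ Fire τ (cc .re, false) [D.S (n + 1) (f (n + 1)) 0, e'] [e] := by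
  cases h with
  | base n h =>
    refine ⟨_, .base _ fun i hi => h i (by omega), ?_⟩
    simpa [h (n + 1) (by omega)] using D.hc n
  | step n m e e' hm h1 h2 => subst hm; exact ⟨e, h1, h2⟩

lemma Body.no_a {f : ℤ → F2} {n : ℤ} {t : List E} (h : D.Body f n t) :
    ∀ e ∈ t, τ.sp e ≠ .a := by
  induction h with
  | last n e h => simp [h.sp]
  | cons n m x t hm _ ih => simpa [sp_S] using ih

lemma Body.head_c {f : ℤ → F2} {n : ℤ} {e : E} {t : List E} (h : D.Body f n (e :: t))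
    (he : τ.sp e = .c) : t = [] ∧ D.IsC f n e := by
  cases h with
  | last n e h => exact ⟨rfl, h⟩
  | cons n m x t hm _ => simp [sp_S] at he

lemma Body.head_s {f : ℤ → F2} {n : ℤ} {e : E} {t : List E} {x : Fin 4}
    (h : D.Body f n (e :: t)) (he : τ.sp e = .s x) :
    e = D.S (n + 1) (f (n + 1)) x ∧ D.Body f (n + 1) t := by
  cases h with
  | last n e h => simp [h.sp] at he
  | cons n m x t hm h =>
    subst hm
    obtain rfl : _ = _ := by simpa [sp_S] using he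
    exact ⟨rfl, h⟩

lemma Body.tail {f : ℤ → F2} {n : ℤ} {e : E} {t : List E} (h : D.Body f n (e :: t))
    (ht : t ≠ []) : ∃ x, e = D.S (n + 1) (f (n + 1)) x ∧ D.Body f (n + 1) t := by
  cases h with
  | last n e h => exact absurd rfl ht
  | cons n m x t hm h => subst hm; exact ⟨x, rfl, h⟩

lemma Body.last_c {f : ℤ → F2} {e : E} {b : List E} (he : τ.sp e = .c) :
    ∀ {a : List E} {n : ℤ}, D.Body f n (a ++ e :: b) → b = []
  | [], _, h => (h.head_c he).1
  | _ :: _, _, h => by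
    obtain ⟨x, -, h1⟩ := h.tail (by simp)
    exact Body.last_c he h1

lemma Body.ctx {f g : ℤ → F2} {t t' : List E} (ht : t ≠ []) :
    ∀ {a : List E} {n : ℤ}, (∀ i ≤ n + a.length, f i = g i) →
      (D.Body f (n + a.length) t → D.Body g (n + a.length) t') →
      D.Body f n (a ++ t) → D.Body g n (a ++ t')
  | [], n, _, h1, h => by simpa using h1 (by simpa using h)
  | e :: a, n, h0, h1, h => by
    obtain ⟨x, rfl, h2⟩ := h.tail (by simp [ht])
    have h3 : n + ((D.S (n + 1) (f (n + 1)) x :: a).length : ℕ) = n + 1 + a.length := by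
      simp; ring
    rw [h3] at h0 h1
    rw [h0 (n + 1) (by omega)]
    exact .cons n _ x _ rfl (Body.ctx ht h0 h1 h2)

lemma Inv.ctx {γ δ : Wr} {a t t' : List E} {e : E} (he : τ.sp e ≠ .a) (hn : δ.n = γ.n)
    (h0 : ∀ i < γ.n + a.length, γ.f i = δ.f i)
    (h1 : ∀ m, m + 1 = γ.n + a.length → D.Body γ.f m (e :: t) → D.Body δ.f m t')
    (h : D.Inv (a ++ e :: t) γ) : D.Inv (a ++ t') δ := by
  obtain ⟨e0, t0, h2, h3, h4⟩ := h
  rcases a with _ | ⟨x, a⟩
  · obtain ⟨rfl, -⟩ := List.cons.inj h4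
    exact absurd h2.sp he
  · obtain ⟨rfl, rfl⟩ := List.cons.inj h4
    simp only [List.length_cons, Nat.cast_add, Nat.cast_one] at h0 h1
    refine ⟨x, a ++ t', hn ▸ h2.congr fun i hi => h0 i (by omega), ?_, rfl⟩
    rw [hn]
    exact Body.ctx (by simp) (fun i hi => h0 i (by omega)) (h1 _ (by ring)) h3

lemma Inv.head {γ : Wr} {a b : List E} {e : E} (h : D.Inv (a ++ e :: b) γ) (he : τ.sp e = .a) :
    a = [] := by
  obtain ⟨e0, t0, -, h3, h4⟩ := h
  rcases a with _ | ⟨x, a⟩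
  · rfl
  · obtain ⟨rfl, rfl⟩ := List.cons.inj h4
    exact absurd he (h3.no_a e (by simp))

lemma Inv.last {γ : Wr} {a b : List E} {e : E} (h : D.Inv (a ++ e :: b) γ) (he : τ.sp e = .c) :
    b = [] := by
  obtain ⟨e0, t0, h2, h3, h4⟩ := h
  rcases a with _ | ⟨x, a⟩
  · obtain ⟨rfl, -⟩ := List.cons.inj h4
    simp [h2.sp] at he
  · obtain ⟨rfl, rfl⟩ := List.cons.inj h4
    exact h3.last_c he

lemma Inv.single {γ : Wr} {a b t t' : List E} {c : P0.rel × Bool} {x x' : Fin 4} {y : F2}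
    {k : ℤ} (hc : Y0.src c = [.s x]) (hS : ∀ i z, Fire τ c [D.S i z x] [D.S i (z * y) x'])
    (hf : Fire τ c t t') (h : D.Inv (a ++ t ++ b) γ) :
    D.Inv (a ++ t' ++ b) (γ * ⟨Pi.mulSingle (a.length : ℤ) y, 0, k⟩) := by
  obtain ⟨e, rfl, he⟩ : ∃ e, t = [e] ∧ τ.sp e = .s x := by simpa [hc] using hf.sp
  rw [List.append_assoc] at h ⊢
  refine Inv.ctx (by simp [he]) (by simp) (fun i hi => ?_) (fun m hm hb => ?_) h
  · have : i - γ.n ≠ a.length := by omega
    simp [this]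
  · obtain ⟨rfl, h2⟩ := hb.head_s he
    obtain rfl := (hS _ _).uniq hf
    have := Body.cons (D := D) (f := (γ * ⟨Pi.mulSingle (a.length : ℤ) y, 0, k⟩).f) m _ x' b rfl
      (h2.congr fun i hi => by
        have : i - γ.n ≠ a.length := by omega
        simp [this])
    have h3 : m + 1 - γ.n = a.length := by omega
    simpa [h3] using this

lemma Inv.step {γ : Wr} {a b t t' : List E} {c : P0.rel × Bool} (hf : Fire τ c t t')
    (h : D.Inv (a ++ t ++ b) γ) : D.Inv (a ++ t' ++ b) (γ * wt2 c a.length) := by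
  obtain ⟨r, o⟩ := c
  obtain ⟨r, rfl⟩ : ∃ r', r = cc r' := ⟨_, (cc_idx r).symm⟩
  have hsp := hf.sp
  rcases r with _ | _ | z | j <;> rcases o with _ | _
  · obtain ⟨e1, e2, rfl, h1, h2⟩ : ∃ e1 e2, t = [e1, e2] ∧ τ.sp e1 = .a ∧ τ.sp e2 = .s 0 := by
      simpa [rel0, List.map_eq_cons_iff] using hsp
    obtain rfl := Inv.head (b := e2 :: b) (by simpa using h) h1
    obtain ⟨e, t0, h3, h4, h5⟩ := h
    obtain ⟨rfl, rfl⟩ := List.cons.inj h5
    obtain ⟨rfl, h6⟩ := h4.head_s h2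
    obtain ⟨e', rfl, -⟩ : ∃ e', t' = [e'] ∧ τ.sp e' = .a := by simpa [rel0] using hf.symm.sp
    have h7 : γ * wt2 (cc .le, false) (([] : List E).length : ℕ) = ⟨γ.f, γ.n + 1, γ.k⟩ := by
      ext <;> simp [wt2, wt, Wr.tt]
    rw [h7]
    exact ⟨e', b, .step _ _ _ h3 hf, h6, rfl⟩
  · obtain ⟨e1, rfl, h1⟩ : ∃ e1, t = [e1] ∧ τ.sp e1 = .a := by simpa [rel0] using hsp
    obtain rfl := Inv.head (b := b) (by simpa using h) h1
    obtain ⟨e, t0, h3, h4, h5⟩ := h
    obtain ⟨rfl, rfl⟩ := List.cons.inj h5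
    obtain ⟨e', h6, h7⟩ := h3.down
    obtain rfl := h7.symm.uniq hf
    have h7 : γ * wt2 (cc .le, true) (([] : List E).length : ℕ) = ⟨γ.f, γ.n - 1, γ.k⟩ := by
      ext <;> simp [wt2, wt, Wr.tt, sub_eq_add_neg]
    rw [h7]
    exact ⟨e', _, h6, .cons _ _ 0 _ (by simp) h4, rfl⟩
  · obtain ⟨e1, e2, rfl, h1, h2⟩ : ∃ e1 e2, t = [e1, e2] ∧ τ.sp e1 = .s 0 ∧ τ.sp e2 = .c := by
      simpa [rel0, List.map_eq_cons_iff] using hsp
    obtain ⟨e', rfl, -⟩ : ∃ e', t' = [e'] ∧ τ.sp e' = .c := by simpa [rel0] using hf.symm.sp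
    rw [List.append_assoc] at h ⊢
    rw [show γ * wt2 (cc .re, false) a.length = γ by simp [wt2, wt]]
    refine Inv.ctx (by simp [h1]) rfl (fun _ _ => rfl) (fun m _ hb => ?_) h
    obtain ⟨rfl, h3⟩ := hb.head_s h1
    obtain ⟨rfl, h4⟩ := h3.head_c h2
    exact .last _ _ (.step _ _ _ _ rfl h4 hf)
  · obtain ⟨e1, rfl, h1⟩ : ∃ e1, t = [e1] ∧ τ.sp e1 = .c := by simpa [rel0] using hsp
    rw [List.append_assoc] at h ⊢
    rw [show γ * wt2 (cc .re, true) a.length = γ by simp [wt2, wt]]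
    refine Inv.ctx (by simp [h1]) rfl (fun _ _ => rfl) (fun m _ hb => ?_) h
    obtain ⟨rfl, h4⟩ := hb.head_c h1
    obtain ⟨e', h6, h7⟩ := h4.down
    obtain rfl := h7.symm.uniq hf
    exact .cons _ _ 0 _ rfl (.last _ _ h6)
  · have := Inv.single (y := 1) (k := 0) rfl (fun i y => by simpa using (D.star i y z).symm) hf h
    convert this using 2
    ext <;> simp [wt2, wt]
  · have := Inv.single (y := 1) (k := 0) rfl (fun i y => by simpa using D.star i y z) hf h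
    convert this using 2
    ext <;> simp [wt2, wt]
  · have := Inv.single (y := (FreeGroup.of j)⁻¹) (k := (Wr.chi (FreeGroup.of j)⁻¹).toAdd) rfl
      (fun i y => by simpa using (D.chord i (y * (FreeGroup.of j)⁻¹) j).symm) hf h
    convert this using 2
    simp only [wt2, wt, idx_cc, cond_false, ← map_inv]
    rfl
  · have := Inv.single (k := (Wr.chi (FreeGroup.of j)).toAdd) rfl
      (fun i y => D.chord i y j) hf h
    convert this using 2
    simp only [wt2, wt, idx_cc, cond_true]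
    rfl

end Data

/-- the cocycle with values in the wreath product -/
noncomputable def mu (τ : Typed Y0 T) (a : List E) (κ : K) (_ : List E) : Wr :=
  wt2 (τ.ty κ) a.length

variable {τ : Typed Y0 T}

lemma pv_fire {s a b t t' : List E} {γ : Wr} {c : P0.rel × Bool}
    (h : T.PV (mu τ) (fun _ => True) s (a ++ t ++ b) γ) (hf : Fire τ c t t') :
    T.PV (mu τ) (fun _ => True) s (a ++ t' ++ b) (γ * wt2 c a.length) := by
  obtain ⟨κ, rfl, rfl, rfl⟩ := hf
  exact PV.step h trivial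

lemma Data.inv_of_pv (D : Data τ) {y : List E} {γ : Wr}
    (h : T.PV (mu τ) (fun _ => True) T.base y γ) : D.Inv y γ := by
  induction h with
  | refl =>
    exact ⟨_, _, .base 0 fun _ _ => rfl, .last _ _ (.base 0 fun _ _ => rfl), D.base⟩
  | @step a b κ γ _ _ ih => exact ih.step ⟨κ, rfl, rfl, rfl⟩

lemma Data.inv_of_X (D : Data τ) {y : List E} (h : T.X y) : ∃ γ, D.Inv y γ := by
  obtain ⟨γ, h⟩ := Reach.pv (mu τ) h
  exact ⟨γ, D.inv_of_pv h⟩

lemma wt2_cases (c : P0.rel × Bool) : (∃ t, Y0.src c = .a :: t) ∨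
    ∃ y, ∀ p, wt2 c p = Wr.sing p y := by
  obtain ⟨r, o⟩ := c
  obtain ⟨r, rfl⟩ : ∃ r', r = cc r' := ⟨_, (cc_idx r).symm⟩
  rcases r with _ | _ | z | j <;> rcases o with _ | _
  · exact Or.inl ⟨_, rfl⟩
  · exact Or.inl ⟨_, rfl⟩
  · exact Or.inr ⟨1, by simp [wt2, wt]⟩
  · exact Or.inr ⟨1, by simp [wt2, wt]⟩
  · exact Or.inr ⟨1, by simp [wt2, wt]⟩
  · exact Or.inr ⟨1, by simp [wt2, wt]⟩
  · exact Or.inr ⟨(FreeGroup.of j)⁻¹, by simp [wt2, wt]⟩
  · exact Or.inr ⟨FreeGroup.of j, by simp [wt2, wt]⟩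

lemma wt2_cases' (c : P0.rel × Bool) : (∃ t, Y0.src c = t ++ [.c]) ∨
    ∃ m : ℤ, ((Y0.src (Y0.inv c)).length : ℤ) = (Y0.src c).length + m ∧
      ∀ p : ℤ, ∃ y, wt2 c p = Wr.tt ^ m * Wr.sing p y ∧ (m ≠ 0 → y = 1) := by
  obtain ⟨r, o⟩ := c
  obtain ⟨r, rfl⟩ : ∃ r', r = cc r' := ⟨_, (cc_idx r).symm⟩
  rcases r with _ | _ | z | j <;> rcases o with _ | _
  · exact Or.inr ⟨-1, by simp [rel0], fun p => ⟨1, by simp [wt2, wt]⟩⟩
  · exact Or.inr ⟨1, by simp [rel0], fun p => ⟨1, by simp [wt2, wt]⟩⟩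
  · exact Or.inl ⟨[_], rfl⟩
  · exact Or.inl ⟨[], rfl⟩
  · exact Or.inr ⟨0, by simp [rel0], fun p => ⟨1, by simp [wt2, wt]⟩⟩
  · exact Or.inr ⟨0, by simp [rel0], fun p => ⟨1, by simp [wt2, wt]⟩⟩
  · exact Or.inr ⟨0, by simp [rel0], fun p => ⟨(FreeGroup.of j)⁻¹, by simp [wt2, wt]⟩⟩
  · exact Or.inr ⟨0, by simp [rel0], fun p => ⟨FreeGroup.of j, by simp [wt2, wt]⟩⟩

lemma Data.cocycle (D : Data τ) : T.Cocycle (mu τ) where
  cancel a κ b _ := by
    rw [mu, mu, τ.ty_flip]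
    rcases τ.ty κ with ⟨r, _ | _⟩
    · exact inv_mul_cancel _
    · exact mul_inv_cancel _
  swap a κ m ν b hX := by
    obtain ⟨γ, h⟩ := D.inv_of_X hX
    have hκ := T.ins_ne κ
    rcases wt2_cases (τ.ty ν) with ⟨t, ht⟩ | ⟨y, hy⟩
    · rw [← τ.sp_ins, List.map_eq_cons_iff] at ht
      obtain ⟨e, t, h1, h2, -⟩ := ht
      rw [h1, List.append_assoc] at h
      simpa [hκ] using h.head h2
    rcases wt2_cases' (τ.ty κ) with ⟨t, ht⟩ | ⟨k, hk, hz⟩
    · rw [← τ.sp_ins, List.map_eq_append_iff] at ht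
      obtain ⟨t, t', h1, -, h2⟩ := ht
      obtain ⟨e, rfl, h3⟩ := List.map_eq_singleton_iff.1 h2
      have := Data.Inv.last (a := a ++ t) (b := m ++ T.ins ν ++ b) (by simpa [h1] using h) h3
      simp [T.ins_ne] at this
    rw [← τ.sp_ins, ← τ.sp_outs, List.length_map, List.length_map] at hk
    obtain ⟨z, h1, h2⟩ := hz a.length
    simp only [mu, hy, h1, List.length_append, Nat.cast_add, hk]
    have h3 : 0 < (T.ins κ).length := List.length_pos_iff.2 hκ
    by_cases h0 : k = 0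
    · subst h0
      simpa using (Wr.sing_comm (by omega) _ _).eq
    · rw [h2 h0, map_one, mul_one, ← mul_inv_eq_iff_eq_mul, Wr.tt_conj]
      congr 2
      ring

lemma Data.exists_hom (D : Data τ) : ∃ Ψ : τ.GG →* Wr,
    ∀ g, T.PV (mu τ) (fun _ => True) T.base (act g T.base) (Ψ g) := by
  have h1 := fun g : τ.GG => Reach.pv (mu τ) (τ.isAct.base_X g)
  choose Ψ hΨ using h1
  refine ⟨MonoidHom.mk' Ψ fun g h => ?_, hΨ⟩
  have := (hΨ g).trans (PV_act τ.isAct (fun g a κ b => by simp [mu, Typed.ty_smul]) g (hΨ h))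
  rw [← act_mul] at this
  exact pv_unique D.cocycle X_base (hΨ _) this

theorem example_bad : ∃ x : Fin 3 → commutator (DiagramGroup P0 w0), Bad _ x := by
  obtain ⟨E, K, T, τ, hb⟩ := exists_model Y0 [.a, .c]
  obtain ⟨e⟩ := Enc.bridge (ε := idEnc P0) (v := w0) hb
  obtain ⟨D⟩ := exists_data τ hb
  obtain ⟨Ψ, hΨ⟩ := D.exists_hom
  have hsurj : ∀ y γ, T.PV (mu τ) (fun _ => True) T.base y γ → y.map τ.sp = [.a, .c] →
      ∃ g, Ψ.comp e.toMonoidHom g = γ := by
    intro y γ h hy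
    obtain ⟨g, rfl⟩ := Typed.closed (τ := τ) X_base h.reach (hy.trans hb.symm)
    exact ⟨e.symm g, by simpa using pv_unique D.cocycle X_base (hΨ g) h⟩
  have ha : ∀ n, τ.sp (D.a n) = .a := fun n => (Data.IsA.base (f := 1) n fun _ _ => rfl).sp
  have hc : ∀ n, τ.sp (D.c n) = .c := fun n => (Data.IsC.base (f := 1) n fun _ _ => rfl).sp
  have p0 : T.PV (mu τ) (fun _ => True) T.base ([D.a 0] ++ [D.c 0] ++ []) 1 := by
    rw [D.base]; exact PV.refl
  have p1 := pv_fire p0 (D.hc 0).symm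
  refine bad_commutator (Ψ.comp e.toMonoidHom) (fun g h1 h2 => ?_) ?_ fun j => ?_
  · obtain ⟨x, t, h3, h4, h5⟩ := D.inv_of_pv (hΨ (e g))
    change (Ψ (e g)).f = 1 at h1
    change (Ψ (e g)).n = 0 at h2
    rw [h1, h2] at h3 h4
    rw [D.base] at h5
    obtain ⟨rfl, rfl⟩ := List.cons.inj h5
    have h6 := (h4.head_c (by rw [Typed.sp_smul, hc])).2.one
    refine (map_eq_one_iff e e.injective).1 (τ.isAct.free _ ?_)
    simp [D.base, h6, h3.one]
  · obtain ⟨g, hg⟩ := hsurj _ _ (pv_fire (a := []) (b := [D.c (0 + 1)]) p1 (D.ha 0))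
      (by simp [ha, hc])
    exact ⟨g⁻¹, by rw [map_inv, hg]; simp [wt2, wt]⟩
  · have p2 := pv_fire (a := [D.a 0]) (b := [D.c (0 + 1)]) p1 (D.star _ _ (csrc j))
    have p3 := pv_fire (pv_fire p2 (D.chord _ _ j)) (D.star _ _ (ctgt j)).symm
    obtain ⟨t, h1, h2⟩ := Fire.ex (τ := τ) (cc .re, false)
      (t := [D.S (0 + 1) (1 * FreeGroup.of j) 0, D.c (0 + 1)]) (by simp [rel0, D.sp_S, hc])
    obtain ⟨g, hg⟩ := hsurj _ _ (pv_fire (a := [D.a 0]) (b := []) p3 h1) (by simp [ha, h2, rel0])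
    exact ⟨g, by rw [hg]; simp [wt2, wt]⟩

end Pool.Agent.MP_8a4945_al.H85
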