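import Pool.Agent.MP_8a4945_al.H85.Act

namespace Pool.Agent.MP_8a4945_al.H85

universe u v w

open PreTree Tree2

/-- an alphabet with oriented rules -/
structure Sys (S : Type u) (C : Type v) where
  inv : C → C
  src : C → List S
  inv_inv : ∀ c, inv (inv c) = c
  inv_ne : ∀ c, inv c ≠ c
  src_ne : ∀ c, src c ≠ []

variable {S C E K : Type u}

/-- a two-dimensional tree covering a system of rules -/
structure Typed (Y : Sys S C) (T : Tree2 E K) where
  sp : E → S
  ty : K → C
  sp_ins : ∀ κ, (T.ins κ).map sp = Y.src (ty κ)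
  ty_flip : ∀ κ, ty (T.flip κ) = Y.inv (ty κ)
  ex : ∀ c t, t.map sp = Y.src c → ∃ κ, ty κ = c ∧ T.ins κ = t
  ext : ∀ κ ν, ty κ = ty ν → T.ins κ = T.ins ν → κ = ν

namespace Typed

variable {Y : Sys S C} {T : Tree2 E K} (τ : Typed Y T)

lemma sp_outs (κ : K) : (T.outs κ).map τ.sp = Y.src (Y.inv (τ.ty κ)) := by
  rw [outs, τ.sp_ins, τ.ty_flip]

structure Endo (φ : E → E) (ψ : K → K) : Prop where
  sp : ∀ e, τ.sp (φ e) = τ.sp e
  ty : ∀ κ, τ.ty (ψ κ) = τ.ty κ
  ins : ∀ κ, T.ins (ψ κ) = (T.ins κ).map φ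
  flip : ∀ κ, T.flip (ψ κ) = ψ (T.flip κ)

inductive Rel (s s' : List E) : E → E → Prop
  | base (i : ℕ) (e e' : E) : s[i]? = some e → s'[i]? = some e' → Rel s s' e e'
  | step (κ ν : K) (j : ℕ) (e e' : E) : κ ∈ T.ori s → τ.ty κ = τ.ty ν →
      (∀ (i : ℕ) x y, (T.ins κ)[i]? = some x → (T.ins ν)[i]? = some y → Rel s s' x y) →
      (T.outs κ)[j]? = some e → (T.outs ν)[j]? = some e' → Rel s s' e e'

omit τ in
lemma getElem?_of_map_eq {α β : Type u} {f : α → β} {l l' : List α} (h : l'.map f = l.map f)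
    {i : ℕ} {x : α} (hx : l[i]? = some x) : ∃ y, l'[i]? = some y ∧ f y = f x := by
  have := congrArg (·[i]?) h
  simpa [hx] using this

omit τ in
lemma idx_eq {α : Type u} {l : List α} (h : l.Nodup) {i j : ℕ} {x : α} (hi : l[i]? = some x)
    (hj : l[j]? = some x) : i = j := by
  obtain ⟨h1, -⟩ := List.getElem?_eq_some_iff.1 hi
  exact (List.getElem?_inj h1 h).1 (hi.trans hj.symm)

lemma rel_total {s s' : List E} (hs : T.X s) (h : s'.map τ.sp = s.map τ.sp) (e : E) :
    ∃ e', τ.Rel s s' e e' ∧ τ.sp e' = τ.sp e ∧ ∀ e'', τ.Rel s s' e e'' → e'' = e' := by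
  obtain ⟨ht, hht⟩ := hs.isOri.wf
  have key : ∀ n e, ht e < n →
      ∃ e', τ.Rel s s' e e' ∧ τ.sp e' = τ.sp e ∧ ∀ e'', τ.Rel s s' e e'' → e'' = e' := by
    intro n
    induction n with
    | zero => intro e h; omega
    | succ n ih =>
      intro e he
      by_cases hes : e ∈ s
      · obtain ⟨i, hi⟩ := List.getElem?_of_mem hes
        obtain ⟨e', h1, h2⟩ := getElem?_of_map_eq h hi
        refine ⟨e', Rel.base i e e' hi h1, h2, fun e'' h3 => ?_⟩
        cases h3 with
        | base i' _ _ a1 a2 =>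
          obtain rfl := idx_eq hs.nodup hi a1
          exact Option.some.inj (a2.symm.trans h1)
        | step κ ν j _ _ a1 _ _ a2 _ =>
          exact absurd (List.mem_of_getElem? a2) (hs.isOri.root e hes κ a1)
      · obtain ⟨κ, hκ, heκ⟩ := hs.isOri.par e hes
        obtain ⟨j, hj⟩ := List.getElem?_of_mem heκ
        have : ∀ x, ∃ x', x ∈ T.ins κ →
            (τ.Rel s s' x x' ∧ τ.sp x' = τ.sp x ∧ ∀ e'', τ.Rel s s' x e'' → e'' = x') := by
          intro x
          by_cases hx : x ∈ T.ins κ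
          · obtain ⟨x', hx'⟩ := ih x (by have := hht κ hκ x hx e heκ; omega)
            exact ⟨x', fun _ => hx'⟩
          · exact ⟨x, fun h => absurd h hx⟩
        choose f hf using this
        obtain ⟨ν, hν1, hν2⟩ := τ.ex (τ.ty κ) ((T.ins κ).map f) (by
          rw [List.map_map, ← τ.sp_ins]
          exact List.map_congr_left fun x hx => (hf x hx).2.1)
        obtain ⟨e', h1, h2⟩ := getElem?_of_map_eq (f := τ.sp) (l := T.outs κ) (l' := T.outs ν)
          (by rw [τ.sp_outs, τ.sp_outs, hν1]) hj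
        refine ⟨e', Rel.step κ ν j e e' hκ hν1.symm ?_ hj h1, h2, fun e'' h3 => ?_⟩
        · intro i x y a1 a2
          rw [hν2, List.getElem?_map, a1] at a2
          obtain rfl : f x = y := by simpa using a2
          exact (hf x (List.mem_of_getElem? a1)).1
        · cases h3 with
          | base i' _ _ a1 a2 => exact absurd (List.mem_of_getElem? a1) hes
          | step κ2 ν2 j2 _ _ a1 a2 a3 a4 a5 =>
            obtain rfl := hs.isOri.uniq _ hκ _ a1 e heκ (List.mem_of_getElem? a4)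
            obtain rfl := idx_eq (hs.isOri.nodup_out _ hκ) hj a4
            obtain rfl : ν = ν2 := by
              refine τ.ext _ _ (hν1.trans a2) ?_
              rw [hν2]
              refine List.ext_getElem? fun i => ?_
              have hl : (T.ins ν2).map τ.sp = (T.ins κ).map τ.sp := by
                rw [τ.sp_ins, τ.sp_ins, a2]
              rcases hx : (T.ins κ)[i]? with _ | x
              · have hl2 := congrArg List.length hl
                simp only [List.length_map] at hl2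
                rw [List.getElem?_map, hx]
                rw [List.getElem?_eq_none_iff] at hx
                simp [hl2, hx]
              · obtain ⟨y, b1, -⟩ := getElem?_of_map_eq hl hx
                rw [List.getElem?_map, hx, b1,
                  (hf x (List.mem_of_getElem? hx)).2.2 y (a3 i x y hx b1)]
                rfl
            exact Option.some.inj (a5.symm.trans h1)
  exact key _ e (Nat.lt_succ_self _)

lemma exists_endo {s s' : List E} (hs : T.X s) (h : s'.map τ.sp = s.map τ.sp) :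
    ∃ φ ψ, τ.Endo φ ψ ∧ s.map φ = s' := by
  choose φ h1 h2 h3 using τ.rel_total hs h
  have : ∀ κ, ∃ ν, τ.ty ν = τ.ty κ ∧ T.ins ν = (T.ins κ).map φ := fun κ =>
    τ.ex _ _ (by rw [List.map_map, ← τ.sp_ins]; exact List.map_congr_left fun x _ => h2 x)
  choose ψ h4 h5 using this
  have hlist : ∀ l l' : List E, l'.map τ.sp = l.map τ.sp →
      (∀ (i : ℕ) x y, l[i]? = some x → l'[i]? = some y → τ.Rel s s' x y) → l.map φ = l' := by
    intro l l' hl hr
    refine List.ext_getElem? fun i => ?_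
    rcases hx : l[i]? with _ | x
    · have hl2 := congrArg List.length hl
      simp only [List.length_map] at hl2
      rw [List.getElem?_map, hx]
      rw [List.getElem?_eq_none_iff] at hx
      simp [hl2, hx]
    · obtain ⟨y, b1, -⟩ := getElem?_of_map_eq hl hx
      rw [List.getElem?_map, hx, b1, h3 x y (hr i x y hx b1)]
      rfl
  have hflip : ∀ κ ∈ T.ori s, T.flip (ψ κ) = ψ (T.flip κ) := by
    intro κ hκ
    refine τ.ext _ _ (by rw [τ.ty_flip, h4, h4, τ.ty_flip]) ?_
    rw [h5, ins_flip, ins_flip]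
    refine (hlist _ _ (by rw [τ.sp_outs, τ.sp_outs, h4]) fun j x y a1 a2 => ?_).symm
    refine Rel.step κ (ψ κ) j x y hκ (h4 κ).symm ?_ a1 a2
    intro i x y b1 b2
    rw [h5, List.getElem?_map, b1] at b2
    obtain rfl : φ x = y := by simpa using b2
    exact h1 x
  refine ⟨φ, ψ, ⟨h2, h4, h5, fun κ => ?_⟩, hlist _ _ h fun i x y a1 a2 => Rel.base i x y a1 a2⟩
  by_cases hκ : κ ∈ T.ori s
  · exact hflip κ hκ
  · have := hflip _ (hs.flip_mem.2 hκ)
    rw [T.flip_flip] at this
    rw [← this, T.flip_flip]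

variable {τ}

lemma Endo.outs {φ : E → E} {ψ : K → K} (h : τ.Endo φ ψ) (κ : K) :
    T.outs (ψ κ) = (T.outs κ).map φ := by
  rw [PreTree.outs, h.flip, h.ins]; rfl

lemma Endo.comp {φ φ' : E → E} {ψ ψ' : K → K} (h : τ.Endo φ ψ) (h' : τ.Endo φ' ψ') :
    τ.Endo (φ ∘ φ') (ψ ∘ ψ') :=
  ⟨fun e => by simp [h.sp, h'.sp], fun κ => by simp [h.ty, h'.ty],
    fun κ => by simp [h.ins, h'.ins], fun κ => by simp [h.flip, h'.flip]⟩

lemma Endo.rigid {φ : E → E} {ψ : K → K} (h : τ.Endo φ ψ) {s : List E} (hs : T.X s)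
    (hfix : ∀ e ∈ s, φ e = e) : (∀ e, φ e = e) ∧ ∀ κ, ψ κ = κ := by
  obtain ⟨ht, hht⟩ := hs.isOri.wf
  have hc : ∀ κ, (∀ e ∈ T.ins κ, φ e = e) → ψ κ = κ := fun κ hκ =>
    τ.ext _ _ (h.ty κ) (by rw [h.ins, List.map_congr_left hκ]; simp)
  have key : ∀ n e, ht e < n → φ e = e := by
    intro n
    induction n with
    | zero => intro e h; omega
    | succ n ih =>
      intro e he
      by_cases hes : e ∈ s
      · exact hfix e hes
      · obtain ⟨κ, hκ, heκ⟩ := hs.isOri.par e hes
        have h1 := h.outs κ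
        rw [hc κ fun x hx => ih x (by have := hht κ hκ x hx e heκ; omega)] at h1
        have h2 : (T.outs κ).map φ = (T.outs κ).map id := by simpa using h1.symm
        exact List.map_inj_left.1 h2 e heκ
  have h1 : ∀ e, φ e = e := fun e => key _ e (Nat.lt_succ_self _)
  exact ⟨h1, fun κ => hc κ fun e _ => h1 e⟩

lemma Endo.reach {φ : E → E} {ψ : K → K} (h : τ.Endo φ ψ) {s s' : List E}
    (hr : T.Reach s s') : T.Reach (s.map φ) (s'.map φ) := by
  induction hr with
  | refl => exact Reach.refl _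
  | tail _ hm ih =>
    obtain ⟨a, κ, b, rfl, rfl⟩ := hm
    simp only [List.map_append, ← h.ins, ← h.outs] at ih ⊢
    exact ih.step

lemma Endo.inv {φ : Equiv.Perm E} {ψ : Equiv.Perm K} (h : τ.Endo φ ψ) :
    τ.Endo (φ⁻¹ : Equiv.Perm E) (ψ⁻¹ : Equiv.Perm K) := by
  refine ⟨fun e => ?_, fun κ => ?_, fun κ => ?_, fun κ => ?_⟩
  · rw [← h.sp]; simp
  · rw [← h.ty]; simp
  · have := h.ins (ψ⁻¹ κ)
    simp only [Equiv.Perm.coe_inv, Equiv.apply_symm_apply] at this ⊢
    rw [this]; simp
  · apply ψ.injective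
    rw [← h.flip]; simp

variable (τ)

/-- the deck transformations -/
def autG : Subgroup (Equiv.Perm E × Equiv.Perm K) where
  carrier := {g | τ.Endo g.1 g.2 ∧ T.X (T.base.map g.1)}
  one_mem' := ⟨⟨by simp, by simp, by simp, by simp⟩, by simpa using X_base⟩
  mul_mem' := fun {a b} ha hb => ⟨ha.1.comp hb.1, by
    have := ha.2.reach (ha.1.reach hb.2)
    simpa using this⟩
  inv_mem' := fun {a} ha => ⟨ha.1.inv, by
    have := (ha.1.inv.reach ha.2).symm
    simpa [Tree2.X] using this⟩

/-- the group of deck transformations -/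
def GG : Type u := τ.autG

instance : Group τ.GG := inferInstanceAs (Group τ.autG)

instance actE : MulAction τ.GG E where
  smul g e := g.1.1 e
  one_smul _ := rfl
  mul_smul _ _ _ := rfl

instance actK : MulAction τ.GG K where
  smul g κ := g.1.2 κ
  one_smul _ := rfl
  mul_smul _ _ _ := rfl

variable {τ}

lemma sp_smul (g : τ.GG) (e : E) : τ.sp (g • e) = τ.sp e := g.2.1.sp e

lemma ty_smul (g : τ.GG) (κ : K) : τ.ty (g • κ) = τ.ty κ := g.2.1.ty κ

lemma sp_act (g : τ.GG) (s : List E) : (act g s).map τ.sp = s.map τ.sp := by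
  simp [act, sp_smul]

lemma closed {s s' : List E} (hs : T.X s) (hs' : T.X s') (h : s'.map τ.sp = s.map τ.sp) :
    ∃ g : τ.GG, act g s = s' := by
  obtain ⟨φ, ψ, h1, h2⟩ := τ.exists_endo hs h
  obtain ⟨φ', ψ', h3, h4⟩ := τ.exists_endo hs' h.symm
  have a1 := (h3.comp h1).rigid hs (by
    have : s.map (φ' ∘ φ) = s.map id := by rw [← List.map_map, h2, h4]; simp
    exact List.map_inj_left.1 this)
  have a2 := (h1.comp h3).rigid hs' (by
    have : s'.map (φ ∘ φ') = s'.map id := by rw [← List.map_map, h4, h2]; simp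
    exact List.map_inj_left.1 this)
  refine ⟨⟨(⟨φ, φ', a1.1, a2.1⟩, ⟨ψ, ψ', a1.2, a2.2⟩), h1, ?_⟩, h2⟩
  have := h1.reach (Reach.symm hs)
  rw [h2] at this
  exact hs'.reach this

variable (τ)

lemma isAct : IsAct T τ.GG where
  ins_smul g κ := g.2.1.ins κ
  flip_smul g κ := g.2.1.flip κ
  no_inv g κ h := Y.inv_ne (τ.ty κ) (by rw [← τ.ty_flip, ← h, ty_smul])
  cell_fix g κ h := τ.ext _ _ (ty_smul g κ) ((g.2.1.ins κ).trans (act_eq_self.2 h))
  base_X g := g.2.2
  free g h := by
    have := g.2.1.rigid X_base (act_eq_self.1 h)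
    exact Subtype.ext (Prod.ext (Equiv.ext this.1) (Equiv.ext this.2))
  closed g a e b hX hg := by
    have h1 : T.X (act g (a ++ e :: b)) := g.2.2.reach (g.2.1.reach hX)
    rw [act_append, act_cons, hg] at h1
    exact closed hX (h1.replace hX) (by simp [sp_act])

end Typed

end Pool.Agent.MP_8a4945_al.H85
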