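import Pool.Agent.MP_8a4945_al.H85.Free

namespace Pool.Agent.MP_8a4945_al.H85

universe u

open PreTree Tree2

/-- terms recording the history of a label -/
inductive Tm (C : Type u) : Type u
  | init (i : ℕ) : Tm C
  | nil : Tm C
  | cons (x y : Tm C) : Tm C
  | out (c : C) (t : Tm C) (j : ℕ) : Tm C

namespace Tm

variable {S C : Type u}

def enc : List (Tm C) → Tm C
  | [] => nil
  | x :: l => cons x (enc l)

lemma enc_inj : ∀ {l l' : List (Tm C)}, enc l = enc l' → l = l'
  | [], [], _ => rfl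
  | [], _ :: _, h => by simp [enc] at h
  | _ :: _, [], h => by simp [enc] at h
  | x :: l, y :: l', h => by
    simp only [enc, cons.injEq] at h
    rw [h.1, enc_inj h.2]

def size : Tm C → ℕ
  | init _ => 0
  | nil => 0
  | cons x y => size x + size y + 1
  | out _ t _ => size t + 1

lemma size_le_enc {x : Tm C} : ∀ {l : List (Tm C)}, x ∈ l → size x ≤ size (enc l)
  | y :: l, h => by
    rcases List.mem_cons.1 h with rfl | h
    · simp only [enc, size]; omega
    · have := size_le_enc h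
      simp only [enc, size]; omega

variable (Y : Sys S C) (w : List S)

def spo : Tm C → Option S
  | init i => w[i]?
  | out c _ j => (Y.src (Y.inv c))[j]?
  | _ => none

def outsT (c : C) (l : List (Tm C)) : List (Tm C) :=
  (List.range (Y.src (Y.inv c)).length).map (out c (enc l))

inductive Nm : Tm C → Prop
  | init (i : ℕ) : i < w.length → Nm (init i)
  | out (c : C) (l : List (Tm C)) (j : ℕ) : (∀ x ∈ l, Nm x) →
      l.map (spo Y w) = (Y.src c).map some → (∀ l', l ≠ outsT Y (Y.inv c) l') →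
      j < (Y.src (Y.inv c)).length → Nm (out c (enc l) j)

variable {Y w}

lemma Nm.isSome {x : Tm C} (h : Nm Y w x) : (spo Y w x).isSome := by
  cases h with
  | init i h => simp [spo, h]
  | out c l j _ _ _ h => simp [spo, h]

lemma Nm.out_inv {c : C} {x : Tm C} {j : ℕ} (h : Nm Y w (Tm.out c x j)) :
    ∃ l, x = enc l ∧ (∀ x ∈ l, Nm Y w x) ∧ l.map (spo Y w) = (Y.src c).map some ∧
      (∀ l', l ≠ outsT Y (Y.inv c) l') := by
  generalize hy : Tm.out c x j = y at h
  cases h with
  | init i h => cases hy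
  | out c' l j' h1 h2 h3 _ =>
    cases hy
    exact ⟨l, rfl, h1, h2, h3⟩

variable (Y w)

abbrev EE : Type u := {x : Tm C // Nm Y w x}

def sp (e : EE Y w) : S := (spo Y w e.1).get e.2.isSome

lemma some_sp (e : EE Y w) : some (sp Y w e) = spo Y w e.1 := by simp [sp]

lemma map_sp_iff (t : List (EE Y w)) (u : List S) :
    t.map (sp Y w) = u ↔ (t.map Subtype.val).map (spo Y w) = u.map some := by
  have : (t.map Subtype.val).map (spo Y w) = (t.map (sp Y w)).map some := by
    rw [List.map_map, List.map_map]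
    exact List.map_congr_left fun e _ => (some_sp Y w e).symm
  rw [this]
  exact (List.map_injective_iff.2 (Option.some_injective _)).eq_iff.symm

abbrev Cr : Type u := {p : C × List (EE Y w) // p.2.map (sp Y w) = Y.src p.1 ∧
  ∀ l', p.2.map Subtype.val ≠ outsT Y (Y.inv p.1) l'}

variable {Y w}

def outsE (κ : Cr Y w) : List (EE Y w) :=
  (List.finRange (Y.src (Y.inv κ.1.1)).length).map fun j : Fin _ =>
    ⟨out κ.1.1 (enc (κ.1.2.map Subtype.val)) j.1,
      Nm.out _ _ _ (fun x hx => by obtain ⟨e, -, rfl⟩ := List.mem_map.1 hx; exact e.2)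
        ((map_sp_iff Y w _ _).1 κ.2.1) κ.2.2 j.2⟩

lemma val_outsE (κ : Cr Y w) :
    (outsE κ).map Subtype.val = outsT Y κ.1.1 (κ.1.2.map Subtype.val) := by
  rw [outsE, outsT, List.map_map, ← List.map_coe_finRange_eq_range, List.map_map]
  rfl

lemma mem_outsE {κ : Cr Y w} {e : EE Y w} : e ∈ outsE κ ↔
    ∃ j < (Y.src (Y.inv κ.1.1)).length, e.1 = out κ.1.1 (enc (κ.1.2.map Subtype.val)) j := by
  rw [← List.mem_map_of_injective Subtype.val_injective, val_outsE, outsT]
  simp [eq_comm]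

lemma outsE_ne (κ : Cr Y w) : outsE κ ≠ [] := by
  intro h
  have := congrArg List.length h
  simp [outsE, Y.src_ne] at this

lemma cr_eq {κ ν : Cr Y w} {e : EE Y w} (h1 : e ∈ outsE κ) (h2 : e ∈ outsE ν) : κ = ν := by
  obtain ⟨j, -, h1⟩ := mem_outsE.1 h1
  obtain ⟨j', -, h2⟩ := mem_outsE.1 h2
  rw [h1, out.injEq] at h2
  exact Subtype.ext (Prod.ext h2.1
    (List.map_injective_iff.2 Subtype.val_injective (enc_inj h2.2.1)))

lemma exists_cr {c : C} {x : Tm C} {j : ℕ} (h : Nm Y w (Tm.out c x j)) :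
    ∃ κ : Cr Y w, κ.1.1 = c ∧ enc (κ.1.2.map Subtype.val) = x := by
  obtain ⟨l, rfl, h1, h2, h3⟩ := h.out_inv
  have hv : (l.attachWith (Nm Y w) h1).map Subtype.val = l := by simp
  exact ⟨⟨(c, l.attachWith (Nm Y w) h1), (map_sp_iff Y w _ _).2 (by rw [hv]; exact h2),
    by rw [hv]; exact h3⟩, rfl, by rw [hv]⟩

variable (Y w)

def pre : PreTree (EE Y w) (Cr Y w × Bool) where
  ins κ := bif κ.2 then κ.1.1.2 else outsE κ.1
  flip κ := (κ.1, !κ.2)
  flip_flip κ := by simp
  ins_ne := by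
    rintro ⟨κ, _ | _⟩
    · exact outsE_ne κ
    · intro h
      have := κ.2.1
      simp only [cond_true] at h
      rw [h] at this
      exact Y.src_ne _ this.symm

def baseE : List (EE Y w) :=
  (List.finRange w.length).map fun i => ⟨init i.1, Nm.init i.1 i.2⟩

lemma mem_baseE {e : EE Y w} : e ∈ baseE Y w ↔ ∃ i, e.1 = init i := by
  simp only [baseE, List.mem_map, List.mem_finRange, true_and]
  constructor
  · rintro ⟨i, rfl⟩; exact ⟨i, rfl⟩
  · obtain ⟨x, hx⟩ := e
    rintro ⟨i, rfl⟩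
    cases hx with
    | init _ h => exact ⟨⟨i, h⟩, rfl⟩

lemma base_ori : (pre Y w).IsOri (baseE Y w) {κ | κ.2 = true} := by
  refine ⟨?_, ?_, ?_, ?_, ?_, ?_, ?_⟩
  · rintro ⟨κ, _ | _⟩ <;> simp [pre]
  · refine (List.nodup_finRange _).map fun i j h => ?_
    have := congrArg Subtype.val h
    simp only [init.injEq] at this
    exact Fin.ext (by simpa using this)
  · rintro e he ⟨κ, b⟩ (rfl : b = true) h
    obtain ⟨i, hi⟩ := (mem_baseE Y w).1 he
    obtain ⟨j, -, hj⟩ := (mem_outsE (κ := κ)).1 h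
    rw [hi] at hj
    cases hj
  · rintro ⟨x, hx⟩ he
    cases hx with
    | init i h => exact absurd ((mem_baseE Y w).2 ⟨i, rfl⟩) he
    | out c l j h1 h2 h3 h4 =>
      obtain ⟨κ, rfl, h5⟩ := exists_cr (Nm.out c l j h1 h2 h3 h4)
      exact ⟨(κ, true), rfl, (mem_outsE (κ := κ)).2 ⟨j, h4, by rw [h5]⟩⟩
  · rintro ⟨κ, b⟩ (rfl : b = true) ⟨ν, b⟩ (rfl : b = true) e h1 h2
    rw [cr_eq (κ := κ) (ν := ν) h1 h2]
  · rintro ⟨κ, b⟩ (rfl : b = true)
    refine (List.nodup_finRange _).map fun i j h => ?_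
    have := congrArg Subtype.val h
    simp only [out.injEq, true_and] at this
    exact Fin.ext (by simpa using this)
  · refine ⟨fun e => size e.1, ?_⟩
    rintro ⟨κ, b⟩ (rfl : b = true) e he e' he'
    obtain ⟨j, -, hj⟩ := (mem_outsE (κ := κ)).1 he'
    have := size_le_enc (List.mem_map_of_mem (f := Subtype.val) (l := κ.1.2) he)
    simp only [hj, size]
    omega

def tree : Tree2 (EE Y w) (Cr Y w × Bool) where
  toPreTree := pre Y w
  base := baseE Y w
  base_ori := ⟨_, base_ori Y w⟩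

lemma sp_outsE (κ : Cr Y w) : (outsE κ).map (sp Y w) = Y.src (Y.inv κ.1.1) := by
  rw [map_sp_iff, val_outsE, outsT, List.map_map]
  refine List.ext_getElem (by simp) fun i h1 h2 => ?_
  simp only [List.length_map] at h2
  simp [spo, h2]

def typed : Typed Y (tree Y w) where
  sp := sp Y w
  ty κ := bif κ.2 then κ.1.1.1 else Y.inv κ.1.1.1
  sp_ins := by
    rintro ⟨κ, _ | _⟩
    · exact sp_outsE Y w κ
    · exact κ.2.1
  ty_flip := by
    rintro ⟨κ, _ | _⟩
    · exact (Y.inv_inv _).symm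
    · rfl
  ex := by
    intro c t ht
    by_cases h : ∀ l', t.map Subtype.val ≠ outsT Y (Y.inv c) l'
    · exact ⟨(⟨(c, t), ht, h⟩, true), rfl, rfl⟩
    · push Not at h
      obtain ⟨l', h⟩ := h
      have h0 : out (Y.inv c) (enc l') 0 ∈ t.map Subtype.val := by
        rw [h, outsT]
        exact List.mem_map_of_mem (List.mem_range.2 (List.length_pos_iff.2 (Y.src_ne _)))
      obtain ⟨e, -, he⟩ := List.mem_map.1 h0
      obtain ⟨κ, h1, h2⟩ := exists_cr (he ▸ e.2)
      refine ⟨(κ, false), by simp [h1, Y.inv_inv], ?_⟩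
      apply List.map_injective_iff.2 Subtype.val_injective
      rw [h, ← enc_inj h2, ← h1]
      exact val_outsE κ
  ext := by
    have key : ∀ κ ν : Cr Y w, κ.1.1 = Y.inv ν.1.1 → κ.1.2 = outsE ν → False := by
      intro κ ν h1 h2
      refine κ.2.2 (ν.1.2.map Subtype.val) ?_
      rw [h2, val_outsE, h1, Y.inv_inv]
    rintro ⟨κ, _ | _⟩ ⟨ν, _ | _⟩ h1 h2
    · obtain ⟨e, he⟩ := List.exists_mem_of_ne_nil _ (outsE_ne κ)
      have h3 : outsE κ = outsE ν := h2
      rw [cr_eq he (h3 ▸ he)]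
    · exact (key ν κ h1.symm h2.symm).elim
    · exact (key κ ν h1 h2).elim
    · rw [show κ = ν from Subtype.ext (Prod.ext h1 h2)]

lemma sp_base : (baseE Y w).map (sp Y w) = w := by
  rw [map_sp_iff, baseE, List.map_map, List.map_map]
  refine List.ext_getElem (by simp) fun i h1 h2 => ?_
  simp only [List.length_map] at h2
  simp [spo, h2]

end Tm

theorem exists_model {S C : Type u} (Y : Sys S C) (w : List S) :
    ∃ (E K : Type u) (T : Tree2 E K) (τ : Typed Y T), T.base.map τ.sp = w :=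
  ⟨_, _, Tm.tree Y w, Tm.typed Y w, Tm.sp_base Y w⟩

end Pool.Agent.MP_8a4945_al.H85
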