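import Pool.Agent.MP_8a4945_al.H85.Bridge
import Pool.Agent.MP_8a4945_al.H85.Model
import Pool.Agent.MP_8a4945_al.H85.Contra

namespace Pool.Agent.MP_8a4945_al.H85

open PreTree Tree2

universe u w

variable {B : Type u}

def tl : List B → List (Option B)
  | [] => []
  | x :: l => some x :: none :: tl l

def mid : List B → List (Option B)
  | [] => []
  | [x] => [some x]
  | x :: y :: l => some x :: none :: mid (y :: l)

lemma tl_append (a b : List B) : tl (a ++ b) = tl a ++ tl b := by
  induction a with
  | nil => rfl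
  | cons x a ih => simp [tl, ih]

lemma tl_eq_mid : ∀ {u : List B}, u ≠ [] → tl u = mid u ++ [none]
  | [x], _ => rfl
  | x :: y :: l, _ => by
    have := tl_eq_mid (u := y :: l) (by simp)
    rw [tl, this, mid]; rfl

lemma mid_head : ∀ {u : List B}, u ≠ [] → ∃ x t, mid u = some x :: t
  | [x], _ => ⟨x, [], rfl⟩
  | x :: _ :: _, _ => ⟨x, _, rfl⟩

lemma mid_last : ∀ {u : List B}, u ≠ [] → ∃ x t, mid u = t ++ [some x]
  | [x], _ => ⟨x, [], rfl⟩
  | x :: y :: l, _ => by
    obtain ⟨z, t, h⟩ := mid_last (u := y :: l) (by simp)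
    exact ⟨z, some x :: none :: t, by rw [mid, h]; rfl⟩

lemma reduce_tl (W : List B) : (tl W).reduceOption = W := by
  induction W with
  | nil => rfl
  | cons x W ih => simp [tl, ih]

lemma tl_start : ∀ {u W : List B} {b' : List (Option B)}, u ≠ [] → tl W = mid u ++ b' →
    ∃ b, W = u ++ b ∧ b' = none :: tl b
  | [x], [], _, _, h => by simp [tl, mid] at h
  | [x], y :: W, b', _, h => by
    simp only [tl, mid, List.cons_append, List.nil_append, List.cons.injEq, Option.some.injEq] at h
    exact ⟨W, by simp [h.1], h.2.symm⟩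
  | x :: z :: l, [], _, _, h => by simp [tl, mid] at h
  | x :: z :: l, y :: W, b', _, h => by
    simp only [tl, mid, List.cons_append, List.cons.injEq, Option.some.injEq, true_and] at h
    obtain ⟨b, h1, h2⟩ := tl_start (u := z :: l) (by simp) h.2
    exact ⟨b, by simp [h.1, h1], h2⟩

lemma tl_split {u : List B} (hu : u ≠ []) : ∀ {W : List B} {a' b' : List (Option B)},
    tl W = a' ++ mid u ++ b' → ∃ a b, W = a ++ u ++ b ∧ a' = tl a ∧ b' = none :: tl b
  | W, [], b', h => by
    obtain ⟨b, h1, h2⟩ := tl_start hu h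
    exact ⟨[], b, h1, rfl, h2⟩
  | [], _ :: _, _, h => by simp [tl] at h
  | y :: W, [z], b', h => by
    obtain ⟨x, t, hx⟩ := mid_head hu
    simp [tl, hx] at h
  | y :: W, z :: z' :: a', b', h => by
    simp only [tl, List.cons_append, List.cons.injEq] at h
    obtain ⟨a, b, h1, h2, h3⟩ := tl_split hu h.2.2
    exact ⟨y :: a, b, by simp [h1], by simp [tl, h.1, h.2.1, h2], h3⟩

lemma enc_chain (W : List B) :
    (none :: tl W).IsChain (fun x y : Option B => x = none ↔ ¬ y = none) := by
  induction W with
  | nil => simp [tl]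
  | cons x W ih => simpa [tl] using ih

lemma enc_last (W : List B) : ∃ t, none :: tl W = t ++ [none] := by
  rcases eq_or_ne W [] with rfl | h
  · exact ⟨[], rfl⟩
  · exact ⟨none :: mid W, by rw [tl_eq_mid h]; rfl⟩

/-- the encoding with separators -/
def sepEnc (Q : Pres B) : Enc Q (Option B) where
  Y :=
    { inv := inv0 Q
      src := fun c => mid (src0 Q c)
      inv_inv := fun c => by simp [inv0]
      inv_ne := fun c h => by simpa [inv0] using congrArg Prod.snd h
      src_ne := fun c h => by
        obtain ⟨x, t, hx⟩ := mid_head (src0_ne Q c)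
        simp [hx] at h }
  inv_eq _ := rfl
  enc W := none :: tl W
  dec := List.reduceOption
  dec_enc W := by simp [reduce_tl]
  enc_app a c b := by simp [tl_append, tl_eq_mid (src0_ne Q c)]
  enc_split W a' c b' h := by
    rcases a' with _ | ⟨z, a'⟩
    · obtain ⟨x, t, hx⟩ := mid_head (src0_ne Q c)
      simp [hx] at h
    · simp only [List.cons_append, List.cons.injEq] at h
      obtain ⟨a, b, h1, h2, h3⟩ := tl_split (src0_ne Q c) h.2
      exact ⟨a, b, h1, by rw [← h.1, h2], h3⟩

/-- the trivial encoding -/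
def idEnc (Q : Pres B) : Enc Q B where
  Y :=
    { inv := inv0 Q
      src := src0 Q
      inv_inv := fun c => by simp [inv0]
      inv_ne := fun c h => by simpa [inv0] using congrArg Prod.snd h
      src_ne := src0_ne Q }
  inv_eq _ := rfl
  enc W := W
  dec W := W
  dec_enc _ := rfl
  enc_app _ _ _ := rfl
  enc_split _ a' _ b' h := ⟨a', b', h, rfl, rfl⟩

lemma isSep {Q : Pres B} {v : Word Q} {E K : Type u} {T : Tree2 E K}
    (τ : Typed (sepEnc Q).Y T) (hb : T.base.map τ.sp = (sepEnc Q).enc v.val) :
    IsSep T (fun e => τ.sp e = none) where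
  head κ e t h := by
    obtain ⟨x, t', hx⟩ := mid_head (src0_ne Q (τ.ty κ))
    have h1 : (T.ins κ).map τ.sp = mid (src0 Q (τ.ty κ)) := τ.sp_ins κ
    rw [h, hx] at h1
    simp only [List.map_cons, List.cons.injEq] at h1
    simp [h1.1]
  last κ e t h := by
    obtain ⟨x, t', hx⟩ := mid_last (src0_ne Q (τ.ty κ))
    have h1 : (T.ins κ).map τ.sp = mid (src0 Q (τ.ty κ)) := τ.sp_ins κ
    rw [h, hx, List.map_append] at h1
    have := (List.append_inj' h1 rfl).2
    simp only [List.map_cons, List.map_nil, List.cons.injEq, and_true] at this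
    simp [this]
  alt a x y b h := by
    obtain ⟨W, hW⟩ := Enc.spell hb h
    have h1 := enc_chain W.val
    have h2 : none :: tl W.val = _ := hW.symm
    rw [h2, List.map_append, List.map_cons, List.map_cons, List.isChain_append_cons_cons] at h1
    exact h1.2.1
  first x b h := by
    obtain ⟨W, hW⟩ := Enc.spell hb h
    exact (List.cons.inj hW).1
  final a x h := by
    obtain ⟨W, hW⟩ := Enc.spell hb h
    obtain ⟨t, ht⟩ := enc_last W.val
    have h2 : (a ++ [x]).map τ.sp = t ++ [none] := hW.trans ht
    rw [List.map_append] at h2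
    simpa using (List.append_inj' h2 rfl).2

lemma IsAct.comp {E K : Type u} {T : Tree2 E K} {G : Type u} [Group G] [MulAction G E]
    [MulAction G K] (hA : IsAct T G) {H : Type w} [Group H] (e : H ≃* G) :
    @IsAct E K T H _ (MulAction.compHom E e.toMonoidHom) (MulAction.compHom K e.toMonoidHom) := by
  let _ := MulAction.compHom E e.toMonoidHom
  let _ := MulAction.compHom K e.toMonoidHom
  refine ⟨fun g => hA.ins_smul (e g), fun g => hA.flip_smul (e g), fun g => hA.no_inv (e g),
    fun g => hA.cell_fix (e g), fun g => hA.base_X (e g),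
    fun g h => (map_eq_one_iff e e.injective).1 (hA.free (e g) h), fun g a x b h1 h2 => ?_⟩
  obtain ⟨l, hl⟩ := hA.closed (e g) a x b h1 h2
  obtain ⟨l, rfl⟩ := e.surjective l
  exact ⟨l, hl⟩

theorem diagram_not_bad (Q : Pres B) (v : Word Q) {H : Type w} [Group H]
    (e : H ≃* DiagramGroup Q v) {x : Fin 3 → H} (hB : Bad H x) : False := by
  obtain ⟨E, K, T, τ, hb⟩ := exists_model (sepEnc Q).Y ((sepEnc Q).enc v.val)
  obtain ⟨e'⟩ := Enc.bridge hb
  let _ := MulAction.compHom E (e.trans e').toMonoidHom
  let _ := MulAction.compHom K (e.trans e').toMonoidHom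
  exact (τ.isAct.comp (e.trans e')).not_bad hB (isSep τ hb)

end Pool.Agent.MP_8a4945_al.H85
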