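import Pool.Agent.MP_8a4945_al.H85.Defs
import Pool.Agent.MP_8a4945_al.H85.Free

namespace Pool.Agent.MP_8a4945_al.H85

open CategoryTheory

universe u

variable {B : Type u} (Q : Pres B)

/-- the left side of an oriented relation -/
def src0 (c : Q.rel × Bool) : List B := bif c.2 then c.1.1.1 else c.1.1.2

def inv0 (c : Q.rel × Bool) : Q.rel × Bool := (c.1, !c.2)

lemma src0_ne (c : Q.rel × Bool) : src0 Q c ≠ [] := by
  obtain ⟨r, _ | _⟩ := c
  · exact (Q.ne_nil _ r.2).2
  · exact (Q.ne_nil _ r.2).1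

variable {Q}

instance isIso_all {X Y : CategoryTheory.Quotient (squareRel Q)} (f : X ⟶ Y) : IsIso f :=
  @IsIso.of_groupoid _ (CategoryTheory.Quotient.groupoid (squareRel Q)) _ _ f

/-- the morphism of an edge -/
def posE {x y : Word Q} (e : x ⟶ y) : vertex Q x ⟶ vertex Q y :=
  (CategoryTheory.Quotient.functor (squareRel Q)).map ((Quiver.FreeGroupoid.of (Word Q)).map e)

/-- the morphism of an oriented edge -/
noncomputable def ed (x y : Word Q) (a : List B) (c : Q.rel × Bool) (b : List B)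
    (hx : x.val = a ++ src0 Q c ++ b) (hy : y.val = a ++ src0 Q (inv0 Q c) ++ b) :
    vertex Q x ⟶ vertex Q y :=
  match c, hx, hy with
  | (r, true), hx, hy => posE ⟨(a, r, b), hx, hy⟩
  | (r, false), hx, hy => inv (posE (x := y) (y := x) ⟨(a, r, b), hy, hx⟩)

lemma hom_induction (P : ∀ x y : Word Q, (vertex Q x ⟶ vertex Q y) → Prop) (x : Word Q)
    (hid : P x x (𝟙 _))
    (hstep : ∀ y z f a c b hy hz, P x y f → P x z (f ≫ ed y z a c b hy hz)) :
    ∀ y f, P x y f := by
  intro y f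
  obtain ⟨f, rfl⟩ := (CategoryTheory.Quotient.functor (squareRel Q)).map_surjective f
  obtain ⟨p, rfl⟩ := Quot.exists_rep f
  change Quiver.Path (V := Quiver.Symmetrify (Word Q)) x y at p
  induction p with
  | nil => exact hid
  | @cons y z p e ih =>
    rcases e with e | e
    · exact hstep y z _ e.1.1 (e.1.2.1, true) e.1.2.2 e.2.1 e.2.2 ih
    · have := hstep y z _ e.1.1 (e.1.2.1, false) e.1.2.2 e.2.2 e.2.1 ih
      convert this using 1
      have h2 : ed y z e.1.1 (e.1.2.1, false) e.1.2.2 e.2.2 e.2.1 =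
          (CategoryTheory.Quotient.functor (squareRel Q)).map
            (Groupoid.inv ((Quiver.FreeGroupoid.of (Word Q)).map e)) := by
        change inv (posE e) = _
        symm
        apply IsIso.eq_inv_of_hom_inv_id
        rw [posE, ← Functor.map_comp, Groupoid.comp_inv, CategoryTheory.Functor.map_id]
      rw [h2]
      rfl

lemma ed_cancel (x y : Word Q) (a : List B) (c : Q.rel × Bool) (b : List B) (hx hy hx' hy') :
    ed x y a c b hx hy ≫ ed y x a (inv0 Q c) b hx' hy' = 𝟙 _ := by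
  obtain ⟨r, _ | _⟩ := c
  · exact IsIso.inv_hom_id _
  · exact IsIso.hom_inv_id _

variable (v : Word Q)

open Classical in
/-- the loop at `v` attached to a morphism -/
noncomputable def val {x y : Word Q} (f : vertex Q x ⟶ vertex Q y) : DiagramGroup Q v :=
  if h : Nonempty (vertex Q v ⟶ vertex Q x) then
    (show DiagramGroup Q v from
      asIso (h.some ≫ f ≫ inv (Nonempty.some (⟨h.some ≫ f⟩ : Nonempty (vertex Q v ⟶ vertex Q y)))))⁻¹
  else 1

lemma val_comp {x y z : Word Q} (f : vertex Q x ⟶ vertex Q y) (g : vertex Q y ⟶ vertex Q z) :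
    val v (f ≫ g) = val v f * val v g := by
  unfold val
  by_cases h : Nonempty (vertex Q v ⟶ vertex Q x)
  · have h' : Nonempty (vertex Q v ⟶ vertex Q y) := ⟨h.some ≫ f⟩
    rw [dif_pos h, dif_pos h, dif_pos h', ← mul_inv_rev]
    congr 1
    apply Iso.ext
    simp [Aut.Aut_mul_def]
  · have h' : ¬ Nonempty (vertex Q v ⟶ vertex Q y) := fun h' => h ⟨h'.some ≫ inv f⟩
    rw [dif_neg h, dif_neg h, dif_neg h', mul_one]

lemma val_id (x : Word Q) : val v (𝟙 (vertex Q x)) = 1 := by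
  have := val_comp v (𝟙 (vertex Q x)) (𝟙 (vertex Q x))
  rw [Category.id_comp] at this
  simpa using this

lemma eq_id_of_val {f : vertex Q v ⟶ vertex Q v} (h : val v f = 1) : f = 𝟙 _ := by
  unfold val at h
  have h' : Nonempty (vertex Q v ⟶ vertex Q v) := ⟨𝟙 _⟩
  rw [dif_pos h', inv_eq_one] at h
  have h2 : h'.some ≫ f ≫ inv h'.some = 𝟙 _ := congrArg Iso.hom h
  rw [← Category.assoc, IsIso.comp_inv_eq, Category.id_comp] at h2
  rw [← cancel_epi h'.some, h2, Category.comp_id]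

/-- the value of an oriented edge -/
noncomputable def nu (a : List B) (c : Q.rel × Bool) (b : List B) : DiagramGroup Q v :=
  val v (ed ⟨a ++ src0 Q c ++ b, by simp [src0_ne]⟩ ⟨a ++ src0 Q (inv0 Q c) ++ b, by simp [src0_ne]⟩
    a c b rfl rfl)

lemma val_ed (x y : Word Q) (a : List B) (c : Q.rel × Bool) (b : List B) (hx hy) :
    val v (ed x y a c b hx hy) = nu v a c b := by
  obtain ⟨x, _⟩ := x
  obtain ⟨y, _⟩ := y
  simp only at hx hy
  subst hx hy
  rfl

lemma nu_cancel (a : List B) (c : Q.rel × Bool) (b : List B) :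
    nu v a c b * nu v a (inv0 Q c) b = 1 := by
  rw [← val_ed v ⟨a ++ src0 Q (inv0 Q c) ++ b, by simp [src0_ne]⟩
    ⟨a ++ src0 Q c ++ b, by simp [src0_ne]⟩ a (inv0 Q c) b rfl (by simp [inv0]), nu,
    ← val_comp, ed_cancel, val_id]

lemma nu_swap_pos (a m b : List B) (r s : Q.rel) :
    nu v a (r, true) (m ++ s.1.1 ++ b) * nu v (a ++ r.1.2 ++ m) (s, true) b =
      nu v (a ++ r.1.1 ++ m) (s, true) b * nu v a (r, true) (m ++ s.1.2 ++ b) := by
  have h1 := (Q.ne_nil _ r.2)
  let x : Word Q := ⟨a ++ r.1.1 ++ m ++ s.1.1 ++ b, by simp [h1.1]⟩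
  let y : Word Q := ⟨a ++ r.1.2 ++ m ++ s.1.1 ++ b, by simp [h1.2]⟩
  let y' : Word Q := ⟨a ++ r.1.1 ++ m ++ s.1.2 ++ b, by simp [h1.1]⟩
  let z : Word Q := ⟨a ++ r.1.2 ++ m ++ s.1.2 ++ b, by simp [h1.2]⟩
  rw [← val_ed v x y a (r, true) _ (by simp [x, src0]) (by simp [y, src0, inv0]),
    ← val_ed v y z _ (s, true) _ (by simp [y, src0]) (by simp [z, src0, inv0]),
    ← val_ed v x y' _ (s, true) _ (by simp [x, src0]) (by simp [y', src0, inv0]),
    ← val_ed v y' z a (r, true) _ (by simp [y', src0]) (by simp [z, src0, inv0]),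
    ← val_comp, ← val_comp]
  congr 1
  exact CategoryTheory.Quotient.sound (squareRel Q) (Square.mk _ _ _ _ a m b r s rfl rfl rfl rfl)

lemma nu_swap (a m b : List B) (c d : Q.rel × Bool) :
    nu v a c (m ++ src0 Q d ++ b) * nu v (a ++ src0 Q (inv0 Q c) ++ m) d b =
      nu v (a ++ src0 Q c ++ m) d b * nu v a c (m ++ src0 Q (inv0 Q d) ++ b) := by
  have hneg : ∀ a (r : Q.rel) b, nu v a (r, false) b = (nu v a (r, true) b)⁻¹ := fun a r b =>
    eq_inv_of_mul_eq_one_right (nu_cancel v a (r, true) b)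
  obtain ⟨r, _ | _⟩ := c <;> obtain ⟨s, _ | _⟩ := d <;>
    have h := nu_swap_pos v a m b r s <;>
    simp only [hneg, src0, inv0, cond_true, cond_false, Bool.not_true, Bool.not_false]
  · rw [← mul_inv_rev, ← mul_inv_rev, h]
  · rw [inv_mul_eq_iff_eq_mul, ← mul_assoc, h]; simp
  · rw [mul_inv_eq_iff_eq_mul, mul_assoc, h]; simp
  · exact h

end Pool.Agent.MP_8a4945_al.H85
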