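import Pool.Agent.MP_8a4945_al.H85.Act

namespace Pool.Agent.MP_8a4945_al.H85

universe u v w

open PreTree Tree2

variable {E : Type u} {K : Type v}

/-- words alternate separators and letters -/
structure IsSep (T : Tree2 E K) (sep : E → Prop) : Prop where
  head : ∀ κ e t, T.ins κ = e :: t → ¬ sep e
  last : ∀ κ e t, T.ins κ = t ++ [e] → ¬ sep e
  alt : ∀ a x y b, T.X (a ++ x :: y :: b) → (sep x ↔ ¬ sep y)
  first : ∀ x b, T.X (x :: b) → sep x
  final : ∀ a x, T.X (a ++ [x]) → sep x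

/-- `e` follows `p` in `z` -/
def NxR (z : List E) (p e : E) : Prop := ∃ a b, z = a ++ p :: e :: b

/-- `e` precedes `p` in `z` -/
def NxL (z : List E) (p e : E) : Prop := ∃ a b, z = a ++ e :: p :: b

namespace IsSep

variable {T : Tree2 E K} {sep : E → Prop} (hS : IsSep T sep)
include hS

lemma reach_first {p : E} (hp : sep p) {b l : List E} (h : T.Reach (p :: b) l) :
    ∃ b', l = p :: b' := by
  induction h with
  | refl => exact ⟨b, rfl⟩
  | tail _ h ih =>
    obtain ⟨a, κ, b1, rfl, rfl⟩ := h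
    obtain ⟨b', h⟩ := ih
    rcases a with _ | ⟨x, a⟩
    · obtain ⟨e, t, he⟩ := List.exists_cons_of_ne_nil (T.ins_ne κ)
      rw [he] at h
      simp only [List.nil_append, List.cons_append, List.cons.injEq] at h
      exact absurd (h.1 ▸ hp) (hS.head κ e t he)
    · simp only [List.cons_append, List.cons.injEq] at h
      exact ⟨_, by rw [h.1]; rfl⟩

lemma reach_last {p : E} (hp : sep p) {a l : List E} (h : T.Reach (a ++ [p]) l) :
    ∃ a', l = a' ++ [p] := by
  induction h with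
  | refl => exact ⟨a, rfl⟩
  | tail _ h ih =>
    obtain ⟨a1, κ, b, rfl, rfl⟩ := h
    obtain ⟨a', h⟩ := ih
    rcases b.eq_nil_or_concat' with rfl | ⟨b, x, rfl⟩
    · rcases (T.ins κ).eq_nil_or_concat' with he | ⟨t, e, he⟩
      · exact absurd he (T.ins_ne κ)
      · rw [he, List.append_nil, ← List.append_assoc] at h
        have := (List.append_inj' h rfl).2
        simp only [List.cons.injEq, and_true] at this
        exact absurd (this ▸ hp) (hS.last κ e t he)
    · rw [← List.append_assoc] at h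
      have := (List.append_inj' h rfl).2
      exact ⟨a1 ++ T.outs κ ++ b, by rw [this, List.append_assoc _ b]⟩

lemma left_nb {z z' : List E} {p e : E} (hz : T.X z) (hz' : T.X z') (h : NxR z p e)
    (he : ¬ sep e) (hm : e ∈ z') : NxR z' p e := by
  obtain ⟨a, b, rfl⟩ := h
  obtain ⟨a', b', rfl⟩ := List.append_of_mem hm
  have hp : sep p := (hS.alt _ _ _ _ hz).2 he
  obtain ⟨a2, rfl⟩ := hS.reach_last hp (conv (a := a ++ [p]) (by simpa using hz) hz').1
  exact ⟨a2, b', by simp⟩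

lemma right_nb {z z' : List E} {p e : E} (hz : T.X z) (hz' : T.X z') (h : NxL z p e)
    (he : ¬ sep e) (hm : e ∈ z') : NxL z' p e := by
  obtain ⟨a, b, rfl⟩ := h
  obtain ⟨a', b', rfl⟩ := List.append_of_mem hm
  have hp : sep p := by
    by_contra h
    exact he ((hS.alt _ _ _ _ hz).2 h)
  obtain ⟨b2, rfl⟩ := hS.reach_first hp (conv hz hz').2
  exact ⟨a', b2, rfl⟩

end IsSep

variable {G : Type w} [Group G] [MulAction G E]

/-- abstract properties of being the next label on one side -/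
structure IsNx (T : Tree2 E K) (sep : E → Prop) (G : Type w) [Group G] [MulAction G E]
    (nx : List E → E → E → Prop) : Prop where
  mem : ∀ {z p e}, nx z p e → p ∈ z ∧ e ∈ z
  uniq : ∀ {z p e e'}, T.X z → nx z p e → nx z p e' → e = e'
  smul : ∀ {z p e} (g : G), nx z p e → nx (act g z) (g • p) (g • e)
  alt : ∀ {z p e}, T.X z → nx z p e → (sep p ↔ ¬ sep e)
  snd : ∀ {z z' p e}, T.X z → T.X z' → nx z p e → ¬ sep e → e ∈ z' → nx z' p e
  fst : ∀ {z z' p e}, T.X z → T.X z' → nx z p e → ¬ sep p → p ∈ z' → nx z' p e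
  ex : ∀ {z z' p e}, T.X z → T.X z' → nx z p e → p ∈ z' → ∃ e', nx z' p e'

lemma isNx_R {T : Tree2 E K} {sep : E → Prop} (hS : IsSep T sep) : IsNx T sep G NxR where
  mem := by rintro z p e ⟨a, b, rfl⟩; simp
  uniq := by
    rintro z p e e' hz ⟨a, b, rfl⟩ ⟨a', b', h⟩
    exact (List.cons.inj (nodup_cons_eq hz.nodup h).2).1
  smul := by rintro z p e g ⟨a, b, rfl⟩; exact ⟨act g a, act g b, by simp⟩
  alt := by rintro z p e hz ⟨a, b, rfl⟩; exact hS.alt _ _ _ _ hz
  snd := fun h1 h2 h3 h4 h5 => hS.left_nb h1 h2 h3 h4 h5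
  fst := fun h1 h2 h3 h4 h5 => hS.right_nb h1 h2 h3 h4 h5
  ex := by
    rintro z z' p e hz hz' ⟨a, b, rfl⟩ hp
    obtain ⟨a', b', rfl⟩ := List.append_of_mem hp
    obtain ⟨e', b2, rfl⟩ := List.exists_cons_of_ne_nil ((conv hz hz').2.ne_nil (by simp))
    exact ⟨e', a', b2, rfl⟩

lemma isNx_L {T : Tree2 E K} {sep : E → Prop} (hS : IsSep T sep) : IsNx T sep G NxL where
  mem := by rintro z p e ⟨a, b, rfl⟩; simp
  uniq := by
    rintro z p e e' hz ⟨a, b, rfl⟩ ⟨a', b', h⟩
    have := (nodup_cons_eq (a := a ++ [e]) (a' := a' ++ [e']) (b := b) (b' := b') (e := p)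
      (by simpa using hz.nodup) (by simpa using h)).1
    simpa using (List.append_inj' this rfl).2
  smul := by rintro z p e g ⟨a, b, rfl⟩; exact ⟨act g a, act g b, by simp⟩
  alt := by
    rintro z p e hz ⟨a, b, rfl⟩
    have := hS.alt _ _ _ _ hz
    tauto
  snd := fun h1 h2 h3 h4 h5 => hS.right_nb h1 h2 h3 h4 h5
  fst := fun h1 h2 h3 h4 h5 => hS.left_nb h1 h2 h3 h4 h5
  ex := by
    rintro z z' p e hz hz' ⟨a, b, rfl⟩ hp
    obtain ⟨a', b', rfl⟩ := List.append_of_mem hp
    have := (conv (a := a ++ [e]) (by simpa using hz) hz').1.ne_nil (by simp)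
    rcases a'.eq_nil_or_concat' with h | ⟨a2, e', rfl⟩
    · exact absurd h this
    · exact ⟨e', a2, b', by simp⟩

variable [MulAction G K]

namespace IsAct

variable {T : Tree2 E K} (hA : IsAct T G) {sep : E → Prop}
include hA

lemma consumed {nx : List E → E → E → Prop} (hN : IsNx T sep G nx) {g : G} {s : List E}
    (hs : T.X s) {p e : E} (h : nx s p e) (hp : g • p = p) (he : g • e ≠ e) :
    ¬ sep e ∧ ∃ κ ∈ T.ori s, κ ∉ T.ori (act g s) ∧ e ∈ T.ins κ := by
  have hgs := hA.X g hs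
  have h1 : nx (act g s) p (g • e) := by simpa [hp] using hN.smul g h
  have hsp : sep p := by
    by_contra hsp
    exact he (hN.uniq hgs h1 (hN.fst hs hgs h hsp (hN.mem h1).1))
  have hse : ¬ sep e := (hN.alt hs h).1 hsp
  have h2 : e ∉ act g s := fun h2 => he (hN.uniq hgs h1 (hN.snd hs hgs h hse h2))
  obtain ⟨ν, hν, heν⟩ := hgs.isOri.par e h2
  exact ⟨hse, T.flip ν, hs.flip_mem.2 fun h' => hs.isOri.root e (hN.mem h).2 ν h' heν,
    fun h' => hgs.flip_mem.1 h' hν, heν⟩

lemma boundary {nx : List E → E → E → Prop} (hN : IsNx T sep G nx) {g : G} {s s' : List E}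
    (hs : T.X s) (hm : Mono T g s) (hs' : T.X s') (hm' : Mono T g s') {p e : E}
    (h : nx s p e) (hp : g • p = p) (he : g • e ≠ e) : ∃ e', nx s' p e' ∧ g • e' ≠ e' := by
  obtain ⟨hse, κ, h1, h2, h3⟩ := hA.consumed hN hs h hp he
  obtain ⟨m, h4, h5⟩ := hA.transfer hs hm hs' h1 h2
  obtain ⟨a, b, hz, hb⟩ := fired (hA.X _ hs') (hA.X _ hs') h4 h5
  set z := a ++ T.ins κ ++ b with hzdef
  have hnz : nx z p e := hN.snd hs hz h hse (by simp [hzdef, h3])
  have hps : p ∈ s' := by
    by_contra hps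
    obtain ⟨ν, hν, hpν⟩ := hs'.isOri.par p hps
    have key : ∀ j : ℤ, ν ∈ T.ori (act (g ^ j) s') → ν ∉ T.ori (act (g ^ (j + 1)) s') := by
      intro j a1 a2
      have a3 : (g ^ (j - m))⁻¹ • ν ∈ T.ori z := by
        apply hb
        constructor
        · rw [← hA.mem_ori (hA.X _ hs'), ← act_mul, ← zpow_add]
          simpa using a1
        · rw [← hA.mem_ori (hA.X _ hs'), ← act_mul, ← zpow_add]
          convert a2 using 4
          ring
      refine hz.isOri.root p (hN.mem hnz).1 _ a3 ?_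
      rw [hA.outs_smul, mem_act, inv_inv, zpow_fix hp]
      exact hpν
    have b1 := key 0 (by simpa using hν)
    have b2 : ν ∉ T.ori (act (g ^ (-1 : ℤ)) s') := fun h => key (-1) h (by simpa using hν)
    have b3 := hm' (T.flip ν) (-1) 0 (0 + 1) (by norm_num) (by norm_num)
      ((hA.X _ hs').flip_mem.2 b2) ((hA.X _ hs').flip_mem.2 b1)
    exact hs'.flip_mem.1 (by simpa using b3) hν
  obtain ⟨e', he'⟩ := hN.ex hs hs' h hps
  refine ⟨e', he', fun hfix => ?_⟩
  have hm1 : ∀ j : ℤ, e' ∈ act (g ^ j) s' := fun j => by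
    rw [← zpow_fix hfix j]; exact smul_mem_act.2 (hN.mem he').2
  have hez : e' ∈ z := hb.mem (hA.X _ hs') hz (hA.X _ hs') (hm1 _) (hm1 _)
  have hse' : ¬ sep e' := (hN.alt hs' he').1 ((hN.alt hs h).2 hse)
  have := hN.uniq hz hnz (hN.snd hs' hz he' hse' hez)
  exact he (this ▸ hfix)

lemma fix_boundary {nx : List E → E → E → Prop} (hN : IsNx T sep G nx) {g h : G}
    (hc : Commute h g) {s : List E} (hs : T.X s) (hm : Mono T g s) {p e : E}
    (hn : nx s p e) (hp : g • p = p) (he : g • e ≠ e) : h • p = p := by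
  refine hA.fix_of_orbit hs fun n => ?_
  obtain ⟨e', h1, -⟩ := hA.boundary hN hs hm (hA.X (h ^ n)⁻¹ hs)
    (hA.mono_comm (hc.pow_left n).inv_left hs hm) hn hp he
  simpa [mem_act] using (hN.mem h1).1

end IsAct

section lists
variable {α : Type u}

lemma run_split (P : α → Prop) {l : List α} (h : ∃ x ∈ l, P x) :
    ∃ t x b, l = t ++ x :: b ∧ P x ∧ ∀ y ∈ t, ¬ P y := by
  induction l with
  | nil => simp at h
  | cons y l ih =>
    by_cases hy : P y
    · exact ⟨[], y, l, rfl, hy, by simp⟩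
    · obtain ⟨t, x, b, rfl, h1, h2⟩ := ih (by simpa [hy] using h)
      exact ⟨y :: t, x, b, rfl, h1, by simpa [hy] using h2⟩

lemma exists_adjacent (P : α → Prop) {l : List α} (h1 : ∃ x ∈ l, P x) (h2 : ∃ x ∈ l, ¬ P x) :
    ∃ a x y b, l = a ++ x :: y :: b ∧ ((P x ∧ ¬ P y) ∨ (¬ P x ∧ P y)) := by
  induction l with
  | nil => simp at h1
  | cons x l ih =>
    rcases l with _ | ⟨y, l⟩
    · simp only [List.mem_singleton, exists_eq_left] at h1 h2
      exact absurd h1 h2
    · by_cases hxy : (P x ∧ ¬ P y) ∨ (¬ P x ∧ P y)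
      · exact ⟨[], x, y, l, rfl, hxy⟩
      · obtain ⟨a, x', y', b, h, h'⟩ := ih (by
          obtain ⟨z, hz, hP⟩ := h1
          rcases List.mem_cons.1 hz with rfl | hz
          · exact ⟨y, by simp, by tauto⟩
          · exact ⟨z, hz, hP⟩) (by
          obtain ⟨z, hz, hP⟩ := h2
          rcases List.mem_cons.1 hz with rfl | hz
          · exact ⟨y, by simp, by tauto⟩
          · exact ⟨z, hz, hP⟩)
        exact ⟨x :: a, x', y', b, by rw [h]; rfl, h'⟩

end lists

/-- a simple component of `g` between the separators `p` and `q` -/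
structure Comp (T : Tree2 E K) (g : G) (p q : E) : Prop where
  lt : T.Lt p q
  fix : ∀ h : G, Commute h g → h • p = p ∧ h • q = q
  moves : ∃ e, T.Lt p e ∧ T.Lt e q ∧ g • e ≠ e
  out : ∀ e s, T.X s → e ∈ s → g • e = e → (e = p ∨ T.Lt e p) ∨ (e = q ∨ T.Lt q e)
  small : ∀ h : G, Commute h g → ∃ (a : ℕ) (b : ℤ), 0 < a ∧
    ∀ e, T.Lt p e → T.Lt e q → (h ^ a * g ^ b) • e = e

namespace IsAct

variable {T : Tree2 E K} (hA : IsAct T G) {sep : E → Prop} (hS : IsSep T sep)
include hA hS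

lemma last_fixed (g : G) {a : List E} {x : E} (h : T.X (a ++ [x])) : g • x = x := by
  obtain ⟨a', h1⟩ := hS.reach_last (hS.final _ _ h) (h.to (hA.X g h))
  simp only [act_append, act_cons, act_nil] at h1
  simpa using (List.append_inj' h1 rfl).2

lemma first_fixed (g : G) {b : List E} {x : E} (h : T.X (x :: b)) : g • x = x := by
  obtain ⟨b', h1⟩ := hS.reach_first (hS.first _ _ h) (h.to (hA.X g h))
  exact (List.cons.inj h1).1

lemma run_after {g : G} {a b : List E} {p e : E} (h : T.X (a ++ p :: e :: b)) (he : g • e ≠ e) :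
    ∃ t q b', b = t ++ q :: b' ∧ g • q = q ∧ ∀ y ∈ t, g • y ≠ y := by
  refine run_split (fun y => g • y = y) ?_
  rcases b.eq_nil_or_concat' with rfl | ⟨b, x, rfl⟩
  · exact absurd (hA.last_fixed hS g (a := a ++ [p]) (by simpa using h)) he
  · exact ⟨x, by simp, hA.last_fixed hS g (a := a ++ p :: e :: b) (by simpa using h)⟩

omit [MulAction G K] hA hS in
lemma nxL_of_run {g : G} (a t b : List E) (p e q : E) (he : g • e ≠ e)
    (ht : ∀ y ∈ t, g • y ≠ y) :
    ∃ f, NxL (a ++ p :: e :: (t ++ q :: b)) q f ∧ g • f ≠ f := by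
  rcases t.eq_nil_or_concat' with rfl | ⟨t, f, rfl⟩
  · exact ⟨e, ⟨a ++ [p], b, by simp⟩, he⟩
  · exact ⟨f, ⟨a ++ p :: e :: t, b, by simp⟩, ht f (by simp)⟩

lemma exists_comp {g : G} (hg : g ≠ 1) : ∃ p q, Comp T g p q := by
  have hR : IsNx T sep G NxR := isNx_R hS
  have hL : IsNx T sep G NxL := isNx_L hS
  obtain ⟨s, hs, hm, -⟩ := hA.axis g X_base
  have hne : ∃ e ∈ s, g • e ≠ e := by
    by_contra! h
    exact hg (hA.free' hs h)
  obtain ⟨t0, e, b0, rfl, he, ht0⟩ := run_split (fun y => g • y ≠ y) hne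
  obtain ⟨a, p, rfl⟩ : ∃ a p, t0 = a ++ [p] := by
    rcases t0.eq_nil_or_concat' with rfl | h
    · exact absurd (hA.first_fixed hS g hs) he
    · exact h
  have hp : g • p = p := by simpa using ht0 p (by simp)
  simp only [List.append_assoc, List.cons_append, List.nil_append] at hs hm
  obtain ⟨t, q, b, rfl, hq, ht⟩ := hA.run_after hS hs he
  obtain ⟨f, hf1, hf2⟩ := nxL_of_run a t b p e q he ht
  have hnR : NxR (a ++ p :: e :: (t ++ q :: b)) p e := ⟨_, _, rfl⟩
  have hpq : T.Lt p q := lt_of_right hs (by simp)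
  have hs2 : T.X ((a ++ p :: e :: t) ++ q :: b) := by simpa using hs
  have hpe : T.Lt p e := lt_of_right hs (by simp)
  have heq : T.Lt e q := lt_of_left hs2 (by simp)
  have hfix : ∀ h : G, Commute h g → h • p = p ∧ h • q = q := fun h hc =>
    ⟨hA.fix_boundary hR hc hs hm hnR hp he, hA.fix_boundary hL hc hs hm hf1 hq hf2⟩
  have hout : ∀ x y, T.X y → x ∈ y → g • x = x → (x = p ∨ T.Lt x p) ∨ (x = q ∨ T.Lt q x) := by
    intro x y hy hxy hx
    obtain ⟨s', hs', hm', hx'⟩ := hA.axis g hy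
    replace hx' := hx' x hxy hx
    obtain ⟨e', ⟨a', b', rfl⟩, he'⟩ := hA.boundary hR hs hm hs' hm' hnR hp he
    obtain ⟨t', q', b', rfl, hq', ht'⟩ := hA.run_after hS hs' he'
    obtain ⟨f', hf1', hf2'⟩ := nxL_of_run a' t' b' p e' q' he' ht'
    obtain ⟨_, h1, -⟩ := hA.boundary hL hs' hm' hs hm hf1' hq' hf2'
    obtain ⟨_, h2, -⟩ := hA.boundary hL hs hm hs' hm' hf1 hq hf2
    have hs2' : T.X ((a' ++ p :: e' :: t') ++ q' :: b') := by simpa using hs'
    have i1 := mem_right hs (hL.mem h1).1 (lt_of_right hs' (by simp))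
    have i2 := mem_right hs' (hL.mem h2).1 hpq
    simp only [List.mem_cons, List.mem_append] at i1 i2
    have hqq : q' = q := by
      rcases i1 with rfl | i1 | rfl | i1
      · exact absurd hq' he
      · exact absurd hq' (ht _ i1)
      · rfl
      · rcases i2 with rfl | i2 | rfl | i2
        · exact absurd hq he'
        · exact absurd hq (ht' _ i2)
        · rfl
        · exact ((lt_of_right hs2 i1).asymm (lt_of_right hs2' i2)).elim
    subst hqq
    simp only [List.mem_cons, List.mem_append] at hx'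
    rcases hx' with h | h | rfl | h | h | h
    · exact Or.inl (Or.inr (lt_of_left hs' h))
    · exact Or.inl (Or.inl h)
    · exact absurd hx he'
    · exact absurd hx (ht' _ h)
    · exact Or.inr (Or.inl h)
    · exact Or.inr (Or.inr (lt_of_right hs2' h))
  refine ⟨p, q, hpq, hfix, ⟨e, hpe, heq, he⟩, hout, fun h hc => ?_⟩
  obtain ⟨-, κ, h1, h2, h3⟩ := hA.consumed hR hs hnR hp he
  obtain ⟨m, n, hm0, hz⟩ := hA.pigeon hc hs hm h1 h2
  refine ⟨m, n, hm0, ?_⟩
  set z := h ^ m * g ^ n with hzdef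
  have hcz : Commute z g := (hc.pow_left m).mul_left ((Commute.refl g).zpow_left n)
  have hze : z • e = e := by
    have := hA.ins_smul z κ
    rw [hz] at this
    exact act_eq_self.1 this.symm e h3
  obtain ⟨s', hs', hm', hx'⟩ := hA.axis z hs
  obtain ⟨a', b1, rfl⟩ := List.append_of_mem (hx' p (by simp) (hfix z hcz).1)
  obtain ⟨t', b', rfl⟩ := List.append_of_mem
    (mem_right hs' (hx' q (by simp) (hfix z hcz).2) hpq)
  have hs2' : T.X ((a' ++ p :: t') ++ q :: b') := by simpa using hs'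
  have hbetween : ∀ x ∈ t', T.Lt p x ∧ T.Lt x q := fun x hx =>
    ⟨lt_of_right hs' (by simp [hx]), lt_of_left hs2' (by simp [hx])⟩
  have het : e ∈ t' := by
    have i1 := mem_right hs' (hx' e (by simp) hze) hpe
    simp only [List.mem_cons, List.mem_append] at i1
    rcases i1 with i1 | rfl | i1
    · exact i1
    · exact heq.irrefl.elim
    · exact (heq.asymm (lt_of_right hs2' i1)).elim
  have hall : ∀ x ∈ t', z • x = x := by
    by_contra! hcon
    have hno : ∀ x ∈ t', g • x ≠ x := by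
      intro x hx hgx
      rcases hout x _ hs' (by simp [hx]) hgx with (rfl | h) | (rfl | h)
      · exact (hbetween _ hx).1.irrefl
      · exact (hbetween _ hx).1.asymm h
      · exact (hbetween _ hx).2.irrefl
      · exact (hbetween _ hx).2.asymm h
    obtain ⟨c, x, y, d, rfl, ⟨i1, i2⟩ | ⟨i1, i2⟩⟩ :=
      exists_adjacent (fun y => z • y = y) ⟨e, het, hze⟩ hcon
    · exact hno x (by simp) (hA.fix_boundary hR hcz.symm hs' hm'
        ⟨a' ++ p :: c, d ++ q :: b', by simp⟩ i1 i2)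
    · exact hno y (by simp) (hA.fix_boundary hL hcz.symm hs' hm'
        ⟨a' ++ p :: c, d ++ q :: b', by simp⟩ i2 i1)
  rintro x ⟨a4, b4, i1, i2⟩ ⟨a7, b7, i3, i4⟩
  obtain ⟨b5, b6, rfl⟩ := List.append_of_mem i2
  obtain ⟨b8, b9, rfl⟩ := List.append_of_mem i4
  have i5 := X.replace (a := a4 ++ p :: b5) (b := b6) (by simpa using i1) i3
  have i6 := conv3 (a' := a4) (t' := b5 ++ x :: b8) (b' := b9) hs' (by simpa using i5)
  exact hA.fix_reach i6 hall x (by simp)

end IsAct

end Pool.Agent.MP_8a4945_al.H85
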