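import Mathlib

namespace Pool.Agent.MP_8a4945_al.H85

universe u v w

section lists
variable {α : Type u}

lemma split_disj {a u b a' u' b' : List α} (h : a ++ u ++ b = a' ++ u' ++ b')
    (hu : u ≠ []) (hu' : u' ≠ []) (hd : ∀ x ∈ u, x ∉ u') :
    (∃ m, a' = a ++ u ++ m ∧ b = m ++ u' ++ b') ∨ (∃ m, a = a' ++ u' ++ m ∧ b' = m ++ u ++ b) := by
  have key : ∀ {x u b u' b' : List α}, u ++ b = x ++ (u' ++ b') → u' ≠ [] →
      (∀ y ∈ u, y ∉ u') → (∃ m, x = u ++ m ∧ b = m ++ u' ++ b') := by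
    intro x u b u' b' h hu' hd
    rcases List.append_eq_append_iff.1 h with ⟨y, rfl, rfl⟩ | ⟨y, rfl, h2⟩
    · exact ⟨y, rfl, by simp⟩
    · rcases y with _ | ⟨e, y⟩
      · exact ⟨[], by simp, by simpa using h2.symm⟩
      · rcases u' with _ | ⟨e', u'⟩
        · exact absurd rfl hu'
        · simp only [List.cons_append, List.cons.injEq] at h2
          exact absurd (by simp [h2.1]) (hd e (by simp))
  rw [List.append_assoc, List.append_assoc] at h
  rcases List.append_eq_append_iff.1 h with ⟨x, rfl, h2⟩ | ⟨x, rfl, h2⟩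
  · obtain ⟨m, rfl, rfl⟩ := key h2 hu' hd
    exact Or.inl ⟨m, by simp, rfl⟩
  · obtain ⟨m, rfl, rfl⟩ := key h2 hu (fun y hy hy' => hd y hy' hy)
    exact Or.inr ⟨m, by simp, rfl⟩

lemma nodup_cons_eq {a b a' b' : List α} {e : α} (hn : (a ++ e :: b).Nodup)
    (h : a ++ e :: b = a' ++ e :: b') : a = a' ∧ b = b' := by
  have h1 : e ∉ a := fun he => (List.nodup_append.1 hn).2.2 e he e (by simp) rfl
  have h2 : e ∉ b := (List.nodup_cons.1 (List.nodup_append.1 hn).2.1).1
  have := (List.append_cons_inj_of_notMem h1 h2).1 h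
  exact ⟨this.1, this.2.2⟩

lemma nodup_split_eq {a u b a' b' : List α} (hn : (a ++ u ++ b).Nodup)
    (h : a ++ u ++ b = a' ++ u ++ b') (hu : u ≠ []) : a = a' ∧ b = b' := by
  rcases u with _ | ⟨e, u⟩
  · exact absurd rfl hu
  · simp only [List.append_assoc, List.cons_append] at hn h
    have := nodup_cons_eq hn h
    exact ⟨this.1, List.append_cancel_left this.2⟩

lemma split_elem {a u b a' b' : List α} {e : α} (h : a ++ u ++ b = a' ++ e :: b')
    (hu : u ≠ []) (hd : e ∉ u) :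
    (∃ m, a' = a ++ u ++ m ∧ b = m ++ e :: b') ∨ (∃ m, a = a' ++ e :: m ∧ b' = m ++ u ++ b) := by
  have := split_disj (a := a) (u := u) (b := b) (a' := a') (u' := [e]) (b' := b')
    (by simpa using h) hu (by simp) (fun x hx hx' => hd (by simp at hx'; exact hx' ▸ hx))
  simpa using this

end lists

/-- cells with an input word and an inverse -/
structure PreTree (E : Type u) (K : Type v) where
  ins : K → List E
  flip : K → K
  flip_flip : ∀ κ, flip (flip κ) = κ
  ins_ne : ∀ κ, ins κ ≠ []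

namespace PreTree

variable {E : Type u} {K : Type v} (T : PreTree E K)

def outs (κ : K) : List E := T.ins (T.flip κ)

@[simp] lemma outs_flip (κ : K) : T.outs (T.flip κ) = T.ins κ := by rw [outs, T.flip_flip]

@[simp] lemma ins_flip (κ : K) : T.ins (T.flip κ) = T.outs κ := rfl

lemma outs_ne (κ : K) : T.outs κ ≠ [] := T.ins_ne _

lemma flip_inj {κ μ : K} (h : T.flip κ = T.flip μ) : κ = μ := by
  rw [← T.flip_flip κ, h, T.flip_flip]

def Move (s s' : List E) : Prop :=
  ∃ a κ b, s = a ++ T.ins κ ++ b ∧ s' = a ++ T.outs κ ++ b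

def Reach : List E → List E → Prop := Relation.ReflTransGen T.Move

variable {T}

lemma Move.symm {s s' : List E} (h : T.Move s s') : T.Move s' s := by
  obtain ⟨a, κ, b, rfl, rfl⟩ := h
  exact ⟨a, T.flip κ, b, rfl, by simp⟩

lemma Reach.refl (s : List E) : T.Reach s s := Relation.ReflTransGen.refl

lemma Reach.trans {s s' s'' : List E} (h : T.Reach s s') (h' : T.Reach s' s'') :
    T.Reach s s'' := Relation.ReflTransGen.trans h h'

lemma Reach.step {s a b : List E} {κ : K} (h : T.Reach s (a ++ T.ins κ ++ b)) :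
    T.Reach s (a ++ T.outs κ ++ b) := Relation.ReflTransGen.tail h ⟨a, κ, b, rfl, rfl⟩

lemma Reach.symm {s s' : List E} (h : T.Reach s s') : T.Reach s' s := by
  induction h with
  | refl => exact Reach.refl _
  | tail _ h ih => exact Relation.ReflTransGen.head h.symm ih

lemma Reach.ctx {s s' : List E} (h : T.Reach s s') (a b : List E) :
    T.Reach (a ++ s ++ b) (a ++ s' ++ b) := by
  induction h with
  | refl => exact Reach.refl _
  | tail _ h ih =>
    obtain ⟨a', κ, b', rfl, rfl⟩ := h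
    refine Relation.ReflTransGen.tail ih ⟨a ++ a', κ, b' ++ b, by simp, by simp⟩

lemma Reach.ne_nil {s s' : List E} (h : T.Reach s s') (hs : s ≠ []) : s' ≠ [] := by
  induction h with
  | refl => exact hs
  | tail _ h _ =>
    obtain ⟨a', κ, b', rfl, rfl⟩ := h
    simp [T.outs_ne]

variable (T)

/-- `O` is the orientation of the cells away from the word `s` -/
structure IsOri (s : List E) (O : Set K) : Prop where
  xor : ∀ κ, T.flip κ ∈ O ↔ κ ∉ O
  nodup : s.Nodup
  root : ∀ e ∈ s, ∀ κ ∈ O, e ∉ T.outs κ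
  par : ∀ e, e ∉ s → ∃ κ ∈ O, e ∈ T.outs κ
  uniq : ∀ κ ∈ O, ∀ μ ∈ O, ∀ e, e ∈ T.outs κ → e ∈ T.outs μ → κ = μ
  nodup_out : ∀ κ ∈ O, (T.outs κ).Nodup
  wf : ∃ ht : E → ℕ, ∀ κ ∈ O, ∀ e ∈ T.ins κ, ∀ e' ∈ T.outs κ, ht e < ht e'

variable {T}

lemma IsOri.mem_of_ins {s : List E} {O : Set K} (h : T.IsOri s O) {κ : K}
    (hs : ∀ e ∈ T.ins κ, e ∈ s) : κ ∈ O := by
  by_contra hκ
  obtain ⟨e, he⟩ := List.exists_mem_of_ne_nil _ (T.ins_ne κ)
  exact h.root e (hs e he) _ ((h.xor κ).2 hκ) (by simpa using he)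

lemma IsOri.move {a b : List E} {κ : K} {O : Set K} (h : T.IsOri (a ++ T.ins κ ++ b) O) :
    T.IsOri (a ++ T.outs κ ++ b) (insert (T.flip κ) (O \ {κ})) := by
  have hκ : κ ∈ O := h.mem_of_ins (by simp +contextual)
  have hκ' : T.flip κ ∉ O := fun h' => (h.xor κ).1 h' hκ
  have hn := h.nodup
  simp only [List.nodup_append, List.mem_append] at hn
  obtain ⟨⟨hna, hni, hai⟩, hnb, hb⟩ := hn
  have hio : ∀ e ∈ T.ins κ, ∀ μ ∈ O, e ∉ T.outs μ := fun e he => h.root e (by simp [he])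
  refine ⟨fun μ => ?_, ?_, ?_, ?_, ?_, ?_, ?_⟩
  · simp only [Set.mem_insert_iff, Set.mem_sdiff, Set.mem_singleton_iff]
    by_cases h1 : μ = κ
    · subst h1
      have : μ ≠ T.flip μ := fun h' => hκ' (h' ▸ hκ)
      simp [this]
    · by_cases h2 : μ = T.flip κ
      · subst h2
        have : κ ≠ T.flip κ := fun h' => hκ' (h' ▸ hκ)
        simp [T.flip_flip, this]
      · have h3 : T.flip μ ≠ T.flip κ := fun h' => h1 (T.flip_inj h')
        have h4 : T.flip μ ≠ κ := fun h' => h2 (by rw [← h', T.flip_flip])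
        simp [h1, h2, h3, h4, h.xor]
  · simp only [List.nodup_append, List.mem_append]
    refine ⟨⟨hna, h.nodup_out κ hκ, ?_⟩, hnb, ?_⟩
    · rintro x hx y hy rfl
      exact h.root x (by simp [hx]) κ hκ hy
    · rintro x (hx | hx) y hy rfl
      · exact hb x (Or.inl hx) x hy rfl
      · exact h.root x (by simp [hy]) κ hκ hx
  · rintro e he μ (rfl | ⟨hμ, hne⟩) he'
    · simp only [outs_flip] at he'
      simp only [List.mem_append] at he
      rcases he with (he | he) | he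
      · exact hai e he e he' rfl
      · exact hio e he' κ hκ he
      · exact hb e (Or.inr he') e he rfl
    · simp only [List.mem_append] at he
      rcases he with (he | he) | he
      · exact h.root e (by simp [he]) μ hμ he'
      · exact hne (h.uniq _ hμ _ hκ e he' he)
      · exact h.root e (by simp [he]) μ hμ he'
  · intro e he
    simp only [List.mem_append, not_or] at he
    by_cases h1 : e ∈ T.ins κ
    · exact ⟨T.flip κ, Or.inl rfl, by simpa using h1⟩
    · obtain ⟨μ, hμ, he'⟩ := h.par e (by simp [he.1.1, he.2, h1])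
      exact ⟨μ, Or.inr ⟨hμ, by rintro rfl; exact he.1.2 he'⟩, he'⟩
  · rintro μ (rfl | hμ) ν (rfl | hν) e h1 h2
    · rfl
    · exact absurd h2 (hio e (by simpa using h1) _ hν.1)
    · exact absurd h1 (hio e (by simpa using h2) _ hμ.1)
    · exact h.uniq _ hμ.1 _ hν.1 e h1 h2
  · rintro μ (rfl | hμ)
    · simpa using hni
    · exact h.nodup_out _ hμ.1
  · classical
    obtain ⟨ht, hht⟩ := h.wf
    refine ⟨fun e => if e ∈ T.outs κ then 0 else ht e + 1, ?_⟩
    rintro μ (rfl | hμ) e he e' he'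
    · simp only [ins_flip, outs_flip] at he he'
      simp [he, hio e' he' κ hκ]
    · have : e' ∉ T.outs κ := fun h' => hμ.2 (h.uniq _ hμ.1 _ hκ e' he' h')
      have h2 := hht μ hμ.1 e he e' he'
      simp only [this, if_false]
      split_ifs <;> omega

lemma IsOri.subset {s : List E} {O O' : Set K} (h : T.IsOri s O) (h' : T.IsOri s O') :
    O ⊆ O' := by
  obtain ⟨ht, hht⟩ := h.wf
  have key : ∀ n, ∀ κ ∈ O, ∀ e ∈ T.ins κ, ht e < n → κ ∈ O' := by
    intro n
    induction n with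
    | zero => intro κ _ e _ h; omega
    | succ n ih =>
      intro κ hκ e he hn
      by_contra hκ'
      have h1 : T.flip κ ∈ O' := (h'.xor κ).2 hκ'
      have h2 : e ∉ s := fun hs => h'.root e hs _ h1 (by simpa using he)
      obtain ⟨μ, hμ, heμ⟩ := h.par e h2
      obtain ⟨e1, he1⟩ := List.exists_mem_of_ne_nil _ (T.ins_ne μ)
      have h3 := ih μ hμ e1 he1 (by have := hht μ hμ e1 he1 e heμ; omega)
      have h4 := h'.uniq _ h3 _ h1 e heμ (by simpa using he)
      subst h4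
      exact (h.xor κ).1 hμ hκ
  intro κ hκ
  obtain ⟨e, he⟩ := List.exists_mem_of_ne_nil _ (T.ins_ne κ)
  exact key _ κ hκ e he (Nat.lt_succ_self _)

variable (T)

def ori (s : List E) : Set K := {κ | ∃ O, T.IsOri s O ∧ κ ∈ O}

variable {T}

lemma IsOri.ori_eq {s : List E} {O : Set K} (h : T.IsOri s O) : T.ori s = O := by
  ext κ
  exact ⟨fun ⟨_, h', hκ⟩ => h'.subset h hκ, fun hκ => ⟨O, h, hκ⟩⟩

variable (T)

/-- paths of moves with values in a group -/
inductive PV {Γ : Type w} [Group Γ] (μ : List E → K → List E → Γ) (ok : K → Prop) (s : List E) :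
    List E → Γ → Prop
  | refl : PV μ ok s s 1
  | step {a b : List E} {κ : K} {γ : Γ} : PV μ ok s (a ++ T.ins κ ++ b) γ → ok κ →
      PV μ ok s (a ++ T.outs κ ++ b) (γ * μ a κ b)

variable {T}

lemma PV.reach {Γ : Type w} [Group Γ] {μ : List E → K → List E → Γ} {ok : K → Prop}
    {s y : List E} {γ : Γ} (h : T.PV μ ok s y γ) : T.Reach s y := by
  induction h with
  | refl => exact Reach.refl _
  | step _ _ ih => exact ih.step

lemma PV.trans {Γ : Type w} [Group Γ] {μ : List E → K → List E → Γ} {ok : K → Prop}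
    {s y z : List E} {γ δ : Γ} (h : T.PV μ ok s y γ) (h' : T.PV μ ok y z δ) :
    T.PV μ ok s z (γ * δ) := by
  induction h' with
  | refl => simpa using h
  | step _ hk ih => rw [← mul_assoc]; exact PV.step ih hk

lemma Reach.pv {Γ : Type w} [Group Γ] (μ : List E → K → List E → Γ) {s y : List E}
    (h : T.Reach s y) : ∃ γ, T.PV μ (fun _ => True) s y γ := by
  induction h with
  | refl => exact ⟨1, PV.refl⟩
  | tail _ h ih =>
    obtain ⟨a, κ, b, rfl, rfl⟩ := h
    obtain ⟨γ, hγ⟩ := ih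
    exact ⟨_, PV.step hγ trivial⟩

/-- paths using only allowed cells -/
def OkR (T : PreTree E K) (ok : K → Prop) (s y : List E) : Prop :=
  T.PV (fun _ _ _ => (1 : PUnit.{1})) ok s y 1

lemma OkR.reach {ok : K → Prop} {s y : List E} (h : T.OkR ok s y) : T.Reach s y := PV.reach h

lemma OkR.refl {ok : K → Prop} (s : List E) : T.OkR ok s s := PV.refl

lemma OkR.step {ok : K → Prop} {s a b : List E} {κ : K} (h : T.OkR ok s (a ++ T.ins κ ++ b))
    (hk : ok κ) : T.OkR ok s (a ++ T.outs κ ++ b) := PV.step h hk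

@[elab_as_elim]
lemma OkR.induction {ok : K → Prop} {s : List E} {P : List E → Prop} {y : List E}
    (h : T.OkR ok s y) (refl : P s)
    (step : ∀ a κ b, T.OkR ok s (a ++ T.ins κ ++ b) → ok κ → P (a ++ T.ins κ ++ b) →
      P (a ++ T.outs κ ++ b)) : P y := by
  unfold OkR at h
  generalize (1 : PUnit.{1}) = γ at h
  induction h with
  | refl => exact refl
  | step h hk ih => exact step _ _ _ h hk ih

lemma OkR.split {ok : K → Prop} {s y : List E} {e : E} (h : T.OkR ok s y)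
    (he : ∀ κ, ok κ → e ∉ T.outs κ) : ∀ a' b', y = a' ++ e :: b' →
      ∃ a b, s = a ++ e :: b ∧ T.OkR ok a a' ∧ T.OkR ok b b' := by
  refine h.induction ?_ ?_
  · rintro a' b' rfl
    exact ⟨a', b', rfl, OkR.refl _, OkR.refl _⟩
  · intro a1 κ b1 _ hk ih a' b' h
    rcases split_elem h (T.outs_ne κ) (he κ hk) with ⟨m, rfl, rfl⟩ | ⟨m, rfl, rfl⟩
    · obtain ⟨a, b, h1, h2, h3⟩ := ih (a1 ++ T.ins κ ++ m) b' (by simp)
      exact ⟨a, b, h1, h2.step hk, h3⟩
    · obtain ⟨a, b, h1, h2, h3⟩ := ih a' (m ++ T.ins κ ++ b1) (by simp)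
      exact ⟨a, b, h1, h2, h3.step hk⟩

end PreTree

/-- a rooted two-dimensional tree -/
structure Tree2 (E : Type u) (K : Type v) extends PreTree E K where
  base : List E
  base_ori : ∃ O, toPreTree.IsOri base O

namespace Tree2

open PreTree

variable {E : Type u} {K : Type v} (T : Tree2 E K)

/-- the words reachable from the base word -/
def X (s : List E) : Prop := T.Reach T.base s

variable {T}

lemma X.reach {s s' : List E} (h : T.X s) (h' : T.Reach s s') : T.X s' := Reach.trans h h'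

lemma X.step {a b : List E} {κ : K} (h : T.X (a ++ T.ins κ ++ b)) :
    T.X (a ++ T.outs κ ++ b) := Reach.step h

lemma X.unstep {a b : List E} {κ : K} (h : T.X (a ++ T.outs κ ++ b)) :
    T.X (a ++ T.ins κ ++ b) := by
  simpa using X.step (κ := T.flip κ) h

lemma X.to {s s' : List E} (h : T.X s) (h' : T.X s') : T.Reach s s' :=
  (Reach.symm h).trans h'

lemma X_base : T.X T.base := Reach.refl _

lemma X.isOri {s : List E} (h : T.X s) : T.IsOri s (T.ori s) := by
  have : ∃ O, T.IsOri s O := by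
    induction h with
    | refl => exact T.base_ori
    | tail _ h ih =>
      obtain ⟨a, κ, b, rfl, rfl⟩ := h
      obtain ⟨O, hO⟩ := ih
      exact ⟨_, hO.move⟩
  obtain ⟨O, hO⟩ := this
  rwa [hO.ori_eq]

lemma X.nodup {s : List E} (h : T.X s) : s.Nodup := h.isOri.nodup

lemma X.ori_step {a b : List E} {κ : K} (h : T.X (a ++ T.ins κ ++ b)) :
    T.ori (a ++ T.outs κ ++ b) = insert (T.flip κ) (T.ori (a ++ T.ins κ ++ b) \ {κ}) :=
  h.isOri.move.ori_eq

lemma X.mem_ori {a b : List E} {κ : K} (h : T.X (a ++ T.ins κ ++ b)) :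
    κ ∈ T.ori (a ++ T.ins κ ++ b) := h.isOri.mem_of_ins (by simp +contextual)

lemma X.flip_mem {s : List E} (h : T.X s) {κ : K} : T.flip κ ∈ T.ori s ↔ κ ∉ T.ori s :=
  h.isOri.xor κ

/-- the cocycle conditions -/
structure Cocycle {Γ : Type w} [Group Γ] (T : Tree2 E K) (μ : List E → K → List E → Γ) :
    Prop where
  cancel : ∀ a κ b, T.X (a ++ T.ins κ ++ b) → μ a κ b * μ a (T.flip κ) b = 1
  swap : ∀ a κ m ν b, T.X (a ++ T.ins κ ++ m ++ T.ins ν ++ b) →
    μ a κ (m ++ T.ins ν ++ b) * μ (a ++ T.outs κ ++ m) ν b =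
      μ (a ++ T.ins κ ++ m) ν b * μ a κ (m ++ T.outs ν ++ b)

section
variable {Γ : Type w} [Group Γ] {μ : List E → K → List E → Γ}

lemma undo (hμ : T.Cocycle μ) {s y : List E} {γ : Γ} (hs : T.X s)
    (h : T.PV μ (· ∈ T.ori s) s y γ) : ∀ κ ∈ T.ori s, ∀ a b, y = a ++ T.outs κ ++ b →
      ∃ γ', T.PV μ (· ∈ T.ori s) s (a ++ T.ins κ ++ b) γ' ∧ γ = γ' * μ a κ b := by
  induction h with
  | refl =>
    intro κ hκ a b h
    obtain ⟨e, he⟩ := List.exists_mem_of_ne_nil _ (T.outs_ne κ)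
    exact absurd he (hs.isOri.root e (by simp [h, he]) κ hκ)
  | @step a1 b1 ν γ hp hν ih =>
    intro κ hκ a b h
    have hX : T.X (a1 ++ T.ins ν ++ b1) := hs.reach hp.reach
    by_cases hκν : ν = κ
    · subst hκν
      obtain ⟨rfl, rfl⟩ := nodup_split_eq hX.step.nodup h (T.outs_ne _)
      exact ⟨γ, hp, rfl⟩
    · rcases split_disj h (T.outs_ne _) (T.outs_ne _)
        (fun x h1 h2 => hκν (hs.isOri.uniq _ hν _ hκ x h1 h2)) with ⟨m, rfl, rfl⟩ | ⟨m, rfl, rfl⟩
      · obtain ⟨γ', h1, rfl⟩ := ih κ hκ (a1 ++ T.ins ν ++ m) b (by simp)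
        refine ⟨γ' * μ a1 ν (m ++ T.ins κ ++ b), ?_, ?_⟩
        · have := PV.step (a := a1) (b := m ++ T.ins κ ++ b) (κ := ν) (by simpa using h1) hν
          simpa using this
        · rw [mul_assoc, mul_assoc, hμ.swap _ _ _ _ _ (hs.reach h1.reach)]
      · obtain ⟨γ', h1, rfl⟩ := ih κ hκ a (m ++ T.ins ν ++ b1) (by simp)
        refine ⟨γ' * μ (a ++ T.ins κ ++ m) ν b1, ?_, ?_⟩
        · have := PV.step (a := a ++ T.ins κ ++ m) (b := b1) (κ := ν) (by simpa using h1) hν
          simpa using this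
        · rw [mul_assoc, mul_assoc, hμ.swap _ _ _ _ _ (by simpa using hs.reach h1.reach)]

lemma geodesify (hμ : T.Cocycle μ) {ok : K → Prop} {s y : List E} {γ : Γ} (hs : T.X s)
    (h : T.PV μ ok s y γ) : T.PV μ (· ∈ T.ori s) s y γ := by
  induction h with
  | refl => exact PV.refl
  | @step a b κ γ hp _ ih =>
    by_cases hκ : κ ∈ T.ori s
    · exact PV.step ih hκ
    · obtain ⟨γ', h1, rfl⟩ := undo hμ hs ih _ (hs.flip_mem.2 hκ) a b (by simp)
      have := hμ.cancel a (T.flip κ) b (hs.reach h1.reach)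
      rw [T.flip_flip] at this
      rw [mul_assoc, this, mul_one]
      exact h1

lemma simply_connected (hμ : T.Cocycle μ) {ok : K → Prop} {s : List E} {γ : Γ} (hs : T.X s)
    (h : T.PV μ ok s s γ) : γ = 1 := by
  have h1 := geodesify hμ hs h
  have : ∀ y γ, T.PV μ (· ∈ T.ori s) s y γ → y = s → γ = 1 := by
    intro y γ h hy
    cases h with
    | refl => rfl
    | @step a b κ γ _ hκ =>
      obtain ⟨e, he⟩ := List.exists_mem_of_ne_nil _ (T.outs_ne κ)
      exact absurd he (hs.isOri.root e (by simp [← hy, he]) κ hκ)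
  exact this _ _ h1 rfl

lemma pv_symm (hμ : T.Cocycle μ) {s y : List E} {γ : Γ} (hs : T.X s)
    (h : T.PV μ (fun _ => True) s y γ) : T.PV μ (fun _ => True) y s γ⁻¹ := by
  induction h with
  | refl => simpa using PV.refl
  | @step a b κ γ hp _ ih =>
    have h1 := hμ.cancel a κ b (hs.reach hp.reach)
    have h2 : T.PV μ (fun _ => True) (a ++ T.outs κ ++ b) (a ++ T.ins κ ++ b)
        (μ a (T.flip κ) b) := by
      simpa using PV.step (T := T.toPreTree) (μ := μ) (ok := fun _ => True) (a := a) (b := b)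
        (κ := T.flip κ) PV.refl trivial
    rw [mul_inv_rev, ← eq_inv_of_mul_eq_one_right h1]
    exact h2.trans ih

lemma pv_unique (hμ : T.Cocycle μ) {s y : List E} {γ δ : Γ} (hs : T.X s)
    (h : T.PV μ (fun _ => True) s y γ) (h' : T.PV μ (fun _ => True) s y δ) : γ = δ :=
  mul_inv_eq_one.1 (simply_connected hμ hs (h.trans (pv_symm hμ hs h')))

end

lemma X.geo {s y : List E} (hs : T.X s) (hy : T.X y) : T.OkR (· ∈ T.ori s) s y := by
  obtain ⟨γ, h⟩ := (hs.to hy).pv (fun _ _ _ => (1 : PUnit.{1}))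
  exact geodesify ⟨fun _ _ _ _ => rfl, fun _ _ _ _ _ _ => rfl⟩ hs h

lemma conv {a b a' b' : List E} {e : E} (h : T.X (a ++ e :: b)) (h' : T.X (a' ++ e :: b')) :
    T.Reach a a' ∧ T.Reach b b' := by
  obtain ⟨a1, b1, h1, h2, h3⟩ := (h.geo h').split
    (fun κ hκ => h.isOri.root e (by simp) κ hκ) a' b' rfl
  obtain ⟨rfl, rfl⟩ := nodup_cons_eq h.nodup h1
  exact ⟨h2.reach, h3.reach⟩

lemma conv3 {a t b a' t' b' : List E} {p q : E} (h : T.X (a ++ p :: (t ++ q :: b)))
    (h' : T.X (a' ++ p :: (t' ++ q :: b'))) : T.Reach t t' := by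
  obtain ⟨a1, b1, h1, -, h3⟩ := (h.geo h').split
    (fun κ hκ => h.isOri.root p (by simp) κ hκ) a' _ rfl
  obtain ⟨rfl, rfl⟩ := nodup_cons_eq h.nodup h1
  obtain ⟨t1, b1, h4, h5, -⟩ := h3.split
    (fun κ hκ => h.isOri.root q (by simp) κ hκ) t' _ rfl
  have hn : (t ++ q :: b).Nodup :=
    (List.nodup_cons.1 (List.nodup_append.1 h.nodup).2.1).2
  obtain ⟨rfl, rfl⟩ := nodup_cons_eq hn h4
  exact h5.reach

lemma X.replace {a b a' b' : List E} {e : E} (h : T.X (a ++ e :: b)) (h' : T.X (a' ++ e :: b')) :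
    T.X (a ++ e :: b') := by
  have := (conv h h').2.ctx (a ++ [e]) []
  simp only [List.append_assoc, List.cons_append, List.nil_append, List.append_nil] at this
  exact h.reach this

/-- `z` lies between `s` and `y` -/
def Btw (T : Tree2 E K) (s z y : List E) : Prop := T.ori s ∩ T.ori y ⊆ T.ori z

lemma Btw.mem {s z y : List E} (h : T.Btw s z y) (hs : T.X s) (hz : T.X z) (hy : T.X y) {e : E}
    (h1 : e ∈ s) (h2 : e ∈ y) : e ∈ z := by
  by_contra he
  obtain ⟨κ, hκ, heκ⟩ := hz.isOri.par e he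
  have a1 : κ ∉ T.ori s := fun h' => hs.isOri.root e h1 κ h' heκ
  have a2 : κ ∉ T.ori y := fun h' => hy.isOri.root e h2 κ h' heκ
  exact hz.flip_mem.1 (h ⟨hs.flip_mem.2 a1, hy.flip_mem.2 a2⟩) hκ

lemma fired {s y : List E} (hs : T.X s) (hy : T.X y) {κ : K} (h1 : κ ∈ T.ori s)
    (h2 : κ ∉ T.ori y) : ∃ a b, T.X (a ++ T.ins κ ++ b) ∧ T.Btw s (a ++ T.ins κ ++ b) y := by
  revert h2
  refine (hs.geo hy).induction (fun h => absurd h1 h) ?_
  intro a ν b hp hν ih h2
  have hX := hs.reach hp.reach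
  have hb : T.Btw s (a ++ T.ins ν ++ b) (a ++ T.outs ν ++ b) := by
    rintro μ ⟨hμ1, hμ2⟩
    rw [hX.ori_step] at hμ2
    rcases hμ2 with rfl | hμ2
    · exact absurd hν (hs.flip_mem.1 hμ1)
    · exact hμ2.1
  by_cases hκν : κ = ν
  · subst hκν
    exact ⟨a, b, hX, hb⟩
  · obtain ⟨a', b', h3, h4⟩ := ih (fun h => h2 (by rw [hX.ori_step]; exact Or.inr ⟨h, hκν⟩))
    exact ⟨a', b', h3, fun μ hμ => h4 ⟨hμ.1, hb hμ⟩⟩

lemma contiguous {s y : List E} (hs : T.X s) (hy : T.X y) {κ : K} (h1 : κ ∈ T.ori s)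
    (h2 : κ ∉ T.ori y) (h3 : ∀ e ∈ T.outs κ, e ∈ y) : ∃ a b, y = a ++ T.outs κ ++ b := by
  revert h2 h3
  refine (hs.geo hy).induction (fun h => absurd h1 h) ?_
  intro a ν b hp hν ih h2 h3
  have hX := hs.reach hp.reach
  by_cases hκν : κ = ν
  · subst hκν
    exact ⟨a, b, rfl⟩
  · have hd : ∀ e ∈ T.outs κ, e ∉ T.outs ν := fun e a1 a2 => hκν (hs.isOri.uniq _ h1 _ hν e a1 a2)
    obtain ⟨a', b', h4⟩ := ih (fun h => h2 (by rw [hX.ori_step]; exact Or.inr ⟨h, hκν⟩)) (by
      intro e he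
      have := h3 e he
      have := hd e he
      simp only [List.mem_append] at *
      tauto)
    have hd2 : ∀ e ∈ T.ins ν, e ∉ T.outs κ := by
      intro e a1 a2
      refine hX.step.isOri.root e (h3 e a2) (T.flip ν) ?_ (by simpa using a1)
      rw [hX.ori_step]; exact Or.inl rfl
    rcases split_disj h4 (T.ins_ne _) (T.outs_ne _) hd2 with ⟨m, rfl, rfl⟩ | ⟨m, rfl, rfl⟩
    · exact ⟨a ++ T.outs ν ++ m, b', by simp⟩
    · exact ⟨a', m ++ T.outs ν ++ b, by simp⟩

lemma sep_finite {s y : List E} (hs : T.X s) (hy : T.X y) : (T.ori s \ T.ori y).Finite := by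
  refine (hs.geo hy).induction (by simp) ?_
  intro a ν b hp _ ih
  have hX := hs.reach hp.reach
  refine (ih.insert ν).subset ?_
  rintro κ ⟨h1, h2⟩
  by_cases hκν : κ = ν
  · exact Or.inl hκν
  · exact Or.inr ⟨h1, fun h => h2 (by rw [hX.ori_step]; exact Or.inr ⟨h, hκν⟩)⟩

/-- the left-right order on labels -/
def Lt (T : Tree2 E K) (e e' : E) : Prop := ∃ a b, T.X (a ++ e :: b) ∧ e' ∈ b

lemma Lt.irrefl {e : E} (h : T.Lt e e) : False := by
  obtain ⟨a, b, h1, h2⟩ := h
  exact (List.nodup_cons.1 (List.nodup_append.1 h1.nodup).2.1).1 h2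

lemma Lt.trans {e e' e'' : E} (h : T.Lt e e') (h' : T.Lt e' e'') : T.Lt e e'' := by
  obtain ⟨a, b, h1, h2⟩ := h
  obtain ⟨a', b', h3, h4⟩ := h'
  obtain ⟨b1, b2, rfl⟩ := List.append_of_mem h2
  have := X.replace (a := a ++ e :: b1) (b := b2) (by simpa using h1) h3
  exact ⟨a, b1 ++ e' :: b', by simpa using this, by simp [h4]⟩

lemma Lt.asymm {e e' : E} (h : T.Lt e e') (h' : T.Lt e' e) : False := (h.trans h').irrefl

lemma lt_of_left {a b : List E} {p e : E} (h : T.X (a ++ p :: b)) (he : e ∈ a) : T.Lt e p := by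
  obtain ⟨a1, a2, rfl⟩ := List.append_of_mem he
  exact ⟨a1, a2 ++ p :: b, by simpa using h, by simp⟩

lemma lt_of_right {a b : List E} {p e : E} (h : T.X (a ++ p :: b)) (he : e ∈ b) : T.Lt p e :=
  ⟨a, b, h, he⟩

lemma Lt.left {e p : E} (h : T.Lt e p) : ∃ a b, T.X (a ++ p :: b) ∧ e ∈ a := by
  obtain ⟨a, b, h1, h2⟩ := h
  obtain ⟨b1, b2, rfl⟩ := List.append_of_mem h2
  exact ⟨a ++ e :: b1, b2, by simpa using h1, by simp⟩

lemma trichotomy {s : List E} (hs : T.X s) {e e' : E} (h : e ∈ s) (h' : e' ∈ s) :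
    e = e' ∨ T.Lt e e' ∨ T.Lt e' e := by
  obtain ⟨a, b, rfl⟩ := List.append_of_mem h
  simp only [List.mem_append, List.mem_cons] at h'
  rcases h' with h' | h' | h'
  · exact Or.inr (Or.inr (lt_of_left hs h'))
  · exact Or.inl h'.symm
  · exact Or.inr (Or.inl (lt_of_right hs h'))

lemma mem_right {a b : List E} {p e : E} (h : T.X (a ++ p :: b)) (he : e ∈ a ++ p :: b)
    (hl : T.Lt p e) : e ∈ b := by
  simp only [List.mem_append, List.mem_cons] at he
  rcases he with he | rfl | he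
  · exact (hl.asymm (lt_of_left h he)).elim
  · exact hl.irrefl.elim
  · exact he

lemma mem_left {a b : List E} {p e : E} (h : T.X (a ++ p :: b)) (he : e ∈ a ++ p :: b)
    (hl : T.Lt e p) : e ∈ a := by
  simp only [List.mem_append, List.mem_cons] at he
  rcases he with he | rfl | he
  · exact he
  · exact hl.irrefl.elim
  · exact (hl.asymm (lt_of_right h he)).elim

end Tree2

end Pool.Agent.MP_8a4945_al.H85
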